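import Pool.Agent.Lib.MP_391708_nt.X.SpecMT

/-!
# X/MT/BIL: the trilinear sum
-/

set_option autoImplicit false

namespace Pool.Agent.Lib.MP391708.XM
namespace BILM

open Finset
open Pool.Agent.Lib.MP391708.X.M4

/-- small frequencies -/
lemma small_part {θ β : ℝ} (h0 : 0 < β) (h1 : β < 1) (n : ℕ) (a x y : ℕ → ℂ) (M : ℝ) (hM : 0 ≤ M)
    (hx : ∀ m, m ≤ n → ‖∑ v ∈ range m, x v‖ ≤ M) :
    ‖∑ u ∈ range n, ∑ v ∈ range n, ∑ j ∈ range n, a u * x v * y j * H θ β (u + v + j)‖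
      ≤ (2 + |θ|) * M * ((∑ u ∈ range n, ‖a u‖) * ∑ j ∈ range n, ‖y j‖) := by
  have e1 : ∑ u ∈ range n, ∑ v ∈ range n, ∑ j ∈ range n, a u * x v * y j * H θ β (u + v + j)
      = ∑ u ∈ range n, ∑ j ∈ range n, a u * y j * ∑ v ∈ range n, x v * H θ β (u + j + v) := by
    apply sum_congr rfl
    intro u _
    rw [sum_comm]
    apply sum_congr rfl
    intro j _
    rw [mul_sum]
    apply sum_congr rfl
    intro v _
    rw [show u + j + v = u + v + j by ring]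
    ring
  rw [e1, sum_mul_sum, mul_sum]
  refine (norm_sum_le _ _).trans (sum_le_sum fun u _ => ?_)
  rw [mul_sum]
  refine (norm_sum_le _ _).trans (sum_le_sum fun j _ => ?_)
  rw [norm_mul, norm_mul]
  have := small (θ := θ) h0 h1 (u + j) n x M hM hx
  calc ‖a u‖ * ‖y j‖ * ‖∑ v ∈ range n, x v * H θ β (u + j + v)‖
      ≤ ‖a u‖ * ‖y j‖ * ((2 + |θ|) * M) := mul_le_mul_of_nonneg_left this (by positivity)
    _ = (2 + |θ|) * M * (‖a u‖ * ‖y j‖) := by ring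

lemma row_bound {C c θ β : ℝ} {n : ℕ} (hC : 1 ≤ C) (hc : 0 < c) (h0 : 0 < β)
    (h1 : β < 1) (hn : 1 ≤ n) (hCn : 1 ≤ C * n * (1 - β)) (hcn : c ≤ β ^ n) (hc1 : c ≤ 1)
    (T : ℝ) (hT : 1 ≤ T) (hθT : T ≤ |θ|) (hθ1 : |θ| * (1 - β) ≤ 1) (v : ℕ) (hv : v < n) :
    (n : ℝ) + 4 * Real.sqrt n * Real.sqrt (8 * n / (|θ * β ^ v| * (β ^ n * (1 - β)) ^ 2))
      ≤ (4 * (C / c ^ 2) * n * T ^ (-(1 / 4) : ℝ)) ^ 2 := by
  have hn' : (1 : ℝ) ≤ n := by exact_mod_cast hn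
  have hb : 0 < 1 - β := by linarith
  have hθ0 : 0 < |θ| := by linarith
  have hCn0 : 0 < C * n := by positivity
  -- `1 - β ≥ 1/(C n)`
  have hb2 : 1 / (C * n) ≤ 1 - β := by
    rw [div_le_iff₀ hCn0]
    linarith
  have hθn : |θ| ≤ C * n := by
    have : |θ| * (1 / (C * n)) ≤ 1 := (mul_le_mul_of_nonneg_left hb2 hθ0.le).trans hθ1
    rw [mul_one_div, div_le_one hCn0] at this
    exact this
  have hbv : c ≤ β ^ v := hcn.trans (pow_le_pow_of_le_one h0.le h1.le hv.le)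
  have hθv : c * |θ| ≤ |θ * β ^ v| := by
    rw [abs_mul, abs_of_pos (by positivity : 0 < β ^ v)]
    nlinarith
  set s : ℝ := Real.sqrt |θ| with hs
  have hs0 : 0 < s := Real.sqrt_pos.2 hθ0
  have hss : s * s = |θ| := Real.mul_self_sqrt hθ0.le
  have hs1 : 1 ≤ s := by
    rw [hs]
    exact Real.one_le_sqrt.2 (by linarith)
  -- first term
  have t1 : (n : ℝ) ≤ C * n ^ 2 / s := by
    rw [le_div_iff₀ hs0]
    have : s ≤ C * n := by
      by_contra hcon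
      push Not at hcon
      have h3 : 1 ≤ C * n := by nlinarith
      nlinarith
    nlinarith
  -- second term
  have t2 : 8 * (n : ℝ) / (|θ * β ^ v| * (β ^ n * (1 - β)) ^ 2) ≤ 8 * C ^ 2 * n ^ 3 / (c ^ 3 * |θ|) := by
    have e1 : c ^ 3 * |θ| * (1 / (C * n)) ^ 2 ≤ |θ * β ^ v| * (β ^ n * (1 - β)) ^ 2 := by
      have e2 : c * (1 / (C * n)) ≤ β ^ n * (1 - β) :=
        mul_le_mul hcn hb2 (by positivity) (by positivity)
      have e3 : (c * (1 / (C * n))) ^ 2 ≤ (β ^ n * (1 - β)) ^ 2 :=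
        pow_le_pow_left₀ (by positivity) e2 2
      calc c ^ 3 * |θ| * (1 / (C * n)) ^ 2 = (c * |θ|) * (c * (1 / (C * n))) ^ 2 := by ring
        _ ≤ |θ * β ^ v| * (β ^ n * (1 - β)) ^ 2 :=
          mul_le_mul hθv e3 (by positivity) (by positivity)
    calc 8 * (n : ℝ) / (|θ * β ^ v| * (β ^ n * (1 - β)) ^ 2)
        ≤ 8 * n / (c ^ 3 * |θ| * (1 / (C * n)) ^ 2) :=
          div_le_div_of_nonneg_left (by positivity) (by positivity) e1
      _ = 8 * C ^ 2 * n ^ 3 / (c ^ 3 * |θ|) := by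
          have : C ≠ 0 := by positivity
          have : (n : ℝ) ≠ 0 := by positivity
          field_simp
  have t3 : 4 * Real.sqrt n * Real.sqrt (8 * n / (|θ * β ^ v| * (β ^ n * (1 - β)) ^ 2))
      ≤ 12 * (C / c ^ 2) * n ^ 2 / s := by
    rw [mul_assoc, ← Real.sqrt_mul (by positivity)]
    have e1 : Real.sqrt (n * (8 * n / (|θ * β ^ v| * (β ^ n * (1 - β)) ^ 2)))
        ≤ 3 * (C / c ^ 2) * n ^ 2 / s := by
      apply Real.sqrt_le_iff.2
      refine ⟨by positivity, ?_⟩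
      calc (n : ℝ) * (8 * n / (|θ * β ^ v| * (β ^ n * (1 - β)) ^ 2))
          ≤ n * (8 * C ^ 2 * n ^ 3 / (c ^ 3 * |θ|)) := mul_le_mul_of_nonneg_left t2 (by positivity)
        _ = 8 * C ^ 2 * n ^ 4 / (c ^ 3 * |θ|) := by ring
        _ ≤ 9 * C ^ 2 * n ^ 4 / (c ^ 4 * |θ|) := by
            apply div_le_div₀ (by positivity) _ (by positivity)
            · have : c ^ 4 ≤ c ^ 3 := pow_le_pow_of_le_one hc.le hc1 (by omega)
              exact mul_le_mul_of_nonneg_right this hθ0.le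
            · have : 0 ≤ C ^ 2 * n ^ 4 := by positivity
              nlinarith
        _ = (3 * (C / c ^ 2) * n ^ 2 / s) ^ 2 := by
            rw [← hss]
            have : c ≠ 0 := hc.ne'
            field_simp
            ring
    calc 4 * Real.sqrt (n * (8 * n / (|θ * β ^ v| * (β ^ n * (1 - β)) ^ 2)))
        ≤ 4 * (3 * (C / c ^ 2) * n ^ 2 / s) := by linarith
      _ = 12 * (C / c ^ 2) * n ^ 2 / s := by ring
  have t4 : C * n ^ 2 / s ≤ (C / c ^ 2) * n ^ 2 / s := by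
    apply div_le_div_of_nonneg_right _ hs0.le
    apply mul_le_mul_of_nonneg_right _ (by positivity)
    rw [le_div_iff₀ (by positivity)]
    have : c ^ 2 ≤ 1 := pow_le_one₀ hc.le hc1
    nlinarith
  have t5 : (n : ℝ) + 4 * Real.sqrt n * Real.sqrt (8 * n / (|θ * β ^ v| * (β ^ n * (1 - β)) ^ 2))
      ≤ 13 * (C / c ^ 2) * n ^ 2 / s := by
    have : 13 * (C / c ^ 2) * n ^ 2 / s = (C / c ^ 2) * n ^ 2 / s + 12 * (C / c ^ 2) * n ^ 2 / s := by
      ring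
    rw [this]
    exact add_le_add (t1.trans t4) t3
  refine t5.trans ?_
  have t6 : (T ^ (-(1 / 4) : ℝ)) ^ 2 = 1 / Real.sqrt T := by
    have hT0 : 0 ≤ T := by linarith
    rw [← Real.rpow_natCast, ← Real.rpow_mul hT0, Real.sqrt_eq_rpow, one_div (T ^ (1 / 2 : ℝ)),
      ← Real.rpow_neg hT0]
    norm_num
  have t7 : 1 / s ≤ 1 / Real.sqrt T :=
    one_div_le_one_div_of_le (Real.sqrt_pos.2 (by linarith)) (Real.sqrt_le_sqrt hθT)
  have hD : 1 ≤ C / c ^ 2 := by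
    rw [le_div_iff₀ (by positivity)]
    have : c ^ 2 ≤ 1 := pow_le_one₀ hc.le hc1
    linarith
  calc 13 * (C / c ^ 2) * n ^ 2 / s = 13 * (C / c ^ 2) * n ^ 2 * (1 / s) := by ring
    _ ≤ 13 * (C / c ^ 2) * n ^ 2 * (1 / Real.sqrt T) := mul_le_mul_of_nonneg_left t7 (by positivity)
    _ ≤ 16 * (C / c ^ 2) ^ 2 * n ^ 2 * (1 / Real.sqrt T) := by
        apply mul_le_mul_of_nonneg_right _ (by positivity)
        apply mul_le_mul_of_nonneg_right _ (by positivity)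
        nlinarith
    _ = (4 * (C / c ^ 2) * n * T ^ (-(1 / 4) : ℝ)) ^ 2 := by
        rw [mul_pow _ (T ^ (-(1 / 4) : ℝ)) 2, t6]
        ring

/-- large frequencies -/
lemma large_part {C c θ β : ℝ} {n : ℕ} (hC : 1 ≤ C) (hc : 0 < c) (hc1 : c ≤ 1) (h0 : 0 < β)
    (h1 : β < 1) (hn : 1 ≤ n) (hCn : 1 ≤ C * n * (1 - β)) (hcn : c ≤ β ^ n)
    (T : ℝ) (hT : 1 ≤ T) (hθT : T ≤ |θ|) (hθ1 : |θ| * (1 - β) ≤ 1) (a x y : ℕ → ℂ) (X : ℝ)
    (hX : 0 ≤ X) (hx : ∀ v, v < n → ‖x v‖ ≤ X) :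
    ‖∑ u ∈ range n, ∑ v ∈ range n, ∑ j ∈ range n, a u * x v * y j * H θ β (u + v + j)‖
      ≤ n * X * (4 * (C / c ^ 2) * n * T ^ (-(1 / 4) : ℝ)) *
        (Real.sqrt (∑ u ∈ range n, ‖a u‖ ^ 2) * Real.sqrt (∑ j ∈ range n, ‖y j‖ ^ 2)) := by
  set κ : ℝ := 4 * (C / c ^ 2) * n * T ^ (-(1 / 4) : ℝ) with hκ
  have hκ0 : 0 ≤ κ := by positivity
  have hθ0 : 0 < |θ| := by linarith
  have e1 : ∑ u ∈ range n, ∑ v ∈ range n, ∑ j ∈ range n, a u * x v * y j * H θ β (u + v + j)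
      = ∑ v ∈ range n, x v * ((β ^ v : ℝ) : ℂ) * ∑ u ∈ range n, ∑ j ∈ range n,
        (a u * ((β ^ u : ℝ) : ℂ)) * (y j * ((β ^ j : ℝ) : ℂ)) * E ((θ * β ^ v) * β ^ (u + j)) := by
    rw [sum_comm]
    apply sum_congr rfl
    intro v _
    rw [mul_sum]
    apply sum_congr rfl
    intro u _
    rw [mul_sum]
    apply sum_congr rfl
    intro j _
    unfold H
    rw [show θ * β ^ v * β ^ (u + j) = θ * β ^ (u + v + j) by ring]
    push_cast
    ring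
  have e2 : ∀ v ∈ range n, ‖x v * ((β ^ v : ℝ) : ℂ) * ∑ u ∈ range n, ∑ j ∈ range n,
      (a u * ((β ^ u : ℝ) : ℂ)) * (y j * ((β ^ j : ℝ) : ℂ)) * E ((θ * β ^ v) * β ^ (u + j))‖
      ≤ X * (κ * (Real.sqrt (∑ u ∈ range n, ‖a u‖ ^ 2) * Real.sqrt (∑ j ∈ range n, ‖y j‖ ^ 2))) := by
    intro v hv
    have hv' := mem_range.1 hv
    have hβv : β ^ v ≤ 1 := pow_le_one₀ h0.le h1.le
    have hβv0 : 0 < β ^ v := by positivity
    have hne : θ * β ^ v ≠ 0 := mul_ne_zero (by rintro rfl; simp at hθ0) hβv0.ne'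
    have hle : |θ * β ^ v| * (1 - β) ≤ 1 := by
      rw [abs_mul, abs_of_pos hβv0]
      have : |θ| * β ^ v ≤ |θ| := mul_le_of_le_one_right hθ0.le hβv
      have hb : 0 ≤ 1 - β := by linarith
      exact (mul_le_mul_of_nonneg_right this hb).trans hθ1
    have hh := hankel h0 h1 hne hle n (fun u => a u * ((β ^ u : ℝ) : ℂ))
      (fun j => y j * ((β ^ j : ℝ) : ℂ))
    have hr := row_bound hC hc h0 h1 hn hCn hcn hc1 T hT hθT hθ1 v hv'
    have hsq : ∀ (f : ℕ → ℂ), ∑ u ∈ range n, ‖f u * ((β ^ u : ℝ) : ℂ)‖ ^ 2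
        ≤ ∑ u ∈ range n, ‖f u‖ ^ 2 := by
      intro f
      apply sum_le_sum
      intro u _
      rw [norm_mul, Complex.norm_real, Real.norm_eq_abs, abs_of_nonneg (by positivity)]
      apply pow_le_pow_left₀ (by positivity)
      exact mul_le_of_le_one_right (norm_nonneg _) (pow_le_one₀ h0.le h1.le)
    have hfin : ‖∑ u ∈ range n, ∑ j ∈ range n,
        (a u * ((β ^ u : ℝ) : ℂ)) * (y j * ((β ^ j : ℝ) : ℂ)) * E ((θ * β ^ v) * β ^ (u + j))‖
        ≤ κ * (Real.sqrt (∑ u ∈ range n, ‖a u‖ ^ 2) * Real.sqrt (∑ j ∈ range n, ‖y j‖ ^ 2)) := by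
      apply abs_le_of_sq_le_sq' _ (by positivity) |>.2
      refine hh.trans ?_
      rw [mul_pow κ, mul_pow (Real.sqrt _), Real.sq_sqrt (by positivity),
        Real.sq_sqrt (by positivity), ← mul_assoc]
      exact mul_le_mul (mul_le_mul hr (hsq a) (by positivity) (by positivity)) (hsq y)
        (by positivity) (by positivity)
    rw [norm_mul, norm_mul, Complex.norm_real, Real.norm_eq_abs, abs_of_pos hβv0]
    have : ‖x v‖ * β ^ v ≤ X := (mul_le_of_le_one_right (norm_nonneg _) hβv).trans (hx v hv')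
    exact mul_le_mul this hfin (norm_nonneg _) hX
  rw [e1]
  refine (norm_sum_le _ _).trans ((sum_le_sum e2).trans (le_of_eq ?_))
  rw [sum_const, card_range, nsmul_eq_mul]
  ring

end BILM

open BILM in
open Finset in
open Pool.Agent.Lib.MP391708.X.M4 in
theorem specBIL : SpecBIL := by
  intro C c hC hc hc1 β n h0 h1 hn hCn hcn ι Ψ θ g a x y A X Y ε T hA hX hY hε hT hθ hg ha hy hx hs
  have hn' : (1 : ℝ) ≤ n := by exact_mod_cast hn
  set κ : ℝ := 4 * (C / c ^ 2) * n * T ^ (-(1 / 4) : ℝ) with hκ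
  have hκ0 : 0 ≤ κ := by positivity
  have key : ∀ i ∈ Ψ, ‖g i * ∑ u ∈ range n, ∑ v ∈ range n, ∑ j ∈ range n,
      a i u * x i v * y i j * H (θ i) β (u + v + j)‖
      ≤ (2 + T) * (ε * X * n) * ((∑ u ∈ range n, ‖a i u‖) * ∑ j ∈ range n, ‖y i j‖)
        + n * X * κ * (Real.sqrt (∑ u ∈ range n, ‖a i u‖ ^ 2)
          * Real.sqrt (∑ j ∈ range n, ‖y i j‖ ^ 2)) := by
    intro i hi
    rw [norm_mul]
    have hgi := hg i hi
    have hb : ‖∑ u ∈ range n, ∑ v ∈ range n, ∑ j ∈ range n,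
        a i u * x i v * y i j * H (θ i) β (u + v + j)‖
        ≤ (2 + T) * (ε * X * n) * ((∑ u ∈ range n, ‖a i u‖) * ∑ j ∈ range n, ‖y i j‖)
        + n * X * κ * (Real.sqrt (∑ u ∈ range n, ‖a i u‖ ^ 2)
          * Real.sqrt (∑ j ∈ range n, ‖y i j‖ ^ 2)) := by
      rcases le_total |θ i| T with h | h
      · have := small_part (θ := θ i) h0 h1 n (a i) (x i) (y i) (ε * X * n) (by positivity)
          (hs i hi)
        refine this.trans ?_
        have e1 : (2 + |θ i|) * (ε * X * n) * ((∑ u ∈ range n, ‖a i u‖) * ∑ j ∈ range n, ‖y i j‖)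
            ≤ (2 + T) * (ε * X * n) * ((∑ u ∈ range n, ‖a i u‖) * ∑ j ∈ range n, ‖y i j‖) := by
          apply mul_le_mul_of_nonneg_right _ (by positivity)
          apply mul_le_mul_of_nonneg_right _ (by positivity)
          linarith
        have e2 : 0 ≤ n * X * κ * (Real.sqrt (∑ u ∈ range n, ‖a i u‖ ^ 2)
          * Real.sqrt (∑ j ∈ range n, ‖y i j‖ ^ 2)) := by positivity
        linarith
      · have := large_part hC hc hc1 h0 h1 hn hCn hcn T hT h (hθ i hi) (a i) (x i) (y i) X hX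
          (hx i hi)
        have e2 : 0 ≤ (2 + T) * (ε * X * n) * ((∑ u ∈ range n, ‖a i u‖) * ∑ j ∈ range n, ‖y i j‖) := by
          positivity
        linarith
    calc ‖g i‖ * _ ≤ 1 * _ := mul_le_mul_of_nonneg_right hgi (norm_nonneg _)
      _ ≤ _ := by rw [one_mul]; exact hb
  refine (sum_le_sum key).trans ?_
  rw [sum_add_distrib, ← mul_sum, ← mul_sum]
  -- first sum
  have s1 : ∑ i ∈ Ψ, (∑ u ∈ range n, ‖a i u‖) * ∑ j ∈ range n, ‖y i j‖ ≤ (n : ℝ) ^ 2 * (A * Y) := by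
    have e1 : ∑ i ∈ Ψ, (∑ u ∈ range n, ‖a i u‖) * ∑ j ∈ range n, ‖y i j‖
        = ∑ u ∈ range n, ∑ j ∈ range n, ∑ i ∈ Ψ, ‖a i u‖ * ‖y i j‖ := by
      simp_rw [sum_mul_sum]
      rw [sum_comm]
      apply sum_congr rfl
      intro u _
      rw [sum_comm]
    rw [e1]
    have e2 : ∀ u ∈ range n, ∀ j ∈ range n, ∑ i ∈ Ψ, ‖a i u‖ * ‖y i j‖ ≤ A * Y := by
      intro u hu j hj
      have e3 := Real.sum_mul_le_sqrt_mul_sqrt Ψ (fun i => ‖a i u‖) (fun i => ‖y i j‖)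
      refine e3.trans ?_
      have e4 : Real.sqrt (∑ i ∈ Ψ, ‖a i u‖ ^ 2) ≤ A := by
        apply Real.sqrt_le_iff.2
        exact ⟨hA, ha u (mem_range.1 hu)⟩
      have e5 : Real.sqrt (∑ i ∈ Ψ, ‖y i j‖ ^ 2) ≤ Y := by
        apply Real.sqrt_le_iff.2
        exact ⟨hY, hy j (mem_range.1 hj)⟩
      exact mul_le_mul e4 e5 (Real.sqrt_nonneg _) hA
    calc ∑ u ∈ range n, ∑ j ∈ range n, ∑ i ∈ Ψ, ‖a i u‖ * ‖y i j‖
        ≤ ∑ u ∈ range n, ∑ j ∈ range n, A * Y :=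
          sum_le_sum fun u hu => sum_le_sum fun j hj => e2 u hu j hj
      _ = (n : ℝ) ^ 2 * (A * Y) := by
          rw [sum_const, sum_const, card_range, nsmul_eq_mul, nsmul_eq_mul]
          ring
  -- second sum
  have s2 : ∑ i ∈ Ψ, Real.sqrt (∑ u ∈ range n, ‖a i u‖ ^ 2) * Real.sqrt (∑ j ∈ range n, ‖y i j‖ ^ 2)
      ≤ n * (A * Y) := by
    have e3 := Real.sum_mul_le_sqrt_mul_sqrt Ψ
      (fun i => Real.sqrt (∑ u ∈ range n, ‖a i u‖ ^ 2))
      (fun i => Real.sqrt (∑ j ∈ range n, ‖y i j‖ ^ 2))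
    refine e3.trans ?_
    have e4 : Real.sqrt (∑ i ∈ Ψ, Real.sqrt (∑ u ∈ range n, ‖a i u‖ ^ 2) ^ 2)
        ≤ Real.sqrt n * A := by
      apply Real.sqrt_le_iff.2
      refine ⟨by positivity, ?_⟩
      rw [mul_pow, Real.sq_sqrt (by positivity)]
      calc ∑ i ∈ Ψ, Real.sqrt (∑ u ∈ range n, ‖a i u‖ ^ 2) ^ 2
          = ∑ u ∈ range n, ∑ i ∈ Ψ, ‖a i u‖ ^ 2 := by
            rw [sum_comm]
            apply sum_congr rfl
            intro i _
            rw [Real.sq_sqrt (by positivity)]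
        _ ≤ ∑ u ∈ range n, A ^ 2 := sum_le_sum fun u hu => ha u (mem_range.1 hu)
        _ = n * A ^ 2 := by rw [sum_const, card_range, nsmul_eq_mul]
    have e5 : Real.sqrt (∑ i ∈ Ψ, Real.sqrt (∑ j ∈ range n, ‖y i j‖ ^ 2) ^ 2)
        ≤ Real.sqrt n * Y := by
      apply Real.sqrt_le_iff.2
      refine ⟨by positivity, ?_⟩
      rw [mul_pow, Real.sq_sqrt (by positivity)]
      calc ∑ i ∈ Ψ, Real.sqrt (∑ j ∈ range n, ‖y i j‖ ^ 2) ^ 2
          = ∑ j ∈ range n, ∑ i ∈ Ψ, ‖y i j‖ ^ 2 := by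
            rw [sum_comm]
            apply sum_congr rfl
            intro i _
            rw [Real.sq_sqrt (by positivity)]
        _ ≤ ∑ j ∈ range n, Y ^ 2 := sum_le_sum fun j hj => hy j (mem_range.1 hj)
        _ = n * Y ^ 2 := by rw [sum_const, card_range, nsmul_eq_mul]
    calc Real.sqrt (∑ i ∈ Ψ, Real.sqrt (∑ u ∈ range n, ‖a i u‖ ^ 2) ^ 2)
        * Real.sqrt (∑ i ∈ Ψ, Real.sqrt (∑ j ∈ range n, ‖y i j‖ ^ 2) ^ 2)
        ≤ (Real.sqrt n * A) * (Real.sqrt n * Y) :=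
          mul_le_mul e4 e5 (Real.sqrt_nonneg _) (by positivity)
      _ = (Real.sqrt n * Real.sqrt n) * (A * Y) := by ring
      _ = n * (A * Y) := by rw [Real.mul_self_sqrt (by positivity)]
  have f1 : (2 + T) * (ε * X * n) * ∑ i ∈ Ψ, (∑ u ∈ range n, ‖a i u‖) * ∑ j ∈ range n, ‖y i j‖
      ≤ 3 * T * (ε * X * n) * ((n : ℝ) ^ 2 * (A * Y)) := by
    apply mul_le_mul _ s1 (by positivity) (by positivity)
    apply mul_le_mul_of_nonneg_right _ (by positivity)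
    linarith
  have f2 : n * X * κ * ∑ i ∈ Ψ, Real.sqrt (∑ u ∈ range n, ‖a i u‖ ^ 2)
      * Real.sqrt (∑ j ∈ range n, ‖y i j‖ ^ 2) ≤ n * X * κ * (n * (A * Y)) :=
    mul_le_mul_of_nonneg_left s2 (by positivity)
  refine (add_le_add f1 f2).trans ?_
  rw [hκ]
  have hnn : 0 ≤ (C / c ^ 2) * T ^ (-(1 / 4) : ℝ) * n ^ 3 * (A * X * Y) := by positivity
  nlinarith

end Pool.Agent.Lib.MP391708.XM
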