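import Pool.Agent.Lib.MP_391708_nt.X.SpecMT

/-!
# THEOREM X (MP_391708), part MT, module BLX (helper21): the nontrivial characters contribute little
-/

set_option autoImplicit false

namespace Pool.Agent.Lib.MP391708.XM

open Finset Filter Topology Pool.Agent.Lib.MP391708.MR
open Pool.Agent.Lib.MP391708.X
open Pool.Agent.Lib.MP391708.XL (gg VQ VS PS)
open scoped ComplexConjugate

namespace BLXM

/-! ### Sums over intervals -/

theorem sum_lt (c c' m : ℕ) (F : ℕ → ℂ) :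
    ∑ v ∈ (Icc c c').filter (fun v => v < c + m), F v =
      ∑ v ∈ range m, if c + v ∈ Icc c c' then F (c + v) else 0 := by
  rw [← Finset.sum_filter]
  refine Finset.sum_nbij' (fun v => v - c) (fun v => c + v) ?_ ?_ ?_ ?_ ?_
  · intro v hv
    simp only [mem_filter, mem_Icc, mem_range] at hv ⊢
    omega
  · intro v hv
    simp only [mem_filter, mem_Icc, mem_range] at hv ⊢
    omega
  · intro v hv
    simp only [mem_filter, mem_Icc] at hv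
    omega
  · intro v hv
    omega
  · intro v hv
    simp only [mem_filter, mem_Icc] at hv
    congr 1
    omega

theorem sum_all (c c' n : ℕ) (h : (Icc c c').card ≤ n) (F : ℕ → ℂ) :
    ∑ v ∈ Icc c c', F v = ∑ v ∈ range n, if c + v ∈ Icc c c' then F (c + v) else 0 := by
  rw [← sum_lt]
  congr 1
  ext v
  rw [Nat.card_Icc] at h
  simp only [mem_filter, mem_Icc]
  omega

/-! ### The phase -/

theorem rad_add (p : Par) (y π : Gi) (s s' : ℕ) (hh : 0 < p.h) :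
    rad p y π (s + s') = rad p y π s * Real.exp (s' / (2 * p.h)) := by
  unfold rad
  have e1 : (nm y : ℝ) * nm π * Real.exp (((s + s' : ℕ) : ℝ) / p.h) =
      ((nm y : ℝ) * nm π * Real.exp (s / p.h)) * Real.exp (s' / (2 * p.h)) ^ 2 := by
    rw [← Real.exp_nat_mul, mul_assoc _ (Real.exp _), ← Real.exp_add]
    congr 2
    push_cast
    field_simp
  rw [e1, Real.sqrt_mul (by positivity), Real.sqrt_sq (Real.exp_pos _).le]

theorem kernel (p : Par) (y π : Gi) (s s' : ℕ) (hh : 0 < p.h) (k : ℤ) (b : ℕ) :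
    (((1 / rad p y π (s + s') : ℝ) : ℂ) *
      Complex.exp (-(Complex.I * k * b / (rad p y π (s + s') : ℝ)))) =
    ((1 / rad p y π s : ℝ) : ℂ) *
      M4.H (k * b / rad p y π s) (Real.exp (-(1 / (2 * p.h)))) s' := by
  have e0 : 1 / rad p y π (s + s') = 1 / rad p y π s * Real.exp (-(1 / (2 * p.h))) ^ s' := by
    rw [rad_add p y π s s' hh, ← Real.exp_nat_mul, one_div, mul_inv, ← Real.exp_neg, one_div]
    congr 2
    ring
  unfold M4.H M4.E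
  have e1 : -(Complex.I * k * b / (rad p y π (s + s') : ℝ)) = Complex.I *
      ((-(k * b / rad p y π s * Real.exp (-(1 / (2 * p.h))) ^ s') : ℝ) : ℂ) := by
    have e2 : (-(k * b / rad p y π s * Real.exp (-(1 / (2 * p.h))) ^ s') : ℝ) =
        -(k * b * (1 / rad p y π (s + s'))) := by
      rw [e0]
      ring
    rw [e2]
    push_cast
    ring
  rw [e1, e0]
  push_cast
  ring

/-! ### The trilinear sum -/

/-- extension by zero, shifted -/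
noncomputable def xt (I : Finset ℕ) (c : ℕ) (F : ℕ → ℂ) (v : ℕ) : ℂ :=
  if c + v ∈ I then F (c + v) else 0

theorem xt_mul (I : Finset ℕ) (c : ℕ) (F : ℕ → ℂ) (v : ℕ) (z : ℂ) :
    (if c + v ∈ I then F (c + v) * z else 0) = xt I c F v * z := by
  unfold xt
  split_ifs
  · rfl
  · rw [zero_mul]

theorem TT_eq (p : Par) (y π : Gi) (b : ℕ) (i : Ix) (hh : 0 < p.h) (u₀ u₁ a₀ a₁ b₀ b₁ n : ℕ)
    (h1 : I1 p y = Icc u₀ u₁) (h4 : I4 p = Icc a₀ a₁) (h2 : I2 p = Icc b₀ b₁)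
    (c1 : (I1 p y).card ≤ n) (c4 : (I4 p).card ≤ n) (c2 : (I2 p).card ≤ n) :
    TT p y π b i = ((1 / rad p y π (u₀ + a₀ + b₀) : ℝ) : ℂ) *
      ∑ u ∈ range n, ∑ v ∈ range n, ∑ j ∈ range n,
        xt (I1 p y) u₀ (S1 p y i) u * xt (I4 p) a₀ (S4 p i) v * xt (I2 p) b₀ (S2 p i) j *
          M4.H (i.2.2 * b / rad p y π (u₀ + a₀ + b₀)) (Real.exp (-(1 / (2 * p.h)))) (u + v + j) := by
  unfold TT
  rw [h1] at c1 ⊢
  rw [h4] at c4 ⊢
  rw [h2] at c2 ⊢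
  rw [sum_all u₀ u₁ n c1, Finset.mul_sum]
  refine Finset.sum_congr rfl fun u _ => ?_
  rw [Finset.mul_sum]
  by_cases hu : u₀ + u ∈ Icc u₀ u₁
  · rw [if_pos hu, sum_all a₀ a₁ n c4]
    refine Finset.sum_congr rfl fun v _ => ?_
    rw [Finset.mul_sum]
    by_cases hv : a₀ + v ∈ Icc a₀ a₁
    · rw [if_pos hv, sum_all b₀ b₁ n c2]
      refine Finset.sum_congr rfl fun j _ => ?_
      by_cases hj : b₀ + j ∈ Icc b₀ b₁
      · rw [if_pos hj]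
        have e0 : u₀ + u + (a₀ + v) + (b₀ + j) = (u₀ + a₀ + b₀) + (u + v + j) := by omega
        rw [e0, kernel p y π _ _ hh]
        unfold xt
        rw [if_pos hu, if_pos hv, if_pos hj]
        ring
      · rw [if_neg hj]
        have : xt (Icc b₀ b₁) b₀ (S2 p i) j = 0 := if_neg hj
        rw [this]
        ring
    · rw [if_neg hv]
      have : xt (Icc a₀ a₁) a₀ (S4 p i) v = 0 := if_neg hv
      rw [this]
      simp
  · rw [if_neg hu]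
    have : xt (Icc u₀ u₁) u₀ (S1 p y i) u = 0 := if_neg hu
    rw [this]
    simp

theorem xt_sq {Ψ U : Finset Ix} (hΨ : Ψ ⊆ U) (I : Finset ℕ) (c : ℕ) (F : Ix → ℕ → ℂ) {A : ℝ}
    (h : ∀ v ∈ I, ∑ i ∈ U, ‖F i v‖ ^ 2 ≤ A ^ 2) (v : ℕ) :
    ∑ i ∈ Ψ, ‖xt I c (F i) v‖ ^ 2 ≤ A ^ 2 := by
  unfold xt
  by_cases hv : c + v ∈ I
  · simp only [if_pos hv]
    exact (Finset.sum_le_sum_of_subset_of_nonneg hΨ fun i _ _ => sq_nonneg _).trans (h _ hv)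
  · simp only [if_neg hv]
    simp only [norm_zero]
    refine (Finset.sum_nonpos fun i _ => by norm_num).trans (sq_nonneg A)

theorem xt_le {U : Finset Ix} (I : Finset ℕ) (c : ℕ) (F : Ix → ℕ → ℂ) {A : ℝ} (hA : 0 ≤ A)
    (h : ∀ v ∈ I, ∑ i ∈ U, ‖F i v‖ ^ 2 ≤ A ^ 2) (v : ℕ) (i : Ix) (hi : i ∈ U) :
    ‖xt I c (F i) v‖ ≤ A := by
  unfold xt
  by_cases hv : c + v ∈ I
  · rw [if_pos hv]
    have h1 := (Finset.single_le_sum (f := fun i => ‖F i (c + v)‖ ^ 2) (fun _ _ => sq_nonneg _)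
      hi).trans (h _ hv)
    exact abs_le_of_sq_le_sq' h1 hA |>.2
  · rw [if_neg hv, norm_zero]
    exact hA

theorem VQ_nonneg (q : ℕ) (b : ℤ) (S : Finset ℕ) : 0 ≤ VQ q b S := by
  unfold VQ
  refine Finset.prod_nonneg fun p _ => ?_
  unfold XL.gb
  rw [sub_nonneg]
  refine div_le_one_of_le₀ ?_ (Nat.cast_nonneg _)
  exact_mod_cast (Finset.card_filter_le _ _).trans (by rw [card_range])

/-! ### Numerical facts -/

theorem beta_facts {h : ℝ} (hh : 100 ≤ h) :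
    Real.exp (-(1 / (2 * h))) < 1 ∧ 1 - Real.exp (-(1 / (2 * h))) ≤ 1 / (2 * h) ∧
    1 ≤ 8 * (⌊h⌋₊ : ℝ) * (1 - Real.exp (-(1 / (2 * h)))) ∧
    1 / 2 ≤ Real.exp (-(1 / (2 * h))) ^ ⌊h⌋₊ ∧ h / 2 ≤ (⌊h⌋₊ : ℝ) ∧ (⌊h⌋₊ : ℝ) ≤ h := by
  have h0 : 0 < h := by linarith
  set t : ℝ := 1 / (2 * h) with ht
  have ht0 : 0 < t := by positivity
  have ht1 : t * (2 * h) = 1 := by
    rw [ht]
    field_simp
  have hn1 : h - 1 < (⌊h⌋₊ : ℝ) := Nat.sub_one_lt_floor h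
  have hn2 : (⌊h⌋₊ : ℝ) ≤ h := Nat.floor_le h0.le
  have e1 : Real.exp (-t) < 1 := by
    rw [Real.exp_lt_one_iff]
    linarith
  have e2 : 1 - t ≤ Real.exp (-t) := by
    have := Real.add_one_le_exp (-t)
    linarith
  have e3 : Real.exp (-t) ≤ 1 - t / 2 := by
    have h1 := Real.add_one_le_exp t
    have h2 : Real.exp (-t) * Real.exp t = 1 := by
      rw [← Real.exp_add]
      simp
    have h3 : Real.exp (-t) * (1 + t) ≤ 1 := by
      rw [← h2]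
      exact mul_le_mul_of_nonneg_left (by linarith) (Real.exp_pos _).le
    have ht2 : t ≤ 1 := by
      nlinarith
    nlinarith [Real.exp_pos (-t)]
  refine ⟨e1, by linarith, ?_, ?_, by linarith, hn2⟩
  · have h1 : t / 2 ≤ 1 - Real.exp (-t) := by linarith
    have h2 : (0 : ℝ) ≤ 8 * (⌊h⌋₊ : ℝ) := by positivity
    have h3 : 8 * (⌊h⌋₊ : ℝ) * (t / 2) ≤ 8 * (⌊h⌋₊ : ℝ) * (1 - Real.exp (-t)) :=
      mul_le_mul_of_nonneg_left h1 h2
    refine le_trans ?_ h3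
    have h4 : (h - 1) * t ≤ (⌊h⌋₊ : ℝ) * t := mul_le_mul_of_nonneg_right hn1.le ht0.le
    nlinarith
  · rw [← Real.exp_nat_mul]
    have h1 : -(1 / 2 : ℝ) ≤ (⌊h⌋₊ : ℝ) * -t := by
      have h4 : (⌊h⌋₊ : ℝ) * t ≤ h * t := mul_le_mul_of_nonneg_right hn2 ht0.le
      nlinarith
    have h2 := Real.add_one_le_exp (-(1 / 2 : ℝ))
    have h3 := Real.exp_le_exp.2 h1
    linarith

theorem T0_exists {D δ : ℝ} (hδ : 0 < δ) : ∃ T₀ : ℝ, 1 ≤ T₀ ∧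
    D * T₀ ^ (-(1 / 4) : ℝ) ≤ δ := by
  set z : ℝ := max 1 (D / δ) with hz
  have hz1 : 1 ≤ z := le_max_left _ _
  have hz0 : 0 < z := by linarith
  refine ⟨z ^ 4, one_le_pow₀ hz1, ?_⟩
  have h1 : (z ^ 4) ^ (-(1 / 4) : ℝ) = z⁻¹ := by
    rw [← Real.rpow_natCast z 4, ← Real.rpow_mul hz0.le]
    norm_num
    rw [Real.rpow_neg_one]
  rw [h1]
  have h2 : D / δ ≤ z := le_max_right _ _
  rw [div_le_iff₀ hδ] at h2
  rw [← div_eq_mul_inv, div_le_iff₀ hz0]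
  linarith

/-! ### The bound for one `π` -/

theorem core (hBIL : SpecBIL) (p : Par) (U Ψ : Finset Ix) (b : ℕ) (y π : Gi)
    (hΨ : ∀ i ∈ Ψ, i ∈ U ∧ i ≠ ix1) (hs : Siz p U b y) (hπ : π ∈ GP p.P (2 * p.P)) (C3 : ℝ)
    (hC3 : 0 < C3)
    (h1 : ∀ u ∈ I1 p y, ∑ i ∈ U, ‖S1 p y i u‖ ^ 2 ≤ (C3 * (p.K / nm y) / (p.h * Real.log p.N)) ^ 2)
    (h4 : ∀ v ∈ I4 p, ∑ i ∈ U, ‖S4 p i v‖ ^ 2 ≤ (C3 * p.M4 / (p.h * Real.log p.N)) ^ 2)
    (h2 : ∀ v ∈ I2 p, ∑ i ∈ U, ‖S2 p i v‖ ^ 2 ≤ (C3 * p.M2 / (p.h * Real.log p.N)) ^ 2)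
    (δ' : ℝ) (hδ' : 0 ≤ δ')
    (hPSM : ∀ i ∈ U, i ≠ ix1 → ∀ m : ℕ,
      ‖∑ v ∈ (I4 p).filter (fun v => v < m), S4 p i v‖ ≤ δ' * p.M4 / Real.log p.N)
    (hF : ∀ i ∈ U, |(i.2.2 : ℝ)| * b ≤ 1 / 4 * p.h * p.N) (hVS : 0 < VS b (PS p.w))
    (hG : ∀ i ∈ Ψ, ‖GG p i b‖ ≤ VS b (PS p.w)) (T₀ : ℝ) (hT : 1 ≤ T₀) :
    ∑ i ∈ Ψ, ‖GG p i b * TT p y π b i‖ ≤
      8 * C3 ^ 3 * (3 * T₀ * (2 * δ' / C3) + 256 * T₀ ^ (-(1 / 4) : ℝ)) *
        (VS b (PS p.w) * Z0 p y) := by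
  have hh := hs.h1
  have hh0 : 0 < p.h := by linarith
  have hN0 : 0 < p.N := by linarith [hs.N1]
  have hl0 : 0 < Real.log p.N := by linarith [hs.l1]
  have hK0 : 0 < p.K / nm y := lt_of_lt_of_le (Real.rpow_pos_of_pos hN0 _) hs.K1
  have hM4 : 0 < p.M4 := lt_of_lt_of_le (Real.rpow_pos_of_pos hN0 _) hs.M41
  have hM2 : 0 < p.M2 := lt_of_lt_of_le (Real.rpow_pos_of_pos hN0 _) hs.M21
  obtain ⟨hβ1, hβ2, hβ3, hβ4, hn1, hn2⟩ := beta_facts hh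
  have hmem : ∀ M : ℝ, 0 < M → ⌊p.h * Real.log M⌋₊ ∈ VV p.h M (2 * M) := by
    intro M hM
    unfold VV
    rw [mem_Icc]
    exact ⟨le_rfl, Nat.floor_le_floor (mul_le_mul_of_nonneg_left
      (Real.log_le_log hM (by linarith)) hh0.le)⟩
  have c1 : (I1 p y).card ≤ ⌊p.h⌋₊ := Nat.le_floor hs.c1
  have c4 : (I4 p).card ≤ ⌊p.h⌋₊ := Nat.le_floor hs.c4
  have c2 : (I2 p).card ≤ ⌊p.h⌋₊ := Nat.le_floor hs.c2
  obtain ⟨hr1, -⟩ := hs.ra π hπ _ (hmem _ hK0) _ (hmem _ hM4) _ (hmem _ hM2)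
  have hTT := fun i => TT_eq p y π b i hh0 _ _ _ _ _ _ ⌊p.h⌋₊ (rfl : I1 p y = Icc _ _)
    (rfl : I4 p = Icc _ _) (rfl : I2 p = Icc _ _) c1 c4 c2
  obtain ⟨r₀, hr₀⟩ : ∃ r₀, r₀ = rad p y π (⌊p.h * Real.log (p.K / nm y)⌋₊ +
    ⌊p.h * Real.log p.M4⌋₊ + ⌊p.h * Real.log p.M2⌋₊) := ⟨_, rfl⟩
  rw [← hr₀] at hr1
  simp only [← hr₀] at hTT
  have hr0 : 0 < r₀ := by linarith
  obtain ⟨n, hn⟩ : ∃ n, n = ⌊p.h⌋₊ := ⟨_, rfl⟩
  rw [← hn] at hβ3 hβ4 hn1 hn2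
  simp only [← hn] at hTT
  obtain ⟨β, hβ⟩ : ∃ β, β = Real.exp (-(1 / (2 * p.h))) := ⟨_, rfl⟩
  rw [← hβ] at hβ1 hβ2 hβ3 hβ4
  simp only [← hβ] at hTT
  have hβ0 : 0 < β := by
    rw [hβ]
    exact Real.exp_pos _
  have hn0 : 1 ≤ n := by
    have h5 : (1 : ℝ) ≤ n := by linarith
    exact_mod_cast h5
  have hΨU : Ψ ⊆ U := fun i hi => (hΨ i hi).1
  have hB := hBIL 8 (1 / 2) (by norm_num) (by norm_num) (by norm_num) β n hβ0 hβ1 hn0 hβ3 hβ4 Ix Ψ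
    (fun i => i.2.2 * b / r₀) (fun i => GG p i b / (VS b (PS p.w) : ℝ))
    (fun i => xt (I1 p y) ⌊p.h * Real.log (p.K / nm y)⌋₊ (S1 p y i))
    (fun i => xt (I4 p) ⌊p.h * Real.log p.M4⌋₊ (S4 p i))
    (fun i => xt (I2 p) ⌊p.h * Real.log p.M2⌋₊ (S2 p i))
    (C3 * (p.K / nm y) / (p.h * Real.log p.N)) (C3 * p.M4 / (p.h * Real.log p.N))
    (C3 * p.M2 / (p.h * Real.log p.N)) (2 * δ' / C3) T₀ (by positivity) (by positivity)
    (by positivity) (by positivity) hT ?_ ?_ ?_ ?_ ?_ ?_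
  · have hT0 : 0 ≤ T₀ ^ (-(1 / 4) : ℝ) := Real.rpow_nonneg (by linarith) _
    have e8 : (8 : ℝ) * (8 / (1 / 2) ^ 2) = 256 := by norm_num
    rw [e8] at hB
    have hκ : 0 ≤ 3 * T₀ * (2 * δ' / C3) + 256 * T₀ ^ (-(1 / 4) : ℝ) := by positivity
    have hstep : ∑ i ∈ Ψ, ‖GG p i b * TT p y π b i‖ = VS b (PS p.w) / r₀ *
        ∑ i ∈ Ψ, ‖GG p i b / (VS b (PS p.w) : ℝ) * ∑ u ∈ range n, ∑ v ∈ range n, ∑ j ∈ range n,
          xt (I1 p y) ⌊p.h * Real.log (p.K / nm y)⌋₊ (S1 p y i) u *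
          xt (I4 p) ⌊p.h * Real.log p.M4⌋₊ (S4 p i) v *
          xt (I2 p) ⌊p.h * Real.log p.M2⌋₊ (S2 p i) j *
            M4.H (i.2.2 * b / r₀) β (u + v + j)‖ := by
      rw [Finset.mul_sum]
      refine Finset.sum_congr rfl fun i _ => ?_
      rw [hTT i, norm_mul, norm_mul, norm_mul, norm_div, Complex.norm_real, Complex.norm_real,
        Real.norm_eq_abs, Real.norm_eq_abs, abs_of_pos hVS, abs_of_pos (by positivity : 0 < 1 / r₀)]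
      field_simp
    rw [hstep]
    refine (mul_le_mul_of_nonneg_left hB (by positivity)).trans ?_
    have hn3 : (n : ℝ) ^ 3 ≤ p.h ^ 3 := pow_le_pow_left₀ (Nat.cast_nonneg _) hn2 3
    have hinv : VS b (PS p.w) / r₀ ≤ VS b (PS p.w) * (8 / p.N) := by
      rw [div_eq_mul_inv]
      refine mul_le_mul_of_nonneg_left ?_ hVS.le
      rw [← one_div, div_le_div_iff₀ hr0 hN0]
      linarith
    calc _ ≤ VS b (PS p.w) * (8 / p.N) *
          ((3 * T₀ * (2 * δ' / C3) + 256 * T₀ ^ (-(1 / 4) : ℝ)) * p.h ^ 3 *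
            (C3 * (p.K / nm y) / (p.h * Real.log p.N) * (C3 * p.M4 / (p.h * Real.log p.N)) *
              (C3 * p.M2 / (p.h * Real.log p.N)))) := by
          refine mul_le_mul hinv ?_ (by positivity) (by positivity)
          gcongr
      _ = _ := by
          unfold Z0
          field_simp
  · intro i hi
    have hk := hF i (hΨU hi)
    rw [abs_div, abs_mul, Nat.abs_cast, abs_of_pos hr0]
    have h5 : |(i.2.2 : ℝ)| * b / r₀ ≤ 1 / 4 * p.h * p.N / (p.N / 8) :=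
      div_le_div₀ (by positivity) hk (by positivity) hr1
    have h6 : 1 / 4 * p.h * p.N / (p.N / 8) = 2 * p.h := by
      field_simp
      norm_num
    rw [h6] at h5
    refine (mul_le_mul h5 hβ2 (by linarith) (by positivity)).trans ?_
    rw [mul_one_div_cancel]
    positivity
  · intro i hi
    rw [norm_div, Complex.norm_real, Real.norm_eq_abs, abs_of_pos hVS]
    exact div_le_one_of_le₀ (hG i hi) hVS.le
  · intro u _
    exact xt_sq hΨU _ _ _ h1 u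
  · intro u _
    exact xt_sq hΨU _ _ _ h2 u
  · intro i hi v _
    exact xt_le _ _ _ (by positivity) h4 v i (hΨU hi)
  · intro i hi m _
    have h5 := hPSM i (hΨU hi) (hΨ i hi).2 (⌊p.h * Real.log p.M4⌋₊ + m)
    have h6 : ∑ v ∈ (I4 p).filter (fun v => v < ⌊p.h * Real.log p.M4⌋₊ + m), S4 p i v =
        ∑ v ∈ range m, xt (I4 p) ⌊p.h * Real.log p.M4⌋₊ (S4 p i) v := by
      unfold I4 VV
      rw [sum_lt]
      rfl
    rw [h6] at h5
    refine h5.trans ?_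
    have e1 : 2 * δ' / C3 * (C3 * p.M4 / (p.h * Real.log p.N)) * n =
        δ' * p.M4 / Real.log p.N * (2 * n / p.h) := by
      field_simp
    rw [e1]
    refine le_mul_of_one_le_right (by positivity) ?_
    rw [le_div_iff₀ hh0]
    linarith

end BLXM

open BLXM

open scoped Classical in
theorem specBLX (hBIL : SpecBIL) (hCE3 : SpecCE3) (hPSM : SpecPSM) (hSIZ : SpecSIZ)
    (hFRQ : SpecFRQ) (hLSM : XL.SpecLSM) : SpecBLX := by
  intro δ hδ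
  obtain ⟨C3, hC3, hce⟩ := hCE3
  obtain ⟨-, -, -, hLC, -, c0, hc0, hLE⟩ := hLSM
  obtain ⟨T₀, hT1, hT2⟩ := T0_exists (D := 2048 * C3 ^ 3) (δ := δ / 2) (by positivity)
  have hT0 : 0 < T₀ := by linarith
  obtain ⟨δ', hδ'⟩ : ∃ δ' : ℝ, δ' = δ / (96 * T₀ * C3 ^ 2) := ⟨_, rfl⟩
  have hδ0 : 0 < δ' := by
    rw [hδ']
    positivity
  refine ((((hce.and (hPSM δ' hδ0)).and hSIZ).and (hFRQ (1 / 4) (by norm_num))).and EV.uok).mono ?_
  rintro p B U b y ⟨⟨⟨⟨⟨h1, h4, h2⟩, h3⟩, hs⟩, hf⟩, -, hU⟩ π hπ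
  have hw := hs.w1
  have hVS : 0 < VS b (PS p.w) := (hLE b p.w hw).2.1
  have hN0 : 0 < p.N := by linarith [hs.N1]
  have hl0 : 0 < Real.log p.N := by linarith [hs.l1]
  have hK0 : 0 < p.K / nm y := lt_of_lt_of_le (Real.rpow_pos_of_pos hN0 _) hs.K1
  have hM4 : 0 < p.M4 := lt_of_lt_of_le (Real.rpow_pos_of_pos hN0 _) hs.M41
  have hM2 : 0 < p.M2 := lt_of_lt_of_le (Real.rpow_pos_of_pos hN0 _) hs.M21
  have hZ : 0 ≤ Z0 p y := by
    unfold Z0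
    positivity
  have key := core hBIL p U (U.filter (fun i => i ≠ ix1)) b y π
    (fun i hi => mem_filter.1 hi) hs hπ C3 hC3 h1 h4 h2 δ' hδ0.le h3 (fun i hi => (hf i hi).1) hVS
    (fun i hi => by
      obtain ⟨hi1, hi2⟩ := mem_filter.1 hi
      obtain ⟨g1, g2, -, -⟩ := hU i hi1
      have h5 := (hLC i.1 i.2.1 b p.w (by omega) (by linarith) g2).1
      unfold GG
      rw [norm_mul, Complex.norm_real, Real.norm_eq_abs, abs_of_nonneg (VQ_nonneg _ _ _), mul_comm]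
      exact h5) T₀ hT1
  refine key.trans ?_
  rw [mul_assoc δ]
  refine mul_le_mul_of_nonneg_right ?_ (mul_nonneg hVS.le hZ)
  have e1 : 8 * C3 ^ 3 * (3 * T₀ * (2 * δ' / C3) + 256 * T₀ ^ (-(1 / 4) : ℝ)) =
      48 * T₀ * C3 ^ 2 * δ' + 2048 * C3 ^ 3 * T₀ ^ (-(1 / 4) : ℝ) := by
    field_simp
    ring
  have e2 : 48 * T₀ * C3 ^ 2 * δ' = δ / 2 := by
    rw [hδ']
    field_simp
    norm_num
  rw [e1, e2]
  linarith

end Pool.Agent.Lib.MP391708.XM
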