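import Pool.Agent.Lib.MP_391708_nt.X.SpecMT

/-!
# THEOREM X (MP_391708), part MT, module CCB: the coefficients of the model
-/

set_option autoImplicit false

namespace Pool.Agent.Lib.MP391708.XM

open Finset Filter Topology Pool.Agent.Lib.MP391708.MR
open Pool.Agent.Lib.MP391708.X
open Pool.Agent.Lib.MP391708.XL (gg VQ VS PS)
open scoped ComplexConjugate

namespace CCBM

lemma ev_pos : EV (fun p _ _ _ _ => 0 < p.h ∧ 0 < Real.log p.N ∧ 0 ≤ p.M4 ∧ 0 ≤ p.M2) := by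
  intro cw aU aQ aF _ _ _ _
  refine ⟨0, fun ch _ => ⟨0, fun cP _ => ⟨0, fun cT _ => ⟨0, fun cB _ => ?_⟩⟩⟩⟩
  filter_upwards [eventually_gt_atTop (1 : ℝ)] with N hN B U b y _
  have hl : 0 < Real.log N := Real.log_pos hN
  refine ⟨Real.rpow_pos_of_pos hl _, hl, Real.sqrt_nonneg _, ?_⟩
  exact div_nonneg (mul_nonneg (Real.sqrt_nonneg _) (Real.rpow_nonneg hl.le _))
    (mul_nonneg (by norm_num) (Real.rpow_nonneg hl.le _))

lemma cs {ι : Type} (U : Finset ι) (f g : ι → ℝ) {A B : ℝ} (hA : 0 ≤ A) (hB : 0 ≤ B)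
    (hf : ∑ i ∈ U, f i ^ 2 ≤ A ^ 2) (hg : ∑ i ∈ U, g i ^ 2 ≤ B ^ 2) :
    ∑ i ∈ U, f i * g i ≤ A * B := by
  have h1 : (∑ i ∈ U, f i * g i) ^ 2 ≤ (A * B) ^ 2 := by
    rw [mul_pow]
    exact (sum_mul_sq_le_sq_mul_sq U f g).trans
      (mul_le_mul hf hg (sum_nonneg fun i _ => sq_nonneg _) (sq_nonneg _))
  exact (le_abs_self _).trans (abs_le_of_sq_le_sq h1 (mul_nonneg hA hB))

lemma RR_ge {r h e V : ℝ} (hh : 0 < h) (he : 0 < e) (hV : 0 < V)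
    (hr : |r * h / (Real.pi * e * V) - 1| ≤ 1 / 2) : 1 * (e * V) / h ≤ r := by
  have h1 := (abs_le.1 hr).1
  have hpi : 3 < Real.pi := Real.pi_gt_three
  have h2 : 1 / 2 ≤ r * h / (Real.pi * e * V) := by linarith
  rw [le_div_iff₀ (by positivity)] at h2
  rw [div_le_iff₀ hh]
  have h3 : 0 < e * V := mul_pos he hV
  nlinarith

end CCBM

/-- **Module CCB**. -/
theorem specCCB (hCE3 : SpecCE3) (hRRA : SpecRRA) : SpecCCB := by
  obtain ⟨C, hC, h1⟩ := hCE3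
  refine ⟨C ^ 2, by positivity, ?_⟩
  refine ((h1.and (hRRA (1 / 2) (by norm_num))).and CCBM.ev_pos).mono ?_
  rintro p B U b y ⟨⟨⟨-, h4, h2⟩, hVP, -, hRR⟩, hh, hl, hM4, hM2⟩ v4 hv4 v2 hv2
  have hA : 0 ≤ C * p.M4 / (p.h * Real.log p.N) := by positivity
  have hB : 0 ≤ C * p.M2 / (p.h * Real.log p.N) := by positivity
  have key := CCBM.cs U (fun i => ‖S4 p i v4‖) (fun i => ‖S2 p i v2‖) hA hB (h4 v4 hv4) (h2 v2 hv2)
  have e1 : C * p.M4 / (p.h * Real.log p.N) * (C * p.M2 / (p.h * Real.log p.N)) =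
      C ^ 2 * p.M4 * p.M2 / (p.h * Real.log p.N) ^ 2 := by
    field_simp
  rw [e1] at key
  refine ⟨key, ?_⟩
  obtain ⟨E, hE⟩ : ∃ E : ℝ, E = Real.exp (((v4 + v2 : ℕ) : ℝ) / p.h) := ⟨_, rfl⟩
  have hE0 : 0 < E := by rw [hE]; exact Real.exp_pos _
  have hR := hRR v4 hv4 v2 hv2
  rw [← hE] at hR ⊢
  have hR' := CCBM.RR_ge hh hE0 hVP hR
  rw [one_mul] at hR'
  have hd : 0 < E * VP p.w / p.h := div_pos (mul_pos hE0 hVP) hh
  have hR0 : 0 < RR p (v4 + v2) := lt_of_lt_of_le hd hR'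
  calc ∑ i ∈ U, ‖cc p i v4 v2‖
      ≤ ∑ i ∈ U, ‖S4 p i v4‖ * ‖S2 p i v2‖ * (p.h / (E * VP p.w)) := by
        refine sum_le_sum fun i _ => ?_
        unfold cc
        rw [norm_div, norm_mul, Complex.norm_real, Real.norm_eq_abs, abs_of_pos hR0,
          div_eq_mul_inv]
        refine mul_le_mul_of_nonneg_left ?_ (by positivity)
        rw [← inv_div]
        exact inv_anti₀ hd hR'
    _ = (∑ i ∈ U, ‖S4 p i v4‖ * ‖S2 p i v2‖) * (p.h / (E * VP p.w)) := by rw [sum_mul]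
    _ ≤ C ^ 2 * p.M4 * p.M2 / (p.h * Real.log p.N) ^ 2 * (p.h / (E * VP p.w)) :=
        mul_le_mul_of_nonneg_right key (by positivity)
    _ = C ^ 2 * p.M4 * p.M2 / (p.h * Real.log p.N ^ 2 * (E * VP p.w)) := by
        field_simp

end Pool.Agent.Lib.MP391708.XM
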