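import Pool.Agent.Lib.MP_391708_nt.X.SpecMT
import Pool.Agent.Lib.MP_391708_nt.X.CELS

/-!
# THEOREM X (MP_391708), part MT, module CE3: thin Halász–Montgomery for the three cells (helper45)

From `X.SpecCELB` (part CEL, helper63) only.
-/

set_option autoImplicit false

namespace Pool.Agent.Lib.MP391708.XM

open Finset Filter Topology Pool.Agent.Lib.MP391708.MR
open Pool.Agent.Lib.MP391708.X
open scoped ComplexConjugate

namespace CE3M

/-- `K / N(y)` is large: `N / (log N ^ cT * log N ^ (cP / 2)) ≥ N ^ (1/3)`. -/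
theorem ev_K (cT cP : ℝ) : ∀ᶠ N : ℝ in atTop,
    N ^ (1 / 3 : ℝ) * (Real.log N ^ cT * Real.log N ^ (cP / 2)) ≤ N := by
  have h1 : Tendsto (fun N : ℝ => Real.log N ^ (cT + cP / 2) / N ^ (2 / 3 : ℝ)) atTop (𝓝 0) :=
    (isLittleO_log_rpow_rpow_atTop (cT + cP / 2)
      (by norm_num : (0 : ℝ) < 2 / 3)).tendsto_div_nhds_zero
  have h2 : ∀ᶠ N : ℝ in atTop, Real.log N ^ (cT + cP / 2) / N ^ (2 / 3 : ℝ) < 1 :=
    h1.eventually_lt_const (by norm_num)
  filter_upwards [h2, eventually_gt_atTop (1 : ℝ)] with N hN hN1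
  have hN0 : 0 < N := by linarith
  have hl : 0 < Real.log N := Real.log_pos hN1
  have hp : 0 < N ^ (2 / 3 : ℝ) := Real.rpow_pos_of_pos hN0 _
  rw [div_lt_one hp, Real.rpow_add hl] at hN
  have e : N ^ (1 / 3 : ℝ) * N ^ (2 / 3 : ℝ) = N := by
    rw [← Real.rpow_add hN0]
    norm_num
  calc N ^ (1 / 3 : ℝ) * (Real.log N ^ cT * Real.log N ^ (cP / 2))
      ≤ N ^ (1 / 3 : ℝ) * N ^ (2 / 3 : ℝ) :=
        mul_le_mul_of_nonneg_left hN.le (Real.rpow_nonneg hN0.le _)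
    _ = N := e

theorem sqb {C D x y z : ℝ} (hC : 0 < C) (hD : C + 1 ≤ D) (h : x ≤ C * (y / z) ^ 2) :
    x ≤ (D * y / z) ^ 2 := by
  have e : (D * y / z) ^ 2 = D ^ 2 * (y / z) ^ 2 := by ring
  rw [e]
  refine h.trans (mul_le_mul_of_nonneg_right ?_ (sq_nonneg _))
  nlinarith

end CE3M

/-- **CE3**: thin Halász–Montgomery for the cells of `z₁`, `π₄`, `π₂`, in a context. -/
theorem specCE3 (hCELB : Pool.Agent.Lib.MP391708.X.SpecCELB) : SpecCE3 := by
  obtain ⟨C2, hC2, h2⟩ := Pool.Agent.Lib.MP391708.X.specCELS hCELB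
  obtain ⟨C1, hC1, h1⟩ := hCELB
  refine ⟨C1 + C2 + 1, by positivity, ?_⟩
  intro cw aU aQ aF _ _ _ _
  refine ⟨1, fun ch hch => ⟨0, fun cP hcP => ⟨0, fun cT hcT => ⟨aF, fun cB hcB => ?_⟩⟩⟩⟩
  filter_upwards [h1 ch aQ aU hch, h2 cT cP ch cw aQ aU hch, CE3M.ev_K cT cP,
    eventually_ge_atTop (Real.exp 1)] with N g1 g2 g3 hN B U b y hc
  have hN1 : 1 < N := lt_of_lt_of_le (by have := Real.add_one_lt_exp (one_ne_zero : (1 : ℝ) ≠ 0); linarith) hN
  have hN0 : 0 < N := by linarith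
  have hl1 : 1 ≤ Real.log N := by
    rw [Real.le_log_iff_exp_le hN0]
    exact hN
  have hl : 0 < Real.log N := by linarith
  have hB : Real.log N ^ aF ≤ B :=
    (Real.rpow_le_rpow_of_exponent_le hl1 hcB).trans hc.B1
  have hB0 : 0 < B := lt_of_lt_of_le (Real.rpow_pos_of_pos hl _) hB
  have hF : Real.log N ^ aF * (N / B) ≤ N := by
    rw [mul_div_assoc', div_le_iff₀ hB0, mul_comm]
    exact mul_le_mul_of_nonneg_left hB hN0.le
  have hy0 : 0 < (nm y : ℝ) := by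
    have hy : y ≠ 0 := by
      intro h0
      have := hc.y1
      rw [h0] at this
      simp [prim] at this
    have h3 : nm y ≠ 0 := fun h0 => hy (nm_eq_zero.1 h0)
    exact_mod_cast Nat.pos_of_ne_zero h3
  have hT : 0 < Real.log N ^ cT := Real.rpow_pos_of_pos hl _
  have hM1 : N ^ (1 / 3 : ℝ) ≤ (par N cT cP ch cw).K / nm y := by
    show N ^ (1 / 3 : ℝ) ≤ N / Real.log N ^ cT / nm y
    rw [div_div, le_div_iff₀ (by positivity)]
    refine le_trans ?_ g3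
    exact mul_le_mul_of_nonneg_left (mul_le_mul_of_nonneg_left hc.y2 hT.le)
      (Real.rpow_nonneg hN0.le _)
  refine ⟨fun u _ => ?_, fun v _ => ?_, fun v _ => ?_⟩
  · exact CE3M.sqb hC1 (by linarith) (g1 _ U hF hc.ok ((par N cT cP ch cw).K / nm y) u hM1).2.1
  · exact CE3M.sqb hC2 (by linarith) (g2.2.2 _ U hF hc.ok v).1
  · exact CE3M.sqb hC2 (by linarith) (g2.2.2 _ U hF hc.ok v).2

end Pool.Agent.Lib.MP391708.XM
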