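import Pool.Agent.Lib.MP_391708_nt.X.SpecMT
import Pool.Agent.Lib.MP_391708_nt.X.GPL
import Pool.Agent.Lib.MP_391708_nt.QPA.PNTAP

/-!
# THEOREM X (MP_391708), part MT, module CNT: the number of Gaussian primes in `(X, 2X]` (helper72)
-/

set_option autoImplicit false

namespace Pool.Agent.Lib.MP391708.XM

open Finset Filter Topology Pool.Agent.Lib.MP391708.MR
open Pool.Agent.Lib.MP391708.X

theorem specCNT : SpecCNT := by
  refine ⟨1 / 2, by norm_num, ?_⟩
  have h := specGPL QPA.specPNTAP 2 (1 / 2) (by norm_num) (by norm_num)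
  filter_upwards [h] with X hX
  have h1 := (abs_le.1 hX).1
  have e1 : (2 - 1 : ℝ) * X / Real.log X = X / Real.log X := by
    rw [show (2 - 1 : ℝ) = 1 by norm_num, one_mul]
  have e2 : 1 / 2 * X / Real.log X = 1 / 2 * (X / Real.log X) := by
    rw [mul_div_assoc]
  rw [e1, e2] at h1
  rw [e2]
  linarith

end Pool.Agent.Lib.MP391708.XM
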