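import Pool.Agent.Lib.MP_391708_nt.X.SpecMT

/-!
# MP_391708, Theorem X, part MT, module EXC: exchange of the sums (helper77)
-/

set_option autoImplicit false

namespace Pool.Agent.Lib.MP391708.XM

open Finset Filter Topology Pool.Agent.Lib.MP391708.MR
open Pool.Agent.Lib.MP391708.X
open scoped ComplexConjugate

namespace EXCM

theorem inner (p : Par) (U : Finset Ix) (b : ℕ) (ω : Gi) (S : Finset Gi) :
    ∑ z ∈ S, Kap p U z = ∑ v4 ∈ I4 p, ∑ v2 ∈ I2 p, ∑ i ∈ U, cc p i v4 v2 *
      ∑ z ∈ S, (open scoped Classical in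
        if z ∈ lc p.h (v4 + v2) ∧ rgh p.w z then conj (psi i z) else 0) := by
  classical
  unfold Kap
  rw [Finset.sum_comm]
  refine Finset.sum_congr rfl fun v4 _ => ?_
  rw [Finset.sum_comm]
  refine Finset.sum_congr rfl fun v2 _ => ?_
  simp only [Finset.mul_sum]
  rw [Finset.sum_comm]
  refine Finset.sum_congr rfl fun z _ => ?_
  unfold kap
  by_cases h : z ∈ lc p.h (v4 + v2) ∧ rgh p.w z
  · simp only [if_pos h]
  · simp only [if_neg h, mul_zero, Finset.sum_const_zero]

end EXCM

/-- **EXC**. -/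
theorem specEXC : SpecEXC := by
  intro p U b y
  unfold sy ls
  have e : 2 * p.K / (nm y : ℝ) = 2 * (p.K / nm y) := by ring
  rw [e, Finset.sum_comm]
  refine Finset.sum_congr rfl fun π _ => ?_
  refine Finset.sum_congr rfl fun z _ => ?_
  rw [EXCM.inner p U b (y * z * π)]
  rfl

end Pool.Agent.Lib.MP391708.XM
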