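import Pool.Agent.Lib.MP_391708_nt.X.SpecMT
import Pool.Agent.Lib.MP_391708_nt.X.PSI

/-!
# THEOREM X (MP_391708), part MT, module FMT: the conclusion
-/

set_option autoImplicit false

namespace Pool.Agent.Lib.MP391708.XM

open Finset Filter Topology Pool.Agent.Lib.MP391708.MR
open Pool.Agent.Lib.MP391708.X
open Pool.Agent.Lib.MP391708.XL (gg VQ VS PS)
open scoped ComplexConjugate

namespace FMTM

lemma psi_ix1 (z : Gi) : psi ix1 z = 1 := by
  simp [psi, hk, ix1, xi]

end FMTM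

open FMTM Classical in
/-- **FMT**. -/
theorem specFMT (hRED : SpecRED) (hBLX : SpecBLX) (hMNX : SpecMNX) (hXXL : SpecXXL) (hRRA : SpecRRA)
    (_hCHB : XL.SpecCHB) : SpecFMT := by
  obtain ⟨c, hc, hM⟩ := hMNX
  have hπ : 0 < Real.pi := Real.pi_pos
  have h := (((((hRED (c / (8 * Real.pi)) (by positivity)).and (hBLX (c / 2) (by positivity))).and hM).and
    (hXXL (c / (8 * Real.pi)) (by positivity))).and (hRRA 1 one_pos)).and EV.uok
  refine h.mono ?_
  rintro p B U b y ⟨⟨⟨⟨⟨r1, r2⟩, r3⟩, r4⟩, r5⟩, r6⟩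
  obtain ⟨r4a, r4b⟩ := r4
  obtain ⟨hV, -, -⟩ := r5
  obtain ⟨hix, r6⟩ := r6
  -- the inner sums
  have key : ∀ π ∈ GP p.P (2 * p.P), c / 2 * (VS b (PS p.w) * Z0 p y) ≤
      (∑ i ∈ U, psi i y * psi i π * (GG p i b * TT p y π b i)).re := by
    intro π hπ'
    obtain ⟨-, m2⟩ := r3 π hπ'
    have e1 := r2 π hπ'
    rw [← Finset.add_sum_erase U (fun i => psi i y * psi i π * (GG p i b * TT p y π b i)) hix,
      Complex.add_re]
    have e2 : psi ix1 y * psi ix1 π * (GG p ix1 b * TT p y π b ix1) = GG p ix1 b * TT p y π b ix1 := by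
      rw [psi_ix1, psi_ix1]; ring
    have e3 : ‖∑ i ∈ U.erase ix1, psi i y * psi i π * (GG p i b * TT p y π b i)‖ ≤
        c / 2 * VS b (PS p.w) * Z0 p y := by
      refine (norm_sum_le _ _).trans (le_trans ?_ e1)
      rw [Finset.filter_ne']
      refine Finset.sum_le_sum fun i hi => ?_
      have hiU := Finset.mem_of_mem_erase hi
      obtain ⟨-, hχ, -, -⟩ := r6 i hiU
      rw [norm_mul, norm_mul]
      have n1 := PSIM.norm_psi_le hχ y
      have n2 := PSIM.norm_psi_le hχ π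
      calc ‖psi i y‖ * ‖psi i π‖ * ‖GG p i b * TT p y π b i‖ ≤ 1 * 1 * ‖GG p i b * TT p y π b i‖ := by
            gcongr
        _ = ‖GG p i b * TT p y π b i‖ := by ring
    have e4 := (Complex.abs_re_le_norm (∑ i ∈ U.erase ix1, psi i y * psi i π *
      (GG p i b * TT p y π b i))).trans e3
    have e5 := (abs_le.1 e4).1
    simp only [e2]
    have e6 : c * VS b (PS p.w) * Z0 p y = c / 2 * (VS b (PS p.w) * Z0 p y) +
      c / 2 * VS b (PS p.w) * Z0 p y := by ring
    linarith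
  set M : ℂ := ((1 / (2 * Real.pi * VP p.w) : ℝ) : ℂ) * ∑ π ∈ GP p.P (2 * p.P), ∑ i ∈ U,
    psi i y * psi i π * (GG p i b * TT p y π b i) with hMdef
  have hMre : c / (4 * Real.pi) * XX p y b ≤ M.re := by
    rw [hMdef, Complex.re_ofReal_mul, Complex.re_sum]
    have e1 : ((GP p.P (2 * p.P)).card : ℝ) * (c / 2 * (VS b (PS p.w) * Z0 p y)) ≤
        ∑ π ∈ GP p.P (2 * p.P), (∑ i ∈ U, psi i y * psi i π * (GG p i b * TT p y π b i)).re := by
      rw [← nsmul_eq_mul]
      exact Finset.card_nsmul_le_sum _ _ _ key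
    have e2 : c / (4 * Real.pi) * XX p y b = 1 / (2 * Real.pi * VP p.w) *
        (((GP p.P (2 * p.P)).card : ℝ) * (c / 2 * (VS b (PS p.w) * Z0 p y))) := by
      unfold XX
      field_simp
      ring
    rw [e2]
    exact mul_le_mul_of_nonneg_left e1 (by positivity)
  have hdiff := (Complex.abs_re_le_norm _).trans r1
  rw [Complex.sub_re] at hdiff
  have hd := (abs_le.1 hdiff).1
  have e7 : c / (4 * Real.pi) * XX p y b = c / (8 * Real.pi) * XX p y b + c / (8 * Real.pi) * XX p y b := by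
    ring
  linarith

end Pool.Agent.Lib.MP391708.XM
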