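import Pool.Agent.Lib.MP_391708_nt.X.SpecMT

/-!
# THEOREM X (MP_391708), part MT, module FRQ: the phase is nearly constant on a cell
-/

set_option autoImplicit false

namespace Pool.Agent.Lib.MP391708.XM

open Finset Filter Topology Pool.Agent.Lib.MP391708.MR
open Pool.Agent.Lib.MP391708.X
open Pool.Agent.Lib.MP391708.XL (gg VQ VS PS)
open scoped ComplexConjugate

theorem specFRQ : SpecFRQ := by
  intro δ hδ cw aU aQ aF _ _ _ haF
  refine ⟨aF + 1, fun ch hch => ⟨0, fun cP _ => ⟨0, fun cT _ => ⟨0, fun cB _ => ?_⟩⟩⟩⟩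
  have h1 : ∀ᶠ N : ℝ in atTop, max 1 (2 / δ) ≤ Real.log N :=
    Real.tendsto_log_atTop.eventually_ge_atTop _
  have h2 : ∀ᶠ N : ℝ in atTop, 16 * Real.log N ^ aF ≤ δ * N := by
    have h := (isLittleO_log_rpow_rpow_atTop aF (by norm_num : (0 : ℝ) < 1)).bound
      (by positivity : (0 : ℝ) < δ / 16)
    filter_upwards [h, eventually_gt_atTop 0] with N hN hN0
    rw [Real.norm_eq_abs, Real.norm_eq_abs, Real.rpow_one, abs_of_pos hN0] at hN
    have := le_abs_self (Real.log N ^ aF)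
    linarith
  filter_upwards [h1, h2, eventually_gt_atTop 0] with N hN1 hN2 hN0 B U b y hc i hi
  set l : ℝ := Real.log N with hl
  have hl1 : 1 ≤ l := le_trans (le_max_left _ _) hN1
  have hl2 : 2 / δ ≤ l := le_trans (le_max_right _ _) hN1
  have hl0 : 0 < l := by linarith
  have hB0 : 0 < B := lt_of_lt_of_le (Real.rpow_pos_of_pos hl0 _) hc.B1
  have hk := hc.ok.frq i hi
  have hb0 : (0 : ℝ) ≤ b := Nat.cast_nonneg b
  have hlF : 0 < l ^ aF := Real.rpow_pos_of_pos hl0 _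
  have hk0 : 0 ≤ l ^ aF * (N / B) := by positivity
  show |(i.2.2 : ℝ)| * b ≤ δ * l ^ ch * N ∧ |(i.2.2 : ℝ)| * (b : ℝ) ^ 3 ≤ δ * N ^ 3
  constructor
  · have h3 : |(i.2.2 : ℝ)| * b ≤ (l ^ aF * (N / B)) * (2 * B) :=
      mul_le_mul hk hc.b2 hb0 hk0
    have h4 : (l ^ aF * (N / B)) * (2 * B) = 2 * l ^ aF * N := by
      field_simp
    have h5 : 2 * l ^ aF ≤ δ * l ^ ch := by
      have h6 : l ^ (aF + 1) ≤ l ^ ch := Real.rpow_le_rpow_of_exponent_le hl1 hch
      rw [Real.rpow_add hl0, Real.rpow_one] at h6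
      have h7 : 2 ≤ δ * l := by
        rw [div_le_iff₀ hδ] at hl2
        linarith
      calc 2 * l ^ aF ≤ (δ * l) * l ^ aF := mul_le_mul_of_nonneg_right h7 hlF.le
        _ = δ * (l ^ aF * l) := by ring
        _ ≤ δ * l ^ ch := mul_le_mul_of_nonneg_left h6 hδ.le
    rw [h4] at h3
    exact h3.trans (mul_le_mul_of_nonneg_right h5 hN0.le)
  · have h3 : |(i.2.2 : ℝ)| * (b : ℝ) ^ 3 ≤ (l ^ aF * (N / B)) * (2 * B) ^ 3 :=
      mul_le_mul hk (pow_le_pow_left₀ hb0 hc.b2 3) (by positivity) hk0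
    have h4 : (l ^ aF * (N / B)) * (2 * B) ^ 3 = 8 * l ^ aF * N * B ^ 2 := by
      field_simp
      ring
    have h5 : 8 * l ^ aF * N * B ^ 2 ≤ 8 * l ^ aF * N * (2 * N) :=
      mul_le_mul_of_nonneg_left hc.B2 (by positivity)
    have h6 : 8 * l ^ aF * N * (2 * N) = (16 * l ^ aF) * N ^ 2 := by ring
    have h7 : (16 * l ^ aF) * N ^ 2 ≤ (δ * N) * N ^ 2 :=
      mul_le_mul_of_nonneg_right hN2 (by positivity)
    have h8 : (δ * N) * N ^ 2 = δ * N ^ 3 := by ring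
    linarith

end Pool.Agent.Lib.MP391708.XM
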