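import Pool.Agent.Lib.MP_391708_nt.X.SpecMT

/-!
# Module LIN (MP_391708_nt, Theorem X, part MT): the line sums
-/

set_option autoImplicit false

namespace Pool.Agent.Lib.MP391708.XM

open Finset Filter Topology Pool.Agent.Lib.MP391708.MR
open Pool.Agent.Lib.MP391708.X
open Pool.Agent.Lib.MP391708.XL (gg VQ VS PS)
open scoped ComplexConjugate

namespace LINM

/-- the bounds for the norm of an element of `GP` -/
lemma gp_bd {P Q : ℝ} {z : Gi} (hz : z ∈ GP P Q) : P < (nm z : ℝ) ∧ (nm z : ℝ) ≤ Q := by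
  have h := MR.mem_GP.1 hz
  exact ⟨by tauto, by tauto⟩

/-- the radius and the norm of the outer point -/
lemma radii (p : Par) (y π z ω : Gi) (v j : ℕ) (h1 : 1 ≤ p.h)
    (hE1 : Real.exp ((v : ℝ) / p.h) ≤ nm z)
    (hE2 : (nm z : ℝ) ≤ Real.exp ((v : ℝ) / p.h) * Real.exp (1 / p.h))
    (hω : (nm ω : ℝ) = nm y * nm z * nm π) :
    rad p y π (v + j) ≤ Real.sqrt (nm ω * Real.exp ((j : ℝ) / p.h)) ∧
    Real.sqrt (nm ω * Real.exp ((j : ℝ) / p.h)) ≤ rad p y π (v + j) * Real.exp (4 / p.h) := by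
  have hy : (0 : ℝ) ≤ nm y := Nat.cast_nonneg _
  have hp : (0 : ℝ) ≤ nm π := Nat.cast_nonneg _
  have hyp : (0 : ℝ) ≤ nm y * nm π := mul_nonneg hy hp
  have hJ : 0 < Real.exp ((j : ℝ) / p.h) := Real.exp_pos _
  have hs : Real.exp (((v + j : ℕ) : ℝ) / p.h) =
      Real.exp ((v : ℝ) / p.h) * Real.exp ((j : ℝ) / p.h) := by
    rw [← Real.exp_add]
    congr 1
    push_cast
    ring
  constructor
  · unfold rad
    rw [hs, hω]
    apply Real.sqrt_le_sqrt
    have h2 := mul_le_mul_of_nonneg_right hE1 (mul_nonneg hyp hJ.le)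
    calc (nm y : ℝ) * nm π * (Real.exp ((v : ℝ) / p.h) * Real.exp ((j : ℝ) / p.h))
        = Real.exp ((v : ℝ) / p.h) * (nm y * nm π * Real.exp ((j : ℝ) / p.h)) := by ring
      _ ≤ nm z * (nm y * nm π * Real.exp ((j : ℝ) / p.h)) := h2
      _ = nm y * nm z * nm π * Real.exp ((j : ℝ) / p.h) := by ring
  · have h3 : rad p y π (v + j) * Real.exp (4 / p.h) =
        Real.sqrt ((nm y : ℝ) * nm π * (Real.exp ((v : ℝ) / p.h) * Real.exp ((j : ℝ) / p.h)) *
          Real.exp (4 / p.h) ^ 2) := by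
      unfold rad
      rw [hs, Real.sqrt_mul' _ (sq_nonneg (Real.exp (4 / p.h))), Real.sqrt_sq (Real.exp_pos _).le]
    rw [h3, hω]
    apply Real.sqrt_le_sqrt
    have h4 : Real.exp (1 / p.h) ≤ Real.exp (4 / p.h) ^ 2 := by
      rw [← Real.exp_nat_mul]
      apply Real.exp_le_exp.2
      have : 0 < p.h := by linarith
      have h5 : (1 : ℝ) / p.h ≤ 8 / p.h := div_le_div_of_nonneg_right (by norm_num) this.le
      refine h5.trans (le_of_eq ?_)
      push_cast
      ring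
    have h6 := mul_le_mul_of_nonneg_right hE2 (mul_nonneg hyp hJ.le)
    have h7 : 0 ≤ nm y * nm π * (Real.exp ((v : ℝ) / p.h) * Real.exp ((j : ℝ) / p.h)) :=
      mul_nonneg hyp (by positivity)
    calc (nm y : ℝ) * nm z * nm π * Real.exp ((j : ℝ) / p.h)
        = nm z * (nm y * nm π * Real.exp ((j : ℝ) / p.h)) := by ring
      _ ≤ Real.exp ((v : ℝ) / p.h) * Real.exp (1 / p.h) *
          (nm y * nm π * Real.exp ((j : ℝ) / p.h)) := h6
      _ = nm y * nm π * (Real.exp ((v : ℝ) / p.h) * Real.exp ((j : ℝ) / p.h)) *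
          Real.exp (1 / p.h) := by ring
      _ ≤ _ := mul_le_mul_of_nonneg_left h4 h7

/-- the number of points of a line in a cell -/
lemma pts {N T P h K n1 nz np nω r : ℝ} (hN : 0 < N) (hT : 0 < T) (hP : 0 < P) (hh : 0 < h)
    (hn1 : 0 < n1) (hK : K = N / T) (hω : nω = n1 * nz * np) (hω0 : 0 < nω)
    (hz : nz ≤ 2 * (K / n1)) (hz0 : 0 ≤ nz) (hp : np ≤ 2 * P) (hr : N / 8 ≤ r) :
    T / (P * h) ≤ 32 * (r / (h * nω)) := by
  have h1 : nω ≤ 4 * (N / T) * P := by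
    rw [hω]
    have h2 : n1 * nz ≤ 2 * K := by
      calc n1 * nz ≤ n1 * (2 * (K / n1)) := mul_le_mul_of_nonneg_left hz hn1.le
        _ = 2 * K := by field_simp
    calc n1 * nz * np ≤ (n1 * nz) * (2 * P) := mul_le_mul_of_nonneg_left hp (by positivity)
      _ ≤ (2 * K) * (2 * P) := mul_le_mul_of_nonneg_right h2 (by positivity)
      _ = 4 * (N / T) * P := by rw [hK]; ring
  have h3 : T / (P * h) = 32 * ((N / 8) / (h * (4 * (N / T) * P))) := by
    field_simp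
    norm_num
  rw [h3]
  apply mul_le_mul_of_nonneg_left _ (by norm_num)
  calc (N / 8) / (h * (4 * (N / T) * P)) ≤ (N / 8) / (h * nω) := by
        apply div_le_div_of_nonneg_left (by positivity) (by positivity)
        exact mul_le_mul_of_nonneg_left h1 hh.le
    _ ≤ r / (h * nω) := div_le_div_of_nonneg_right hr (by positivity)

/-- the error terms -/
lemma errs {C δ e h N k b r : ℝ} (hC : 0 < C) (hδ : 0 < δ) (he : C * e ≤ δ / 8) (hh : 0 < h)
    (hH : 8 * C / δ ≤ h) (hN : 0 < N) (hr : N / 8 ≤ r)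
    (h1 : k * b ≤ δ / (4096 * C) * h * N) (h2 : k * b ^ 3 ≤ δ / (4096 * C) * N ^ 3) :
    C * (e + 1 / h + k * (b / (h * r) + (b / r) ^ 3)) ≤ δ / 2 := by
  have hr0 : 0 < r := by linarith
  have a1 : C * (1 / h) ≤ δ / 8 := by
    rw [mul_one_div, div_le_div_iff₀ hh (by norm_num)]
    rw [div_le_iff₀ hδ] at hH
    linarith
  have a2 : C * (k * (b / (h * r))) ≤ δ / 8 := by
    have e1 : C * (k * (b / (h * r))) = C * (k * b) / (h * r) := by ring
    rw [e1, div_le_iff₀ (by positivity)]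
    calc C * (k * b) ≤ C * (δ / (4096 * C) * h * N) := mul_le_mul_of_nonneg_left h1 hC.le
      _ = δ / 4096 * h * N := by field_simp
      _ ≤ δ / 4096 * h * (8 * r) := mul_le_mul_of_nonneg_left (by linarith) (by positivity)
      _ ≤ δ / 8 * (h * r) := by
        have : 0 ≤ δ * h * r := by positivity
        nlinarith
  have a3 : C * (k * (b / r) ^ 3) ≤ δ / 8 := by
    have e1 : C * (k * (b / r) ^ 3) = C * (k * b ^ 3) / r ^ 3 := by
      rw [div_pow]
      ring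
    rw [e1, div_le_iff₀ (by positivity)]
    have h3 : N ^ 3 ≤ (8 * r) ^ 3 := pow_le_pow_left₀ hN.le (by linarith) 3
    calc C * (k * b ^ 3) ≤ C * (δ / (4096 * C) * N ^ 3) := mul_le_mul_of_nonneg_left h2 hC.le
      _ = δ / 4096 * N ^ 3 := by field_simp
      _ ≤ δ / 4096 * (8 * r) ^ 3 := mul_le_mul_of_nonneg_left h3 (by positivity)
      _ = δ / 8 * r ^ 3 := by ring
  calc C * (e + 1 / h + k * (b / (h * r) + (b / r) ^ 3))
      = C * e + C * (1 / h) + C * (k * (b / (h * r))) + C * (k * (b / r) ^ 3) := by ring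
    _ ≤ δ / 8 + δ / 8 + δ / 8 + δ / 8 := by gcongr
    _ = δ / 2 := by ring

/-- the sum of the errors -/
lemma total {C δ A E V R q T : ℝ} (hC : 0 < C) (hδ : 0 < δ) (hA : A ≤ δ / 2) (hE : 0 ≤ E)
    (hV : 0 ≤ V) (hR : q * R ≤ δ / (64 * C) * T * V) (hT : T ≤ 32 * E) :
    A * E * V + C * q * R ≤ δ * E * V := by
  have h1 : C * q * R ≤ δ / 2 * E * V := by
    calc C * q * R = C * (q * R) := by ring
      _ ≤ C * (δ / (64 * C) * T * V) := mul_le_mul_of_nonneg_left hR hC.le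
      _ = δ / 64 * T * V := by field_simp
      _ ≤ δ / 64 * (32 * E) * V :=
        mul_le_mul_of_nonneg_right (mul_le_mul_of_nonneg_left hT (by positivity)) hV
      _ = δ / 2 * E * V := by ring
  have h2 : A * E * V ≤ δ / 2 * E * V :=
    mul_le_mul_of_nonneg_right (mul_le_mul_of_nonneg_right hA hE) hV
  calc A * E * V + C * q * R ≤ δ / 2 * E * V + δ / 2 * E * V := add_le_add h2 h1
    _ = δ * E * V := by ring

end LINM

open LINM in
theorem specLIN (hLSM : Pool.Agent.Lib.MP391708.XL.SpecLSM) (hSIZ : SpecSIZ) (hFRQ : SpecFRQ)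
    (hTBG : SpecTBG) (hHGT : SpecHGT) : SpecLIN := by
  obtain ⟨C, hC, hA, -, -, c, hc, hV⟩ := hLSM
  intro δ hδ
  obtain ⟨u, hu⟩ : ∃ u : ℕ, C * Real.exp (-(u : ℝ)) ≤ δ / 8 := by
    obtain ⟨u, hu⟩ := exists_nat_ge (8 * C / δ)
    refine ⟨u, ?_⟩
    have h1 : (u : ℝ) ≤ Real.exp u := by
      have := Real.add_one_le_exp (u : ℝ)
      linarith
    have h2 : 8 * C / δ ≤ Real.exp u := hu.trans h1
    rw [div_le_iff₀ hδ] at h2
    rw [Real.exp_neg, ← div_eq_mul_inv, div_le_div_iff₀ (Real.exp_pos _) (by norm_num)]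
    linarith
  have hd1 : 0 < δ / (4096 * C) := by positivity
  have hd2 : 0 < δ / (64 * C) := by positivity
  have hEV := ((((hSIZ.and (hFRQ _ hd1)).and (hTBG u _ hd2)).and (hHGT (8 * C / δ))).and EV.uok)
  refine hEV.mono ?_
  rintro p B U b y ⟨⟨⟨⟨hS, hF⟩, hT⟩, hH⟩, hU1, hU⟩ i hi π hπ z hz v4 hv4 v2 hv2
  obtain ⟨hi1, hchi, -, -⟩ := hU i hi
  obtain ⟨om1, om2, om3, om4, om5⟩ := hS.om π hπ z hz
  obtain ⟨ce1, -, ce3, ce4⟩ := hS.ce z hz
  obtain ⟨f1, f2⟩ := hF i hi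
  have hra := hS.ra π hπ _ ce1 v4 hv4 v2 hv2
  have hh : 100 ≤ p.h := hS.h1
  have hN : 1000000 ≤ p.N := hS.N1
  have hr2 := radii p y π z (y * z * π) ⌊p.h * Real.log (nm z)⌋₊ (v4 + v2) (by linarith) ce3 ce4 om4
  rw [← add_assoc] at hr2
  set r : ℝ := rad p y π (⌊p.h * Real.log (nm z)⌋₊ + v4 + v2) with hr
  have hr0 : 0 < r := by linarith [hra.1]
  have hw : 1 ≤ p.w := hS.w1
  have hV' := hV (b : ℤ) p.w hw
  have hb2 := hS.b2
  have hh2 := hS.h2
  have hm := (hA u i (y * z * π) b p.h p.w r (p.N * p.T) (v4 + v2) hi1 hchi om1 om2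
    (om3 i hi) hw hS.b1 (by linarith) (by linarith [hra.1]) (by linarith [hra.1])
    (by linarith [hra.1]) (hS.jj v4 hv4 v2 hv2).2 hr2.1 hr2.2).1
  have e : LL p i (y * z * π) b (v4 + v2) -
      ((r / (2 * p.h * nm (y * z * π)) : ℝ) : ℂ) *
        GG p i b * psi i (y * z * π) * Complex.exp (-(Complex.I * i.2.2 * b / (r : ℝ))) =
      LL p i (y * z * π) b (v4 + v2) -
        ((r / (2 * p.h * nm (y * z * π)) * VQ i.1 b (PS p.w) : ℝ) : ℂ) * psi i (y * z * π) *
          gg i.2.1 i.1 b * Complex.exp (-(Complex.I * i.2.2 * b / (r : ℝ))) := by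
    unfold GG
    push_cast
    ring
  rw [e]
  refine le_trans hm ?_
  have hP : 100 ≤ p.P := hS.P1
  have hTP : 1000 * p.P ≤ p.T := hS.T1
  have hω0 : (0 : ℝ) < nm (y * z * π) := by exact_mod_cast om5
  have hy0 : (0 : ℝ) < nm y := by
    have := hS.ny
    exact_mod_cast (show 0 < nm y by omega)
  have hpt : p.T / (p.P * p.h) ≤ 32 * (r / (p.h * nm (y * z * π))) :=
    pts (by linarith) (by linarith) (by linarith) (by linarith) hy0 rfl om4 hω0 (gp_bd hz).2
      (Nat.cast_nonneg _) (gp_bd hπ).2 hra.1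
  exact total hC hδ
    (errs hC hδ hu (by linarith) hH (by linarith) hra.1 f1 f2)
    (by positivity) hV'.2.1.le (hT i hi) hpt

end Pool.Agent.Lib.MP391708.XM
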