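import Pool.Agent.Lib.MP_391708_nt.X.SpecMT

/-!
# THEOREM X (MP_391708), part MT, module MNX: the trivial character (helper1)
-/

set_option autoImplicit false

namespace Pool.Agent.Lib.MP391708.XM

open Finset Filter Topology Pool.Agent.Lib.MP391708.MR
open Pool.Agent.Lib.MP391708.X
open Pool.Agent.Lib.MP391708.XL (gg VQ VS PS)
open scoped ComplexConjugate

namespace MNXM

lemma psi1 (z : Gi) : psi ix1 z = 1 := by
  unfold psi hk ix1 xi
  simp

/-- the cells partition the primes -/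
lemma cells {h M : ℝ} (hh : 0 ≤ h) (hM : 1 ≤ M) :
    ∑ v ∈ VV h M (2 * M), ((cell h M (2 * M) v).card : ℝ) = ((GP M (2 * M)).card : ℝ) := by
  have h1 : (GP M (2 * M)).card = ∑ v ∈ VV h M (2 * M), (cell h M (2 * M) v).card := by
    unfold cell
    refine Finset.card_eq_sum_card_fiberwise fun z hz => ?_
    have hz' : z ∈ GP M (2 * M) := hz
    unfold GP disc at hz'
    rw [mem_filter, mem_filter] at hz'
    obtain ⟨⟨-, -, h2⟩, -, -, -, -, h3⟩ := hz'
    have h4 : (0 : ℝ) < M := by linarith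
    show _ ∈ (VV h M (2 * M) : Set ℕ)
    unfold VV
    rw [Finset.coe_Icc, Set.mem_Icc]
    constructor
    · exact Nat.floor_le_floor (mul_le_mul_of_nonneg_left (Real.log_le_log h4 h3.le) hh)
    · exact Nat.floor_le_floor (mul_le_mul_of_nonneg_left
        (Real.log_le_log (h4.trans h3) h2) hh)
  rw [h1]
  push_cast
  rfl

/-- the lower bound for the number of primes -/
lemma low {c X0 N M : ℝ} (hc : 0 < c)
    (h0 : ∀ X : ℝ, X0 ≤ X → c * X / Real.log X ≤ ((GP X (2 * X)).card : ℝ))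
    (h1 : 2 ≤ M) (h2 : X0 ≤ M) (h3 : M ≤ N) : c * M / Real.log N ≤ ((GP M (2 * M)).card : ℝ) := by
  refine le_trans ?_ (h0 M h2)
  have h4 : 0 < Real.log M := Real.log_pos (by linarith)
  have h5 : Real.log M ≤ Real.log N := Real.log_le_log (by linarith) h3
  have h6 : 0 ≤ c * M := mul_nonneg hc.le (by linarith)
  exact div_le_div_of_nonneg_left h6 h4 h5

/-- the real number of which the main term is made -/
noncomputable def t (p : Par) (y π : Gi) : ℝ :=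
  ∑ u ∈ I1 p y, ∑ v4 ∈ I4 p, ∑ v2 ∈ I2 p,
    ((cell p.h (p.K / nm y) (2 * (p.K / nm y)) u).card : ℝ) *
      ((cell p.h p.M4 (2 * p.M4) v4).card : ℝ) * (4 * ((cell p.h p.M2 (2 * p.M2) v2).card : ℝ)) *
      (1 / rad p y π (u + v4 + v2))

lemma TT_eq (p : Par) (y π : Gi) (b : ℕ) : TT p y π b ix1 = ((t p y π : ℝ) : ℂ) := by
  unfold TT t
  push_cast
  refine Finset.sum_congr rfl fun u _ => Finset.sum_congr rfl fun v4 _ =>
    Finset.sum_congr rfl fun v2 _ => ?_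
  have h1 : S1 p y ix1 u = ((cell p.h (p.K / nm y) (2 * (p.K / nm y)) u).card : ℂ) := by
    unfold S1
    rw [Finset.sum_congr rfl fun z _ => psi1 z]
    simp
  have h2 : S4 p ix1 v4 = ((cell p.h p.M4 (2 * p.M4) v4).card : ℂ) := by
    unfold S4
    rw [Finset.sum_congr rfl fun z _ => psi1 z]
    simp
  have h3 : S2 p ix1 v2 = 4 * ((cell p.h p.M2 (2 * p.M2) v2).card : ℂ) := by
    unfold S2
    rw [Finset.sum_congr rfl fun z _ => psi1 z]
    simp
  have h4 : (ix1.2.2 : ℂ) = 0 := by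
    unfold ix1
    simp
  rw [h1, h2, h3, h4]
  simp

lemma tri (s t r : Finset ℕ) (f g k : ℕ → ℝ) (q : ℝ) :
    (∑ u ∈ s, f u) * (∑ v ∈ t, g v) * (4 * ∑ w ∈ r, k w) * q =
      ∑ u ∈ s, ∑ v ∈ t, ∑ w ∈ r, f u * g v * (4 * k w) * q := by
  simp_rw [← Finset.sum_mul, ← Finset.mul_sum, ← Finset.sum_mul]
  rw [Finset.sum_mul_sum]

lemma t_ge {p : Par} {y π : Gi} (hN : 0 < p.N)
    (hr : ∀ u ∈ I1 p y, ∀ v4 ∈ I4 p, ∀ v2 ∈ I2 p,
      p.N / 8 ≤ rad p y π (u + v4 + v2) ∧ rad p y π (u + v4 + v2) ≤ 2 * p.N)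
    (hh : 0 ≤ p.h) (h1 : 1 ≤ p.K / nm y) (h4 : 1 ≤ p.M4) (h2 : 1 ≤ p.M2) :
    ((GP (p.K / nm y) (2 * (p.K / nm y))).card : ℝ) * ((GP p.M4 (2 * p.M4)).card : ℝ) *
      (4 * ((GP p.M2 (2 * p.M2)).card : ℝ)) * (1 / (2 * p.N)) ≤ t p y π := by
  rw [← cells hh h1, ← cells hh h4, ← cells hh h2]
  unfold t
  have e : (∑ v ∈ VV p.h (p.K / nm y) (2 * (p.K / nm y)),
        ((cell p.h (p.K / nm y) (2 * (p.K / nm y)) v).card : ℝ)) *
      (∑ v ∈ VV p.h p.M4 (2 * p.M4), ((cell p.h p.M4 (2 * p.M4) v).card : ℝ)) *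
      (4 * ∑ v ∈ VV p.h p.M2 (2 * p.M2), ((cell p.h p.M2 (2 * p.M2) v).card : ℝ)) *
      (1 / (2 * p.N)) =
      ∑ u ∈ I1 p y, ∑ v4 ∈ I4 p, ∑ v2 ∈ I2 p,
        ((cell p.h (p.K / nm y) (2 * (p.K / nm y)) u).card : ℝ) *
          ((cell p.h p.M4 (2 * p.M4) v4).card : ℝ) *
          (4 * ((cell p.h p.M2 (2 * p.M2) v2).card : ℝ)) * (1 / (2 * p.N)) := by
    unfold I1 I4 I2
    exact tri _ _ _ _ _ _ _
  rw [e]
  refine Finset.sum_le_sum fun u hu => Finset.sum_le_sum fun v4 hv4 =>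
    Finset.sum_le_sum fun v2 hv2 => ?_
  obtain ⟨h5, h6⟩ := hr u hu v4 hv4 v2 hv2
  have h7 : 0 < rad p y π (u + v4 + v2) := lt_of_lt_of_le (by linarith) h5
  exact mul_le_mul_of_nonneg_left (one_div_le_one_div_of_le h7 h6) (by positivity)

end MNXM

open MNXM in
/-- The trivial character. -/
theorem specMNX (hCNT : SpecCNT) (hSIZ : SpecSIZ) (hLSM : XL.SpecLSM) : SpecMNX := by
  obtain ⟨c, hc, hcn⟩ := hCNT
  obtain ⟨X0, hX0⟩ := Filter.eventually_atTop.1 hcn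
  obtain ⟨-, -, -, -, hD, c', hc', hE⟩ := hLSM
  have hX : EV (fun p _ _ _ _ => max X0 2 ≤ p.N ^ (1 / 3 : ℝ)) := by
    intro cw aU aQ aF _ _ _ _
    refine ⟨0, fun ch _ => ⟨0, fun cP _ => ⟨0, fun cT _ => ⟨0, fun cB _ => ?_⟩⟩⟩⟩
    have h1 : Tendsto (fun N : ℝ => N ^ (1 / 3 : ℝ)) atTop atTop :=
      tendsto_rpow_atTop (by norm_num)
    filter_upwards [h1.eventually_ge_atTop (max X0 2)] with N hN B U b y _
    exact hN
  refine ⟨2 * c ^ 3, by positivity, (hSIZ.and hX).mono ?_⟩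
  rintro p B U b y ⟨hS, hX1⟩ π hπ
  have hN : (0 : ℝ) < p.N := by have := hS.N1; linarith
  have hN1 : (1 : ℝ) ≤ p.N := by have := hS.N1; linarith
  have hw : 0 ≤ p.w := by have := hS.w1; linarith
  have hl : 0 < Real.log p.N := by have := hS.l1; linarith
  obtain ⟨hg, hq⟩ := hD (b : ℤ) p.w
  have hGG : GG p ix1 b = ((VS b (PS p.w) : ℝ) : ℂ) := by
    have e1 : GG p ix1 b = ((VQ 1 b (PS p.w) : ℝ) : ℂ) * gg (fun _ => 1) 1 b := rfl
    rw [e1, hg, hq, mul_one]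
  have hGT : GG p ix1 b * TT p y π b ix1 = ((VS b (PS p.w) * t p y π : ℝ) : ℂ) := by
    rw [hGG, TT_eq]
    push_cast
    rfl
  rw [hGT]
  refine ⟨Complex.ofReal_im _, ?_⟩
  rw [Complex.ofReal_re]
  have hVS : 0 ≤ VS b (PS p.w) := (hE (b : ℤ) p.w hS.w1).2.1.le
  have hX2 : X0 ≤ p.N ^ (1 / 3 : ℝ) := (le_max_left _ _).trans hX1
  have hX3 : 2 ≤ p.N ^ (1 / 3 : ℝ) := (le_max_right _ _).trans hX1
  have hK : p.N ^ (1 / 3 : ℝ) ≤ p.K / nm y :=
    (Real.rpow_le_rpow_of_exponent_le hN1 (by norm_num)).trans hS.K1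
  have hM4 := hS.M41
  have hM2 := hS.M21
  have hM42 := hS.M42
  have hM22 := hS.M22
  have hK2 := hS.K2
  have l1 := low hc hX0 (N := p.N) (M := p.K / nm y) (by linarith) (by linarith) hK2
  have l4 := low hc hX0 (N := p.N) (M := p.M4) (by linarith) (by linarith) (by linarith)
  have l2 := low hc hX0 (N := p.N) (M := p.M2) (by linarith) (by linarith) (by linarith)
  have ht := t_ge (y := y) (π := π) hN (hS.ra π hπ) (by have := hS.h1; linarith)
    (by linarith) (by linarith) (by linarith)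
  have hKp : 0 < p.K / nm y := by linarith
  have h4p : 0 < p.M4 := by linarith
  have h2p : 0 < p.M2 := by linarith
  have hm : 2 * c ^ 3 * Z0 p y ≤ t p y π := by
    refine le_trans ?_ ht
    have e : 2 * c ^ 3 * Z0 p y = (c * (p.K / nm y) / Real.log p.N) *
        (c * p.M4 / Real.log p.N) * (4 * (c * p.M2 / Real.log p.N)) * (1 / (2 * p.N)) := by
      unfold Z0
      generalize p.K / nm y = k
      field_simp
      ring
    rw [e]
    have p1 : 0 ≤ c * (p.K / nm y) / Real.log p.N := by positivity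
    have p4 : 0 ≤ c * p.M4 / Real.log p.N := by positivity
    have p2 : 0 ≤ c * p.M2 / Real.log p.N := by positivity
    gcongr
  calc 2 * c ^ 3 * VS b (PS p.w) * Z0 p y = VS b (PS p.w) * (2 * c ^ 3 * Z0 p y) := by ring
    _ ≤ VS b (PS p.w) * t p y π := mul_le_mul_of_nonneg_left hm hVS

end Pool.Agent.Lib.MP391708.XM
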