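import Pool.Agent.Lib.MP_391708_nt.X.SpecMT

/-!
# THEOREM X (MP_391708), part MT, module PSM: the initial sums of `S4`
-/

set_option autoImplicit false

namespace Pool.Agent.Lib.MP391708.XM

open Finset Filter Topology Pool.Agent.Lib.MP391708.MR
open Pool.Agent.Lib.MP391708.X
open Pool.Agent.Lib.MP391708.XL (gg VQ VS PS)
open scoped ComplexConjugate

namespace PSMM

/-- PHX in the contexts -/
theorem ph (hPHX : PH.SpecPHX) (ε : ℝ) (hε : 0 < ε) : EV (fun p _ U _ _ => ∀ i ∈ U, i ≠ ix1 →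
    ∀ y y' : ℝ, p.N ^ (1 / 3 : ℝ) ≤ y → y ≤ y' → y' ≤ p.N →
      ‖∑ π ∈ GP y y', psi i π‖ ≤ ε * y' / Real.log y') := by
  intro cw aU aQ aF _ _ haQ haF
  obtain ⟨N₀, hN₀⟩ := hPHX ε (max aQ 2) (1 / 3) hε ((by norm_num : (1 : ℝ) ≤ 2).trans (le_max_right _ _))
    (by norm_num) (by norm_num)
  refine ⟨0, fun ch _ => ⟨0, fun cP _ => ⟨0, fun cT _ => ⟨0, fun cB hcB => ?_⟩⟩⟩⟩
  have hlog : Tendsto (fun N : ℝ => Real.log N) atTop atTop := Real.tendsto_log_atTop
  have hlo : ∀ᶠ N : ℝ in atTop, Real.log N ^ aF ≤ N := by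
    have h1 := (isLittleO_log_rpow_rpow_atTop aF (zero_lt_one)).bound (c := 1) one_pos
    filter_upwards [h1, hlog.eventually_ge_atTop 1, eventually_gt_atTop 0] with N hN hl h0
    rw [Real.rpow_one, one_mul, Real.norm_of_nonneg (Real.rpow_nonneg (by linarith) _),
      Real.norm_of_nonneg h0.le] at hN
    exact hN
  filter_upwards [eventually_ge_atTop N₀, hlog.eventually_ge_atTop 1, eventually_ge_atTop 1, hlo]
    with N hN hl1 hN1 hlN B U b y hc i hi hne y₁ y₂ h1 h2 h3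
  have hok := hc.ok
  obtain ⟨hf1, hf2, hf3⟩ := hok.ch i hi
  have hlN0 : 0 < Real.log N := by linarith
  have hB : 1 ≤ B := by
    refine le_trans ?_ hc.B1
    exact Real.one_le_rpow hl1 hcB
  have hf : (i.1 : ℝ) ≤ Real.log N ^ max aQ 2 :=
    hf2.trans (Real.rpow_le_rpow_of_exponent_le hl1 (le_max_left _ _))
  have hk : |(i.2.2 : ℝ)| ≤ N ^ max aQ 2 := by
    refine (hok.frq i hi).trans ?_
    have h4 : N / B ≤ N := div_le_self (by linarith) hB
    calc Real.log N ^ aF * (N / B) ≤ N * N := by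
          apply mul_le_mul hlN h4 (by positivity) (by linarith)
      _ = N ^ (2 : ℝ) := by rw [Real.rpow_two]; ring
      _ ≤ N ^ max aQ 2 := Real.rpow_le_rpow_of_exponent_le hN1 (le_max_right _ _)
  have hnp : i.2.2 ≠ 0 ∨ ∃ z, i.2.1 z ≠ 0 ∧ i.2.1 z ≠ 1 := by
    rcases hok.dif i hi ix1 hok.one hne with h | ⟨z, hz1, -, hz3⟩
    · exact Or.inl h
    · exact Or.inr ⟨z, hz1, hz3⟩
  exact hN₀ N hN i.1 i.2.1 i.2.2 hf1 hf hf3 hk hnp (hok.adm i hi) y₁ y₂ h1 h2 h3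

/-- the initial cells -/
theorem cells {h M : ℝ} (hh : 0 < h) (hM : 1 ≤ M) (m : ℕ) (ψ : Gi → ℂ) :
    ∑ v ∈ (VV h M (2 * M)).filter (fun v => v < m), ∑ π ∈ cell h M (2 * M) v, ψ π =
      ∑ π ∈ GP M (min (2 * M) ((⌈Real.exp (m / h)⌉₊ : ℝ) - 1)), ψ π := by
  have h1 : ∀ π ∈ GP M (2 * M), ⌊h * Real.log (nm π)⌋₊ ∈ VV h M (2 * M) := by
    intro π hπ
    rw [mem_GP] at hπ
    obtain ⟨-, -, -, -, h5, h6⟩ := hπ
    rw [VV, mem_Icc]
    have hn : (0 : ℝ) < nm π := by linarith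
    constructor
    · apply Nat.floor_mono
      apply mul_le_mul_of_nonneg_left _ hh.le
      exact Real.log_le_log (by linarith) h5.le
    · apply Nat.floor_mono
      apply mul_le_mul_of_nonneg_left _ hh.le
      exact Real.log_le_log hn h6
  have h2 : GP M (min (2 * M) ((⌈Real.exp (m / h)⌉₊ : ℝ) - 1)) =
      (GP M (2 * M)).filter (fun π => ⌊h * Real.log (nm π)⌋₊ < m) := by
    ext π
    rw [mem_filter, mem_GP, mem_GP]
    constructor
    · rintro ⟨a1, a2, a3, a4, a5, a6⟩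
      refine ⟨⟨a1, a2, a3, a4, a5, a6.trans (min_le_left _ _)⟩, ?_⟩
      have hn : (0 : ℝ) < nm π := by linarith
      have h3 : (nm π : ℝ) ≤ (⌈Real.exp (m / h)⌉₊ : ℝ) - 1 := a6.trans (min_le_right _ _)
      have h4 : nm π < ⌈Real.exp (m / h)⌉₊ := by
        have : (nm π : ℝ) < (⌈Real.exp (m / h)⌉₊ : ℝ) := by linarith
        exact_mod_cast this
      rw [Nat.lt_ceil, ← Real.log_lt_iff_lt_exp hn, lt_div_iff₀ hh, mul_comm] at h4
      rw [Nat.floor_lt (mul_nonneg hh.le (Real.log_nonneg (by linarith)))]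
      exact h4
    · rintro ⟨⟨a1, a2, a3, a4, a5, a6⟩, a7⟩
      refine ⟨a1, a2, a3, a4, a5, le_min a6 ?_⟩
      have hn : (0 : ℝ) < nm π := by linarith
      rw [Nat.floor_lt (mul_nonneg hh.le (Real.log_nonneg (by linarith))), mul_comm,
        ← lt_div_iff₀ hh, Real.log_lt_iff_lt_exp hn, ← Nat.lt_ceil] at a7
      have : (nm π : ℝ) + 1 ≤ (⌈Real.exp (m / h)⌉₊ : ℝ) := by exact_mod_cast a7
      linarith
  rw [h2, sum_filter, sum_filter]
  have h3 : ∀ v ∈ VV h M (2 * M), (if v < m then ∑ π ∈ cell h M (2 * M) v, ψ π else 0) =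
      ∑ π ∈ GP M (2 * M), if ⌊h * Real.log (nm π)⌋₊ = v then
        (if ⌊h * Real.log (nm π)⌋₊ < m then ψ π else 0) else 0 := by
    intro v _
    rw [cell, sum_filter]
    by_cases hv : v < m
    · rw [if_pos hv]
      refine sum_congr rfl fun π _ => ?_
      by_cases h4 : ⌊h * Real.log (nm π)⌋₊ = v
      · rw [if_pos h4, if_pos h4, if_pos (h4 ▸ hv)]
      · rw [if_neg h4, if_neg h4]
    · rw [if_neg hv]
      symm
      refine sum_eq_zero fun π _ => ?_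
      by_cases h4 : ⌊h * Real.log (nm π)⌋₊ = v
      · rw [if_pos h4, if_neg (h4 ▸ hv)]
      · rw [if_neg h4]
  rw [sum_congr rfl h3, sum_comm]
  refine sum_congr rfl fun π hπ => ?_
  rw [sum_ite_eq, if_pos (h1 π hπ)]

end PSMM

open PSMM in
theorem specPSM (hPHX : PH.SpecPHX) (hSIZ : SpecSIZ) : SpecPSM := by
  intro δ hδ
  refine (hSIZ.and (ph hPHX (δ / 6) (by positivity))).mono ?_
  rintro p B U b y ⟨hs, hp⟩ i hi hne m
  have hh : 0 < p.h := by linarith [hs.h1]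
  have hN1 : 1 < p.N := by linarith [hs.N1]
  have hN0 : 0 < p.N := by linarith
  have hlN : 0 < Real.log p.N := by linarith [hs.l1]
  have hM1 : 1 ≤ p.M4 := (Real.one_le_rpow hN1.le (by norm_num)).trans hs.M41
  have hM0 : 0 < p.M4 := by linarith
  have hlM : 1 / 3 * Real.log p.N ≤ Real.log p.M4 := by
    rw [← Real.log_rpow hN0]
    exact Real.log_le_log (Real.rpow_pos_of_pos hN0 _) hs.M41
  have hrhs : 0 ≤ δ * p.M4 / Real.log p.N := by positivity
  have h1 : ∑ v ∈ (I4 p).filter (fun v => v < m), S4 p i v =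
      ∑ π ∈ GP p.M4 (min (2 * p.M4) ((⌈Real.exp (m / p.h)⌉₊ : ℝ) - 1)), psi i π :=
    cells hh hM1 m (psi i)
  rw [h1]
  set y' : ℝ := min (2 * p.M4) ((⌈Real.exp (m / p.h)⌉₊ : ℝ) - 1) with hy'
  rcases le_or_gt y' p.M4 with hle | hgt
  · have he : GP p.M4 y' = ∅ := by
      rw [eq_empty_iff_forall_notMem]
      intro π hπ
      rw [mem_GP] at hπ
      linarith [hπ.2.2.2.2.1, hπ.2.2.2.2.2]
    rw [he, sum_empty, norm_zero]
    exact hrhs
  · have hy2 : y' ≤ 2 * p.M4 := min_le_left _ _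
    refine (hp i hi hne p.M4 y' hs.M41 hgt.le (hy2.trans hs.M42)).trans ?_
    have hly : 1 / 3 * Real.log p.N ≤ Real.log y' := hlM.trans (Real.log_le_log hM0 hgt.le)
    have hly0 : 0 < Real.log y' := by linarith
    rw [div_le_div_iff₀ hly0 hlN]
    have h2 : δ / 6 * y' * Real.log p.N ≤ δ / 6 * (2 * p.M4) * Real.log p.N := by
      gcongr
    have h3 : δ * p.M4 * (1 / 3 * Real.log p.N) ≤ δ * p.M4 * Real.log y' := by
      gcongr
    linarith

end Pool.Agent.Lib.MP391708.XM
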