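import Pool.Agent.Lib.MP_391708_nt.X.SpecMT
import Pool.Agent.Lib.MP_391708_nt.MR.Basic

/-!
# THEOREM X (MP_391708), part MT, module RED: the reduction to the trilinear sums (helper92)
-/

set_option autoImplicit false

namespace Pool.Agent.Lib.MP391708.XM

open Finset Filter Topology Pool.Agent.Lib.MP391708.MR
open Pool.Agent.Lib.MP391708.X
open Pool.Agent.Lib.MP391708.XL (gg VQ VS PS)
open scoped ComplexConjugate

namespace REDM

/-- the sieve factors of a line are nonnegative -/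
lemma VQ_nonneg (q : ℕ) (b : ℤ) (S : Finset ℕ) : 0 ≤ VQ q b S := by
  unfold XL.VQ
  refine Finset.prod_nonneg fun p _ => ?_
  unfold XL.gb
  rw [sub_nonneg]
  rcases Nat.eq_zero_or_pos p with h | h
  · subst h
    simp
  · rw [div_le_one (by exact_mod_cast h)]
    have h1 := Finset.card_filter_le (range p) (fun n : ℕ => p ∣ nm (XL.pt n b))
    rw [card_range] at h1
    exact_mod_cast h1

lemma psi_mul {i : Ix} (hi : ChiG (i.1 : Gi) i.2.1) (x y : Gi) :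
    psi i (x * y) = psi i x * psi i y := by
  unfold psi hk
  rw [hi.mul, xi_mul]
  ring

lemma psi_le {i : Ix} (hi : ∀ v, ‖i.2.1 v‖ ≤ 1) {x : Gi} (hx : x ≠ 0) : ‖psi i x‖ ≤ 1 := by
  unfold psi hk
  rw [norm_mul, norm_xi _ hx, mul_one]
  exact hi x

lemma psi_ix1 (x : Gi) : psi ix1 x = 1 := by
  unfold psi hk ix1 xi
  simp

lemma norm_e (k : ℤ) (b : ℕ) (r : ℝ) :
    ‖Complex.exp (-(Complex.I * k * b / (r : ℝ)))‖ = 1 := by
  have h : (-(Complex.I * k * b / ((r : ℝ) : ℂ))) = ((-((k : ℝ) * b / r) : ℝ) : ℂ) * Complex.I := by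
    push_cast
    ring
  rw [h, Complex.norm_exp_ofReal_mul_I]

/-- one term of the expanded main term -/
noncomputable def TM (p : Par) (y : Gi) (b : ℕ) (π z : Gi) (v4 v2 : ℕ) (i : Ix) : ℂ :=
  ((1 / (2 * Real.pi * VP p.w) : ℝ) : ℂ) * (psi i y * psi i π * (GG p i b *
    (psi i z * S4 p i v4 * S2 p i v2 *
      (((1 / rad p y π (⌊p.h * Real.log (nm z)⌋₊ + v4 + v2) : ℝ) : ℂ) *
        Complex.exp (-(Complex.I * i.2.2 * b /
          (rad p y π (⌊p.h * Real.log (nm z)⌋₊ + v4 + v2) : ℝ)))))))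

/-- the main term, expanded -/
lemma expand (p : Par) (U : Finset Ix) (b : ℕ) (y : Gi) (hS : Siz p U b y) :
    ((1 / (2 * Real.pi * VP p.w) : ℝ) : ℂ) * ∑ π ∈ GP p.P (2 * p.P), ∑ i ∈ U,
      psi i y * psi i π * (GG p i b * TT p y π b i) =
    ∑ π ∈ GP p.P (2 * p.P), ∑ z ∈ GP (p.K / nm y) (2 * (p.K / nm y)),
      ∑ v4 ∈ I4 p, ∑ v2 ∈ I2 p, ∑ i ∈ U, TM p y b π z v4 v2 i := by
  rw [Finset.mul_sum]
  refine Finset.sum_congr rfl fun π _ => ?_
  -- the sum over z is the sum over the cells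
  have h1 : ∀ i : Ix, TT p y π b i = ∑ z ∈ GP (p.K / nm y) (2 * (p.K / nm y)),
      ∑ v4 ∈ I4 p, ∑ v2 ∈ I2 p, psi i z * S4 p i v4 * S2 p i v2 *
      (((1 / rad p y π (⌊p.h * Real.log (nm z)⌋₊ + v4 + v2) : ℝ) : ℂ) *
        Complex.exp (-(Complex.I * i.2.2 * b /
          (rad p y π (⌊p.h * Real.log (nm z)⌋₊ + v4 + v2) : ℝ)))) := by
    intro i
    rw [← Finset.sum_fiberwise_of_maps_to (s := GP (p.K / nm y) (2 * (p.K / nm y)))
      (t := I1 p y) (g := fun z => ⌊p.h * Real.log (nm z)⌋₊) (fun z hz => (hS.ce z hz).1)]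
    unfold TT
    refine Finset.sum_congr rfl fun u _ => ?_
    have h2 : ∀ z ∈ (GP (p.K / nm y) (2 * (p.K / nm y))).filter
        (fun z => ⌊p.h * Real.log (nm z)⌋₊ = u),
        (∑ v4 ∈ I4 p, ∑ v2 ∈ I2 p, psi i z * S4 p i v4 * S2 p i v2 *
        (((1 / rad p y π (⌊p.h * Real.log (nm z)⌋₊ + v4 + v2) : ℝ) : ℂ) *
        Complex.exp (-(Complex.I * i.2.2 * b /
          (rad p y π (⌊p.h * Real.log (nm z)⌋₊ + v4 + v2) : ℝ))))) =
        psi i z * ∑ v4 ∈ I4 p, ∑ v2 ∈ I2 p, S4 p i v4 * S2 p i v2 *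
        (((1 / rad p y π (u + v4 + v2) : ℝ) : ℂ) *
        Complex.exp (-(Complex.I * i.2.2 * b / (rad p y π (u + v4 + v2) : ℝ)))) := by
      intro z hz
      rw [(Finset.mem_filter.1 hz).2]
      simp only [Finset.mul_sum, mul_assoc]
    rw [Finset.sum_congr rfl h2, ← Finset.sum_mul]
    have h3 : S1 p y i u = ∑ z ∈ (GP (p.K / nm y) (2 * (p.K / nm y))).filter
        (fun z => ⌊p.h * Real.log (nm z)⌋₊ = u), psi i z := rfl
    rw [← h3]
    simp only [Finset.mul_sum, mul_assoc]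
  rw [Finset.mul_sum]
  have h4 : ∀ i ∈ U, ((1 / (2 * Real.pi * VP p.w) : ℝ) : ℂ) *
      (psi i y * psi i π * (GG p i b * TT p y π b i)) =
      ∑ z ∈ GP (p.K / nm y) (2 * (p.K / nm y)), ∑ v4 ∈ I4 p, ∑ v2 ∈ I2 p,
        TM p y b π z v4 v2 i := by
    intro i _
    rw [h1 i]
    simp only [Finset.mul_sum]
    rfl
  rw [Finset.sum_congr rfl h4, Finset.sum_comm]
  refine Finset.sum_congr rfl fun z _ => ?_
  rw [Finset.sum_comm]
  refine Finset.sum_congr rfl fun v4 _ => ?_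
  rw [Finset.sum_comm]

/-- the bound for one `(π, z, v4, v2)` -/
lemma one_term (p : Par) (U : Finset Ix) (b : ℕ) (y : Gi) (hS : Siz p U b y) (C1 d dr : ℝ)
    (hC1 : 0 ≤ C1) (hd : 0 ≤ d) (hdr : 0 ≤ dr) (hdr2 : dr ≤ 1 / 2)
    (hU : ∀ i ∈ U, ChiG (i.1 : Gi) i.2.1) (hchi : ∀ i ∈ U, ∀ v, ‖i.2.1 v‖ ≤ 1)
    (hVS : 0 ≤ VS b (PS p.w)) (hGG : ∀ i ∈ U, ‖GG p i b‖ ≤ VS b (PS p.w))
    (hVP : 0 < VP p.w) (π z : Gi) (v4 v2 : ℕ)
    (hπ : π ∈ GP p.P (2 * p.P)) (hz : z ∈ GP (p.K / nm y) (2 * (p.K / nm y)))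
    (hv4 : v4 ∈ I4 p) (hv2 : v2 ∈ I2 p)
    (hLIN : ∀ i ∈ U, ‖LL p i (y * z * π) b (v4 + v2) -
      ((rad p y π (⌊p.h * Real.log (nm z)⌋₊ + v4 + v2) / (2 * p.h * nm (y * z * π)) : ℝ) : ℂ) *
        GG p i b * psi i (y * z * π) *
        Complex.exp (-(Complex.I * i.2.2 * b / (rad p y π (⌊p.h * Real.log (nm z)⌋₊ + v4 + v2) : ℝ)))‖ ≤
      d * (rad p y π (⌊p.h * Real.log (nm z)⌋₊ + v4 + v2) / (p.h * nm (y * z * π))) * VS b (PS p.w))
    (hA : ∑ i ∈ U, ‖S4 p i v4‖ * ‖S2 p i v2‖ ≤ C1 * p.M4 * p.M2 / (p.h * Real.log p.N) ^ 2)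
    (hB : ∑ i ∈ U, ‖cc p i v4 v2‖ ≤ C1 * p.M4 * p.M2 / (p.h * Real.log p.N ^ 2 *
      (Real.exp (((v4 + v2 : ℕ) : ℝ) / p.h) * VP p.w)))
    (hR : |RR p (v4 + v2) * p.h /
      (Real.pi * Real.exp (((v4 + v2 : ℕ) : ℝ) / p.h) * VP p.w) - 1| ≤ dr) :
    ∑ i ∈ U, ‖cc p i v4 v2 * LL p i (y * z * π) b (v4 + v2) - TM p y b π z v4 v2 i‖ ≤
      8 * C1 * (d + dr + 1 / p.h) * (VS b (PS p.w) * p.M4 * p.M2 /
        (p.h ^ 2 * Real.log p.N ^ 2 * VP p.w * p.N)) := by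
  have hN : (0 : ℝ) < p.N := lt_of_lt_of_le (by norm_num) hS.N1
  have hh : (0 : ℝ) < p.h := lt_of_lt_of_le (by norm_num) hS.h1
  have hl : (0 : ℝ) < Real.log p.N := lt_of_lt_of_le (by norm_num) hS.l1
  have hM4 : (0 : ℝ) ≤ p.M4 := (Real.rpow_nonneg hN.le _).trans hS.M41
  have hM2 : (0 : ℝ) ≤ p.M2 := (Real.rpow_nonneg hN.le _).trans hS.M21
  have hpi := Real.pi_pos
  obtain ⟨hcu, -, hce1, hce2⟩ := hS.ce z hz
  obtain ⟨hra1, -⟩ := hS.ra π hπ _ hcu v4 hv4 v2 hv2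
  obtain ⟨-, -, -, hnm, hnm0⟩ := hS.om π hπ z hz
  generalize hr : rad p y π (⌊p.h * Real.log (nm z)⌋₊ + v4 + v2) = r at *
  have hr0 : 0 < r := lt_of_lt_of_le (by positivity) hra1
  have hnmR : (0 : ℝ) < (nm (y * z * π) : ℝ) := by exact_mod_cast hnm0
  have hnm1 : (0 : ℝ) < (nm y : ℝ) * nm z * nm π := by rw [← hnm]; exact hnmR
  have hnz : (0 : ℝ) < (nm z : ℝ) := nm_posR (GP_ne_zero hz)
  have hω0 : y * z * π ≠ 0 := by
    intro h0
    rw [h0] at hnm0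
    simp at hnm0
  -- the square of the radius
  generalize hE : Real.exp (((v4 + v2 : ℕ) : ℝ) / p.h) = E at *
  have hE0 : 0 < E := by rw [← hE]; exact Real.exp_pos _
  generalize hu : Real.exp ((⌊p.h * Real.log (nm z)⌋₊ : ℝ) / p.h) = eu at *
  have heu0 : 0 < eu := by rw [← hu]; exact Real.exp_pos _
  have hr2 : r ^ 2 = (nm y : ℝ) * nm π * (eu * E) := by
    rw [← hr, ← hu, ← hE]
    unfold rad
    rw [Real.sq_sqrt (by positivity), ← Real.exp_add]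
    congr 2
    push_cast
    ring
  have hq1 : r ^ 2 ≤ (nm (y * z * π) : ℝ) * E := by
    rw [hr2, hnm]
    have : (nm y : ℝ) * nm π * (eu * E) = ((nm y : ℝ) * nm π * E) * eu := by ring
    rw [this]
    have h2 : (nm y : ℝ) * nm z * nm π * E = ((nm y : ℝ) * nm π * E) * nm z := by ring
    rw [h2]
    exact mul_le_mul_of_nonneg_left hce1 (by positivity)
  have hq2 : (nm (y * z * π) : ℝ) * E * (1 - 1 / p.h) ≤ r ^ 2 := by
    have h1 : 1 - 1 / p.h ≤ Real.exp (-(1 / p.h)) := by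
      have := Real.add_one_le_exp (-(1 / p.h))
      linarith
    have h3 : (nm z : ℝ) * Real.exp (-(1 / p.h)) ≤ eu := by
      calc (nm z : ℝ) * Real.exp (-(1 / p.h)) ≤ (eu * Real.exp (1 / p.h)) * Real.exp (-(1 / p.h)) :=
            mul_le_mul_of_nonneg_right hce2 (Real.exp_pos _).le
        _ = eu := by rw [mul_assoc, ← Real.exp_add]; simp
    calc (nm (y * z * π) : ℝ) * E * (1 - 1 / p.h)
        ≤ (nm (y * z * π) : ℝ) * E * Real.exp (-(1 / p.h)) :=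
          mul_le_mul_of_nonneg_left h1 (by positivity)
      _ = ((nm y : ℝ) * nm π * E) * ((nm z : ℝ) * Real.exp (-(1 / p.h))) := by rw [hnm]; ring
      _ ≤ ((nm y : ℝ) * nm π * E) * eu := mul_le_mul_of_nonneg_left h3 (by positivity)
      _ = r ^ 2 := by rw [hr2]; ring
  -- the number of rough elements
  obtain ⟨ρ, hρ⟩ : ∃ ρ, ρ = RR p (v4 + v2) * p.h / (Real.pi * E * VP p.w) := ⟨_, rfl⟩
  rw [← hρ] at hR
  have hρ1 : 1 / 2 ≤ ρ := by
    have := abs_le.1 hR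
    linarith [this.1]
  have hρ0 : 0 < ρ := lt_of_lt_of_le (by norm_num) hρ1
  have hRR : RR p (v4 + v2) = ρ * (Real.pi * E * VP p.w) / p.h := by
    rw [hρ]
    field_simp
  have hRR0 : 0 < RR p (v4 + v2) := by rw [hRR]; positivity
  -- the coefficients
  have hcoef : |r / (2 * p.h * nm (y * z * π)) / RR p (v4 + v2) - 1 / (2 * Real.pi * VP p.w) * (1 / r)| ≤
      8 / (VP p.w * p.N) * (dr + 1 / p.h) := by
    have h1 : r / (2 * p.h * nm (y * z * π)) / RR p (v4 + v2) - 1 / (2 * Real.pi * VP p.w) * (1 / r) =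
        1 / (2 * Real.pi * VP p.w * r) * ((r ^ 2 / (nm (y * z * π) * E) - ρ) / ρ) := by
      rw [hRR]
      field_simp
    have h2 : |(r ^ 2 / (nm (y * z * π) * E) - ρ) / ρ| ≤ 2 * (dr + 1 / p.h) := by
      rw [abs_div, abs_of_pos hρ0, div_le_iff₀ hρ0]
      have h3 : |r ^ 2 / (nm (y * z * π) * E) - ρ| ≤ dr + 1 / p.h := by
        have h4 : r ^ 2 / (nm (y * z * π) * E) ≤ 1 := by
          rw [div_le_one (by positivity)]
          exact hq1
        have h5 : 1 - 1 / p.h ≤ r ^ 2 / (nm (y * z * π) * E) := by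
          rw [le_div_iff₀ (by positivity), mul_comm]
          exact hq2
        have h6 := abs_le.1 hR
        rw [abs_le]
        constructor
        · linarith [h6.1, h6.2]
        · have : 0 ≤ 1 / p.h := by positivity
          linarith [h6.1, h6.2]
      have h7 : 0 ≤ dr + 1 / p.h := by positivity
      nlinarith
    rw [h1, abs_mul, abs_of_pos (show (0 : ℝ) < 1 / (2 * Real.pi * VP p.w * r) by positivity)]
    have h3 : 1 / (2 * Real.pi * VP p.w * r) ≤ 4 / (VP p.w * p.N) := by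
      rw [div_le_div_iff₀ (by positivity) (by positivity)]
      have h4 : p.N ≤ 8 * r := by linarith
      have h5 : (3 : ℝ) < Real.pi := Real.pi_gt_three
      have h6 : VP p.w * p.N ≤ VP p.w * (8 * r) := mul_le_mul_of_nonneg_left h4 hVP.le
      have h7 : VP p.w * r * 3 ≤ VP p.w * r * Real.pi :=
        mul_le_mul_of_nonneg_left h5.le (by positivity)
      nlinarith [mul_pos hVP hr0]
    calc 1 / (2 * Real.pi * VP p.w * r) * |(r ^ 2 / (nm (y * z * π) * E) - ρ) / ρ|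
        ≤ 4 / (VP p.w * p.N) * (2 * (dr + 1 / p.h)) :=
          mul_le_mul h3 h2 (abs_nonneg _) (by positivity)
      _ = 8 / (VP p.w * p.N) * (dr + 1 / p.h) := by ring
  -- the pointwise bound
  have hpt : ∀ i ∈ U, ‖cc p i v4 v2 * LL p i (y * z * π) b (v4 + v2) - TM p y b π z v4 v2 i‖ ≤
      ‖cc p i v4 v2‖ * (d * (r / (p.h * nm (y * z * π))) * VS b (PS p.w)) +
      ‖S4 p i v4‖ * ‖S2 p i v2‖ * (VS b (PS p.w) * (8 / (VP p.w * p.N) * (dr + 1 / p.h))) := by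
    intro i hi
    have hψ : psi i (y * z * π) = psi i y * psi i z * psi i π := by
      rw [psi_mul (hU i hi), psi_mul (hU i hi)]
    obtain ⟨e, he⟩ : ∃ e : ℂ, e = Complex.exp (-(Complex.I * i.2.2 * b / (r : ℝ))) := ⟨_, rfl⟩
    have he1 : ‖e‖ = 1 := by rw [he]; exact norm_e _ _ _
    have hL := hLIN i hi
    rw [← he] at hL
    have hT : TM p y b π z v4 v2 i = S4 p i v4 * S2 p i v2 * GG p i b * psi i (y * z * π) * e *
        ((1 / (2 * Real.pi * VP p.w) * (1 / r) : ℝ) : ℂ) := by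
      unfold TM
      rw [hr, ← he, hψ]
      push_cast
      ring
    have hM : cc p i v4 v2 * (((r / (2 * p.h * nm (y * z * π)) : ℝ) : ℂ) * GG p i b *
        psi i (y * z * π) * e) = S4 p i v4 * S2 p i v2 * GG p i b * psi i (y * z * π) * e *
        ((r / (2 * p.h * nm (y * z * π)) / RR p (v4 + v2) : ℝ) : ℂ) := by
      unfold X.cc
      push_cast
      ring
    have hdiff : cc p i v4 v2 * LL p i (y * z * π) b (v4 + v2) - TM p y b π z v4 v2 i =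
        cc p i v4 v2 * (LL p i (y * z * π) b (v4 + v2) -
          ((r / (2 * p.h * nm (y * z * π)) : ℝ) : ℂ) * GG p i b * psi i (y * z * π) * e) +
        S4 p i v4 * S2 p i v2 * GG p i b * psi i (y * z * π) * e *
          (((r / (2 * p.h * nm (y * z * π)) / RR p (v4 + v2) -
            1 / (2 * Real.pi * VP p.w) * (1 / r)) : ℝ) : ℂ) := by
      rw [mul_sub, hM, hT, Complex.ofReal_sub]
      ring
    rw [hdiff]
    refine (norm_add_le _ _).trans (add_le_add ?_ ?_)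
    · rw [norm_mul]
      exact mul_le_mul_of_nonneg_left hL (norm_nonneg _)
    · rw [norm_mul, norm_mul, norm_mul, norm_mul, norm_mul, he1, mul_one, Complex.norm_real,
        Real.norm_eq_abs]
      have h1 : ‖S4 p i v4‖ * ‖S2 p i v2‖ * ‖GG p i b‖ * ‖psi i (y * z * π)‖ ≤
          ‖S4 p i v4‖ * ‖S2 p i v2‖ * VS b (PS p.w) * 1 := by
        refine mul_le_mul ?_ (psi_le (hchi i hi) hω0) (norm_nonneg _) (by positivity)
        exact mul_le_mul_of_nonneg_left (hGG i hi) (by positivity)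
      calc ‖S4 p i v4‖ * ‖S2 p i v2‖ * ‖GG p i b‖ * ‖psi i (y * z * π)‖ *
            |r / (2 * p.h * nm (y * z * π)) / RR p (v4 + v2) - 1 / (2 * Real.pi * VP p.w) * (1 / r)|
          ≤ (‖S4 p i v4‖ * ‖S2 p i v2‖ * VS b (PS p.w) * 1) *
            (8 / (VP p.w * p.N) * (dr + 1 / p.h)) :=
            mul_le_mul h1 hcoef (abs_nonneg _) (by positivity)
        _ = _ := by ring
  refine (Finset.sum_le_sum hpt).trans ?_
  rw [Finset.sum_add_distrib, ← Finset.sum_mul, ← Finset.sum_mul]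
  have hk1 : (∑ i ∈ U, ‖cc p i v4 v2‖) * (d * (r / (p.h * nm (y * z * π))) * VS b (PS p.w)) ≤
      8 * C1 * d * (VS b (PS p.w) * p.M4 * p.M2 /
        (p.h ^ 2 * Real.log p.N ^ 2 * VP p.w * p.N)) := by
    have h1 : r / (nm (y * z * π) * E) ≤ 8 / p.N := by
      rw [div_le_div_iff₀ (by positivity) hN]
      have h2 : r * p.N ≤ r * (8 * r) := mul_le_mul_of_nonneg_left (by linarith) hr0.le
      nlinarith
    calc (∑ i ∈ U, ‖cc p i v4 v2‖) * (d * (r / (p.h * nm (y * z * π))) * VS b (PS p.w))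
        ≤ (C1 * p.M4 * p.M2 / (p.h * Real.log p.N ^ 2 * (E * VP p.w))) *
          (d * (r / (p.h * nm (y * z * π))) * VS b (PS p.w)) :=
          mul_le_mul_of_nonneg_right hB (by positivity)
      _ = (C1 * d * (VS b (PS p.w) * p.M4 * p.M2 / (p.h ^ 2 * Real.log p.N ^ 2 * VP p.w))) *
          (r / (nm (y * z * π) * E)) := by
          field_simp
      _ ≤ (C1 * d * (VS b (PS p.w) * p.M4 * p.M2 / (p.h ^ 2 * Real.log p.N ^ 2 * VP p.w))) *
          (8 / p.N) := mul_le_mul_of_nonneg_left h1 (by positivity)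
      _ = _ := by
          field_simp
  have hk2 : (∑ i ∈ U, ‖S4 p i v4‖ * ‖S2 p i v2‖) *
      (VS b (PS p.w) * (8 / (VP p.w * p.N) * (dr + 1 / p.h))) ≤
      8 * C1 * (dr + 1 / p.h) * (VS b (PS p.w) * p.M4 * p.M2 /
        (p.h ^ 2 * Real.log p.N ^ 2 * VP p.w * p.N)) := by
    calc (∑ i ∈ U, ‖S4 p i v4‖ * ‖S2 p i v2‖) *
          (VS b (PS p.w) * (8 / (VP p.w * p.N) * (dr + 1 / p.h)))
        ≤ (C1 * p.M4 * p.M2 / (p.h * Real.log p.N) ^ 2) *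
          (VS b (PS p.w) * (8 / (VP p.w * p.N) * (dr + 1 / p.h))) :=
          mul_le_mul_of_nonneg_right hA (by positivity)
      _ = _ := by
          field_simp
  calc _ ≤ 8 * C1 * d * (VS b (PS p.w) * p.M4 * p.M2 /
        (p.h ^ 2 * Real.log p.N ^ 2 * VP p.w * p.N)) + 8 * C1 * (dr + 1 / p.h) *
        (VS b (PS p.w) * p.M4 * p.M2 / (p.h ^ 2 * Real.log p.N ^ 2 * VP p.w * p.N)) :=
        add_le_add hk1 hk2
    _ = _ := by ring

/-- the number of the `z₁` -/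
lemma card_Z (p : Par) (U : Finset Ix) (b : ℕ) (y : Gi) (hS : Siz p U b y) (C3 : ℝ)
    (hC3 : 0 ≤ C3) (h1 : ix1 ∈ U)
    (hC : ∀ u ∈ I1 p y, ∑ i ∈ U, ‖S1 p y i u‖ ^ 2 ≤
      (C3 * (p.K / nm y) / (p.h * Real.log p.N)) ^ 2) :
    ((GP (p.K / nm y) (2 * (p.K / nm y))).card : ℝ) ≤ C3 * (p.K / nm y) / Real.log p.N := by
  have hN : (0 : ℝ) < p.N := lt_of_lt_of_le (by norm_num) hS.N1
  have hh : (0 : ℝ) < p.h := lt_of_lt_of_le (by norm_num) hS.h1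
  have hl : (0 : ℝ) < Real.log p.N := lt_of_lt_of_le (by norm_num) hS.l1
  have hK : (0 : ℝ) ≤ p.K / nm y := (Real.rpow_nonneg hN.le _).trans hS.K1
  have h2 : (GP (p.K / nm y) (2 * (p.K / nm y))).card = ∑ u ∈ I1 p y,
      ((GP (p.K / nm y) (2 * (p.K / nm y))).filter
        (fun z => ⌊p.h * Real.log (nm z)⌋₊ = u)).card :=
    Finset.card_eq_sum_card_fiberwise (fun z hz => (hS.ce z hz).1)
  have h3 : ∀ u ∈ I1 p y, ((((GP (p.K / nm y) (2 * (p.K / nm y))).filter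
      (fun z => ⌊p.h * Real.log (nm z)⌋₊ = u)).card : ℕ) : ℝ) ≤
      C3 * (p.K / nm y) / (p.h * Real.log p.N) := by
    intro u hu
    have h4 : ‖S1 p y ix1 u‖ ^ 2 ≤ (C3 * (p.K / nm y) / (p.h * Real.log p.N)) ^ 2 :=
      (Finset.single_le_sum (f := fun i => ‖S1 p y i u‖ ^ 2) (fun i _ => by positivity) h1).trans
        (hC u hu)
    have h5 : ‖S1 p y ix1 u‖ ≤ C3 * (p.K / nm y) / (p.h * Real.log p.N) :=
      le_of_sq_le_sq h4 (by positivity)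
    have h6 : S1 p y ix1 u = ((((GP (p.K / nm y) (2 * (p.K / nm y))).filter
        (fun z => ⌊p.h * Real.log (nm z)⌋₊ = u)).card : ℕ) : ℂ) := by
      unfold S1
      rw [Finset.sum_congr rfl fun z _ => psi_ix1 z]
      simp only [Finset.sum_const, nsmul_eq_mul, mul_one]
      rfl
    rw [h6, Complex.norm_natCast] at h5
    exact h5
  rw [h2]
  push_cast
  refine (Finset.sum_le_sum h3).trans ?_
  rw [Finset.sum_const, nsmul_eq_mul]
  calc ((I1 p y).card : ℝ) * (C3 * (p.K / nm y) / (p.h * Real.log p.N))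
      ≤ p.h * (C3 * (p.K / nm y) / (p.h * Real.log p.N)) :=
        mul_le_mul_of_nonneg_right hS.c1 (by positivity)
    _ = C3 * (p.K / nm y) / Real.log p.N := by
        field_simp

/-- the reduction in one context -/
lemma core (p : Par) (U : Finset Ix) (b : ℕ) (y : Gi) (hS : Siz p U b y) (C1 C3 d dr : ℝ)
    (hC1 : 0 ≤ C1) (hC3 : 0 ≤ C3) (hd : 0 ≤ d) (hdr : 0 ≤ dr) (hdr2 : dr ≤ 1 / 2)
    (h1 : ix1 ∈ U)
    (hU : ∀ i ∈ U, ChiG (i.1 : Gi) i.2.1) (hchi : ∀ i ∈ U, ∀ v, ‖i.2.1 v‖ ≤ 1)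
    (hVS : 0 ≤ VS b (PS p.w)) (hGG : ∀ i ∈ U, ‖GG p i b‖ ≤ VS b (PS p.w))
    (hVP : 0 < VP p.w)
    (hEXC : sy p y b (Kap p U) =
      ∑ π ∈ GP p.P (2 * p.P), ∑ z ∈ GP (p.K / nm y) (2 * (p.K / nm y)),
      ∑ v4 ∈ I4 p, ∑ v2 ∈ I2 p, ∑ i ∈ U, cc p i v4 v2 * LL p i (y * z * π) b (v4 + v2))
    (hLIN : ∀ i ∈ U, ∀ π ∈ GP p.P (2 * p.P),
      ∀ z ∈ GP (p.K / nm y) (2 * (p.K / nm y)), ∀ v4 ∈ I4 p, ∀ v2 ∈ I2 p,
      ‖LL p i (y * z * π) b (v4 + v2) -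
      ((rad p y π (⌊p.h * Real.log (nm z)⌋₊ + v4 + v2) / (2 * p.h * nm (y * z * π)) : ℝ) : ℂ) *
        GG p i b * psi i (y * z * π) *
        Complex.exp (-(Complex.I * i.2.2 * b / (rad p y π (⌊p.h * Real.log (nm z)⌋₊ + v4 + v2) : ℝ)))‖ ≤
      d * (rad p y π (⌊p.h * Real.log (nm z)⌋₊ + v4 + v2) / (p.h * nm (y * z * π))) * VS b (PS p.w))
    (hCC : ∀ v4 ∈ I4 p, ∀ v2 ∈ I2 p,
      ∑ i ∈ U, ‖S4 p i v4‖ * ‖S2 p i v2‖ ≤ C1 * p.M4 * p.M2 / (p.h * Real.log p.N) ^ 2 ∧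
      ∑ i ∈ U, ‖cc p i v4 v2‖ ≤ C1 * p.M4 * p.M2 / (p.h * Real.log p.N ^ 2 *
        (Real.exp (((v4 + v2 : ℕ) : ℝ) / p.h) * VP p.w)))
    (hR : ∀ v4 ∈ I4 p, ∀ v2 ∈ I2 p, |RR p (v4 + v2) * p.h /
      (Real.pi * Real.exp (((v4 + v2 : ℕ) : ℝ) / p.h) * VP p.w) - 1| ≤ dr)
    (hC : ∀ u ∈ I1 p y, ∑ i ∈ U, ‖S1 p y i u‖ ^ 2 ≤
      (C3 * (p.K / nm y) / (p.h * Real.log p.N)) ^ 2) :
    ‖sy p y b (Kap p U) - ((1 / (2 * Real.pi * VP p.w) : ℝ) : ℂ) *
      ∑ π ∈ GP p.P (2 * p.P), ∑ i ∈ U, psi i y * psi i π * (GG p i b * TT p y π b i)‖ ≤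
    8 * C1 * C3 * (d + dr + 1 / p.h) * XX p y b := by
  have hN : (0 : ℝ) < p.N := lt_of_lt_of_le (by norm_num) hS.N1
  have hh : (0 : ℝ) < p.h := lt_of_lt_of_le (by norm_num) hS.h1
  have hl : (0 : ℝ) < Real.log p.N := lt_of_lt_of_le (by norm_num) hS.l1
  have hM4 : (0 : ℝ) ≤ p.M4 := (Real.rpow_nonneg hN.le _).trans hS.M41
  have hM2 : (0 : ℝ) ≤ p.M2 := (Real.rpow_nonneg hN.le _).trans hS.M21
  have hK : (0 : ℝ) ≤ p.K / nm y := (Real.rpow_nonneg hN.le _).trans hS.K1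
  obtain ⟨B0, hB0⟩ : ∃ B0, B0 = 8 * C1 * (d + dr + 1 / p.h) * (VS b (PS p.w) * p.M4 * p.M2 /
        (p.h ^ 2 * Real.log p.N ^ 2 * VP p.w * p.N)) := ⟨_, rfl⟩
  have hB00 : 0 ≤ B0 := by rw [hB0]; positivity
  rw [hEXC, expand p U b y hS]
  simp only [← Finset.sum_sub_distrib]
  have hsum : ‖∑ π ∈ GP p.P (2 * p.P), ∑ z ∈ GP (p.K / nm y) (2 * (p.K / nm y)),
      ∑ v4 ∈ I4 p, ∑ v2 ∈ I2 p, ∑ i ∈ U, (cc p i v4 v2 * LL p i (y * z * π) b (v4 + v2) -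
        TM p y b π z v4 v2 i)‖ ≤
      ∑ _π ∈ GP p.P (2 * p.P), ∑ _z ∈ GP (p.K / nm y) (2 * (p.K / nm y)),
      ∑ _v4 ∈ I4 p, ∑ _v2 ∈ I2 p, B0 := by
    refine (norm_sum_le _ _).trans (Finset.sum_le_sum fun π hπ => ?_)
    refine (norm_sum_le _ _).trans (Finset.sum_le_sum fun z hz => ?_)
    refine (norm_sum_le _ _).trans (Finset.sum_le_sum fun v4 hv4 => ?_)
    refine (norm_sum_le _ _).trans (Finset.sum_le_sum fun v2 hv2 => ?_)
    refine (norm_sum_le _ _).trans ?_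
    rw [hB0]
    exact one_term p U b y hS C1 d dr hC1 hd hdr hdr2 hU hchi hVS hGG hVP π z v4 v2 hπ hz hv4 hv2
      (fun i hi => hLIN i hi π hπ z hz v4 hv4 v2 hv2) (hCC v4 hv4 v2 hv2).1 (hCC v4 hv4 v2 hv2).2
      (hR v4 hv4 v2 hv2)
  refine hsum.trans ?_
  simp only [Finset.sum_const, nsmul_eq_mul]
  have hz := card_Z p U b y hS C3 hC3 h1 hC
  calc ((GP p.P (2 * p.P)).card : ℝ) * (((GP (p.K / nm y) (2 * (p.K / nm y))).card : ℝ) *
        (((I4 p).card : ℝ) * (((I2 p).card : ℝ) * B0)))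
      ≤ ((GP p.P (2 * p.P)).card : ℝ) * ((C3 * (p.K / nm y) / Real.log p.N) *
        (p.h * (p.h * B0))) := by
        refine mul_le_mul_of_nonneg_left ?_ (by positivity)
        refine mul_le_mul hz ?_ (by positivity) (by positivity)
        refine mul_le_mul hS.c4 ?_ (by positivity) (by positivity)
        exact mul_le_mul_of_nonneg_right hS.c2 hB00
    _ = 8 * C1 * C3 * (d + dr + 1 / p.h) * XX p y b := by
        rw [hB0]
        unfold XX Z0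
        field_simp

end REDM

open REDM in
theorem specRED (hEXC : SpecEXC) (hLIN : SpecLIN) (hCCB : SpecCCB) (hRRA : SpecRRA)
    (hSIZ : SpecSIZ) (hCE3 : SpecCE3) (hHGT : SpecHGT) (hLSM : XL.SpecLSM) (hCHB : XL.SpecCHB) :
    SpecRED := by
  intro δ hδ
  obtain ⟨C1, hC1, hCC⟩ := hCCB
  obtain ⟨C3, hC3, hCE⟩ := hCE3
  obtain ⟨-, -, -, hC, -, c, hc, hE⟩ := hLSM
  obtain ⟨e, he⟩ : ∃ e, e = min (1 / 2) (δ / (24 * C1 * C3)) := ⟨_, rfl⟩
  have he0 : 0 < e := by rw [he]; positivity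
  have he1 : e ≤ 1 / 2 := by rw [he]; exact min_le_left _ _
  have he2 : 24 * C1 * C3 * e ≤ δ := by
    have h1 : e ≤ δ / (24 * C1 * C3) := by rw [he]; exact min_le_right _ _
    rw [le_div_iff₀ (by positivity)] at h1
    linarith
  have hall := ((((((hLIN e he0).and hCC).and (hRRA e he0)).and hSIZ).and hCE).and
    (hHGT (1 / e))).and EV.uok
  refine hall.mono ?_
  rintro p B U b y ⟨⟨⟨⟨⟨⟨kLIN, kCC⟩, kRR⟩, kS⟩, kCE⟩, kH⟩, kU⟩
  have hh : (0 : ℝ) < p.h := lt_of_lt_of_le (by norm_num) kS.h1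
  have hVS : 0 < VS b (PS p.w) := (hE b p.w kS.w1).2.1
  have hGG : ∀ i ∈ U, ‖GG p i b‖ ≤ VS b (PS p.w) := by
    intro i hi
    have h1 := (hC i.1 i.2.1 b p.w (kU.2 i hi).1 (le_trans zero_le_one kS.w1) (kU.2 i hi).2.1).1
    unfold GG
    rw [norm_mul, Complex.norm_real, Real.norm_eq_abs, abs_of_nonneg (VQ_nonneg _ _ _), mul_comm]
    exact h1
  have hmain := core p U b y kS C1 C3 e e hC1.le hC3.le he0.le he0.le he1 kU.1
    (fun i hi => (kU.2 i hi).2.1)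
    (fun i hi => (hCHB i.1 i.2.1 (kU.2 i hi).1 (kU.2 i hi).2.1).2.2)
    hVS.le hGG kRR.1 (hEXC p U b y) kLIN kCC kRR.2.2 kCE.1
  refine hmain.trans ?_
  have hXX : 0 ≤ XX p y b := by
    have hN : (0 : ℝ) < p.N := lt_of_lt_of_le (by norm_num) kS.N1
    have hl : (0 : ℝ) < Real.log p.N := lt_of_lt_of_le (by norm_num) kS.l1
    have hM4 : (0 : ℝ) ≤ p.M4 := (Real.rpow_nonneg hN.le _).trans kS.M41
    have hM2 : (0 : ℝ) ≤ p.M2 := (Real.rpow_nonneg hN.le _).trans kS.M21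
    have hK : (0 : ℝ) ≤ p.K / nm y := (Real.rpow_nonneg hN.le _).trans kS.K1
    have hVP := kRR.1
    unfold XX Z0
    positivity
  refine mul_le_mul_of_nonneg_right ?_ hXX
  have h1 : 1 / p.h ≤ e := by
    rw [div_le_iff₀ hh]
    rw [div_le_iff₀ he0] at kH
    linarith
  have h2 : 8 * C1 * C3 * (e + e + 1 / p.h) ≤ 8 * C1 * C3 * (e + e + e) :=
    mul_le_mul_of_nonneg_left (by linarith) (by positivity)
  linarith

end Pool.Agent.Lib.MP391708.XM
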