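import Pool.Agent.Lib.MP_391708_nt.X.SpecMT
import Pool.Agent.Lib.MP_391708_nt.X.RRA
import Pool.Agent.Lib.MP_391708_nt.MR.Basic

/-!
# THEOREM X (MP_391708), part MT, module RRA: the number of rough elements of a lattice cell
-/

set_option autoImplicit false

namespace Pool.Agent.Lib.MP391708.XM

open Finset Filter Topology Pool.Agent.Lib.MP391708.MR
open Pool.Agent.Lib.MP391708.X

namespace RRAM

lemma two_le_nm {π : Gi} (h : Prime π) : (2 : ℝ) ≤ nm π := by
  have h1 : nm π ≠ 0 := fun h0 => h.ne_zero (nm_eq_zero.1 h0)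
  have h2 : nm π ≠ 1 := fun h0 => h.not_isUnit (isUnit_iff_nm.2 h0)
  have h3 : 2 ≤ nm π := by omega
  exact_mod_cast h3

lemma sum_inv (n : ℕ) : ∑ z ∈ disc (2 ^ n), 1 / (nm z : ℝ) ≤ 9 + 18 * n := by
  induction n with
  | zero =>
    calc ∑ z ∈ disc (2 ^ 0), 1 / (nm z : ℝ) ≤ ∑ z ∈ disc (2 ^ 0), (1 : ℝ) := by
          apply sum_le_sum
          intro z hz
          have h1 := one_le_nm (mem_disc.1 hz).1
          rw [div_le_one (by linarith)]
          exact h1
      _ = ((disc (2 ^ 0)).card : ℝ) := by simp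
      _ ≤ 9 * 2 ^ 0 := card_disc_le (by norm_num)
      _ = 9 + 18 * ((0 : ℕ) : ℝ) := by norm_num
  | succ n ih =>
    have h2 : (2 : ℝ) ^ n ≤ 2 ^ (n + 1) := pow_le_pow_right₀ (by norm_num) (Nat.le_succ _)
    rw [disc_union h2, sum_union (disc_disjoint _ _)]
    have hpos : (0 : ℝ) < 2 ^ n := by positivity
    have h3 : ∑ z ∈ ann (2 ^ n) (2 ^ (n + 1)), 1 / (nm z : ℝ) ≤ 18 := by
      calc ∑ z ∈ ann (2 ^ n) (2 ^ (n + 1)), 1 / (nm z : ℝ)
          ≤ ∑ z ∈ ann (2 ^ n) (2 ^ (n + 1)), 1 / (2 : ℝ) ^ n := by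
            apply sum_le_sum
            intro z hz
            rw [mem_ann] at hz
            exact one_div_le_one_div_of_le hpos hz.2.1.le
        _ = ((ann (2 ^ n) (2 ^ (n + 1))).card : ℝ) * (1 / (2 : ℝ) ^ n) := by
            rw [sum_const, nsmul_eq_mul]
        _ ≤ (9 * 2 ^ (n + 1)) * (1 / (2 : ℝ) ^ n) := by
            apply mul_le_mul_of_nonneg_right _ (by positivity)
            refine le_trans ?_ (card_disc_le (x := 2 ^ (n + 1)) (by positivity))
            exact_mod_cast card_le_card (ann_subset_disc _ _)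
        _ = 18 := by
            rw [pow_succ]
            field_simp
            norm_num
    push_cast
    linarith

lemma mem_PI {w : ℝ} {π : Gi} (h : π ∈ PI w) : π ∈ disc w ∧ Prime π := by
  classical
  unfold PI at h
  rw [mem_filter] at h
  exact ⟨h.1, h.2.1⟩

lemma one_sub_ge {n : ℝ} (hn : 2 ≤ n) : Real.exp (-(2 * (1 / n))) ≤ 1 - 1 / n := by
  have h0 : 0 < n := by linarith
  have h1 : 0 < 1 - 1 / n := by
    have : 1 / n ≤ 1 / 2 := one_div_le_one_div_of_le (by norm_num) hn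
    linarith
  rw [← Real.le_log_iff_exp_le h1]
  have h2 := Real.one_sub_inv_le_log_of_pos h1
  refine le_trans ?_ h2
  have h3 : (1 - 1 / n)⁻¹ = n / (n - 1) := by
    have : n - 1 ≠ 0 := by
      intro h
      linarith
    field_simp
  rw [h3]
  have h4 : 0 < n - 1 := by linarith
  have h5 : n / (n - 1) ≤ 1 + 2 * (1 / n) := by
    rw [div_le_iff₀ h4]
    have h6 : (1 + 2 * (1 / n)) * (n - 1) = n + 1 - 2 * (1 / n) := by
      field_simp
      ring
    rw [h6]
    have : 1 / n ≤ 1 / 2 := one_div_le_one_div_of_le (by norm_num) hn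
    linarith
  linarith

lemma VP_ge_pow {w : ℝ} {n : ℕ} (hw : w ≤ 2 ^ n) : Real.exp (-(2 * (9 + 18 * n))) ≤ VP w := by
  classical
  unfold VP
  have h1 : ∏ π ∈ PI w, Real.exp (-(2 * (1 / (nm π : ℝ)))) ≤ ∏ π ∈ PI w, (1 - 1 / (nm π : ℝ)) := by
    apply Finset.prod_le_prod
    · intro π _
      exact (Real.exp_pos _).le
    · intro π hπ
      exact one_sub_ge (two_le_nm (mem_PI hπ).2)
  refine le_trans ?_ h1
  rw [← Real.exp_sum, sum_neg_distrib, ← mul_sum]
  apply Real.exp_le_exp.2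
  have h2 : ∑ π ∈ PI w, 1 / (nm π : ℝ) ≤ ∑ z ∈ disc (2 ^ n), 1 / (nm z : ℝ) := by
    apply sum_le_sum_of_subset_of_nonneg
    · intro π hπ
      exact disc_subset hw (mem_PI hπ).1
    · intro z _ _
      positivity
  have h3 := sum_inv n
  linarith

lemma VP_ge {w : ℝ} (hw : 1 ≤ w) : Real.exp (-54) * w ^ (-72 : ℝ) ≤ VP w := by
  have hw0 : 0 < w := by linarith
  have h1 : w ≤ 2 ^ ⌈Real.logb 2 w⌉₊ := by
    have h2 : w = (2 : ℝ) ^ Real.logb 2 w := (Real.rpow_logb (by norm_num) (by norm_num) hw0).symm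
    have h3 : (2 : ℝ) ^ Real.logb 2 w ≤ 2 ^ ((⌈Real.logb 2 w⌉₊ : ℕ) : ℝ) :=
      Real.rpow_le_rpow_of_exponent_le (by norm_num) (Nat.le_ceil _)
    rw [Real.rpow_natCast] at h3
    linarith
  refine le_trans ?_ (VP_ge_pow h1)
  have h4 : w ^ (-72 : ℝ) = Real.exp (-72 * Real.log w) := by
    rw [Real.rpow_def_of_pos hw0]
    congr 1
    ring
  rw [h4, ← Real.exp_add]
  apply Real.exp_le_exp.2
  have h5 : 0 ≤ Real.logb 2 w := Real.logb_nonneg (by norm_num) hw
  have h6 : ((⌈Real.logb 2 w⌉₊ : ℕ) : ℝ) < Real.logb 2 w + 1 := Nat.ceil_lt_add_one h5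
  have h7 : Real.logb 2 w ≤ 2 * Real.log w := by
    have h8 : 0 ≤ Real.log w := Real.log_nonneg hw
    have h9 : (1 / 2 : ℝ) ≤ Real.log 2 := by linarith [Real.log_two_gt_d9]
    unfold Real.logb
    rw [div_le_iff₀ (by linarith)]
    nlinarith
  linarith

lemma core {R V E h c δ : ℝ} (hV : 0 < V) (hE : 0 < E) (hh : 1 ≤ h)
    (hm : |R - Real.pi * (E * Real.exp (1 / h) - E) * V| ≤ E ^ (1 - c)) (h1 : 1 / h ≤ δ / 2)
    (h2 : h / V ≤ δ / 2 * E ^ c) : |R * h / (Real.pi * E * V) - 1| ≤ δ := by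
  have hh0 : 0 < h := by linarith
  have hpi := Real.pi_pos
  have hpi3 := Real.pi_gt_three
  have hEc : 0 < E ^ c := Real.rpow_pos_of_pos hE c
  have e : R * h / (Real.pi * E * V) - 1 =
      (R - Real.pi * (E * Real.exp (1 / h) - E) * V) * (h / (Real.pi * E * V)) +
        h * (Real.exp (1 / h) - 1 - 1 / h) := by
    field_simp
    ring
  have ht0 : 0 < 1 / h := by positivity
  have ht1 : 1 / h ≤ 1 := by
    rw [div_le_one hh0]
    exact hh
  have a1 : |h * (Real.exp (1 / h) - 1 - 1 / h)| ≤ δ / 2 := by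
    have hb := Real.abs_exp_sub_one_sub_id_le (x := 1 / h) (by rw [abs_of_pos ht0]; exact ht1)
    rw [abs_mul, abs_of_pos hh0]
    calc h * |Real.exp (1 / h) - 1 - 1 / h| ≤ h * (1 / h) ^ 2 :=
          mul_le_mul_of_nonneg_left hb hh0.le
      _ = 1 / h := by field_simp
      _ ≤ δ / 2 := h1
  have a2 : |(R - Real.pi * (E * Real.exp (1 / h) - E) * V) * (h / (Real.pi * E * V))| ≤
      δ / 2 := by
    have hq : 0 < h / (Real.pi * E * V) := by positivity
    rw [abs_mul, abs_of_pos hq]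
    have b1 : E ^ (1 - c) = E / E ^ c := by
      rw [Real.rpow_sub hE, Real.rpow_one]
    calc |R - Real.pi * (E * Real.exp (1 / h) - E) * V| * (h / (Real.pi * E * V))
        ≤ E ^ (1 - c) * (h / (Real.pi * E * V)) := mul_le_mul_of_nonneg_right hm hq.le
      _ = (h / V) / E ^ c / Real.pi := by
          rw [b1]
          field_simp
      _ ≤ (h / V) / E ^ c / 1 := by
          apply div_le_div_of_nonneg_left (by positivity) one_pos
          linarith
      _ = (h / V) / E ^ c := div_one _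
      _ ≤ δ / 2 := by
          rw [div_le_iff₀ hEc]
          exact h2
  rw [e]
  refine (abs_add_le _ _).trans ?_
  linarith

end RRAM

open RRAM in
theorem specRRA (hR : X.SpecRG0) (hS : SpecSIZ) : SpecRRA := by
  intro δ hδ cw aU aQ aF h1 h2 h3 h4
  have hcw : 0 < cw := by linarith
  obtain ⟨ch0, hch0⟩ := hS cw aU aQ aF h1 h2 h3 h4
  obtain ⟨c, hc0, hc1, hmain⟩ := X.RRAM.main hR cw hcw
  refine ⟨max ch0 1, fun ch hch => ?_⟩
  have hch1 : 1 ≤ ch := (le_max_right _ _).trans hch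
  obtain ⟨cP0, hcP0⟩ := hch0 ch ((le_max_left _ _).trans hch)
  refine ⟨cP0, fun cP hcP => ?_⟩
  obtain ⟨cT0, hcT0⟩ := hcP0 cP hcP
  refine ⟨cT0, fun cT hcT => ?_⟩
  obtain ⟨cB0, hcB0⟩ := hcT0 cT hcT
  refine ⟨cB0, fun cB hcB => ?_⟩
  have hL : Tendsto Real.log atTop atTop := Real.tendsto_log_atTop
  have ev1 := hL.eventually_ge_atTop (max 1 (2 / δ))
  set κ : ℝ := δ / 2 * Real.exp (-54) with hκ
  have hκ0 : 0 < κ := by positivity
  have ev2 := (isLittleO_log_rpow_rpow_atTop (ch + 72 * cw)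
    (show (0 : ℝ) < 1 / 3 * c by positivity)).bound hκ0
  have ev3 : ∀ᶠ N : ℝ in atTop, N ^ (1 / 3 : ℝ) ≤ N / 20 := by
    have h5 := (tendsto_rpow_atTop (show (0 : ℝ) < 2 / 3 by norm_num)).eventually_ge_atTop (20 : ℝ)
    filter_upwards [h5, eventually_gt_atTop (0 : ℝ)] with N h6 h7
    have h8 : N = N ^ (1 / 3 : ℝ) * N ^ (2 / 3 : ℝ) := by
      rw [← Real.rpow_add h7]
      norm_num
    have h9 : 0 < N ^ (1 / 3 : ℝ) := by positivity
    rw [le_div_iff₀ (by norm_num)]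
    calc N ^ (1 / 3 : ℝ) * 20 ≤ N ^ (1 / 3 : ℝ) * N ^ (2 / 3 : ℝ) :=
          mul_le_mul_of_nonneg_left h6 h9.le
      _ = N := h8.symm
  filter_upwards [hcB0 cB hcB, hmain cT cP ch hch1, ev1, ev2, ev3, eventually_gt_atTop (1 : ℝ)] with
    N hN hm g1 g2 g3 g4 B U b y hc
  have hs : Siz (par N cT cP ch cw) U b y := hN B U b y hc
  have hL1 : 1 ≤ Real.log N := (le_max_left _ _).trans g1
  have hL2 : 2 / δ ≤ Real.log N := (le_max_right _ _).trans g1
  have hL0 : 0 < Real.log N := by linarith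
  have hw1 : 1 ≤ Real.log N ^ cw := Real.one_le_rpow hL1 hcw.le
  have hV := VP_ge hw1
  have hV0 : 0 < VP (Real.log N ^ cw) := lt_of_lt_of_le (by positivity) hV
  have hh1 : 1 ≤ Real.log N ^ ch := Real.one_le_rpow hL1 (by linarith)
  refine ⟨hV0, X.RRAM.VP_le_one _, fun v4 hv4 v2 hv2 => ?_⟩
  have hjj : N / 20 ≤ Real.exp (((v4 + v2 : ℕ) : ℝ) / Real.log N ^ ch) := (hs.jj v4 hv4 v2 hv2).1
  have hEN : N ^ (1 / 3 : ℝ) ≤ Real.exp (((v4 + v2 : ℕ) : ℝ) / Real.log N ^ ch) := g3.trans hjj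
  have hm1 := hm (v4 + v2) hEN
  set E : ℝ := Real.exp (((v4 + v2 : ℕ) : ℝ) / Real.log N ^ ch) with hE
  have hE0 : 0 < E := Real.exp_pos _
  have hx : Real.exp ((((v4 + v2 : ℕ) : ℝ) + 1) / Real.log N ^ ch) =
      E * Real.exp (1 / Real.log N ^ ch) := by
    rw [hE, ← Real.exp_add]
    congr 1
    ring
  rw [hx] at hm1
  have hN0 : 0 < N := by linarith
  rw [Real.norm_of_nonneg (by positivity), Real.norm_of_nonneg (by positivity)] at g2
  suffices key : |RR (par N cT cP ch cw) (v4 + v2) * (Real.log N ^ ch) /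
      (Real.pi * E * VP (Real.log N ^ cw)) - 1| ≤ δ from key
  refine core (h := Real.log N ^ ch) (c := c) hV0 hE0 hh1 hm1 ?_ ?_
  · have h5 : Real.log N ≤ Real.log N ^ ch := by
      calc Real.log N = Real.log N ^ (1 : ℝ) := (Real.rpow_one _).symm
        _ ≤ Real.log N ^ ch := Real.rpow_le_rpow_of_exponent_le hL1 hch1
    rw [div_le_iff₀ (by linarith)]
    have h6 : 2 / δ ≤ Real.log N ^ ch := hL2.trans h5
    rw [div_le_iff₀ hδ] at h6
    linarith
  · have h5 : N ^ (1 / 3 * c) ≤ E ^ c := by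
      rw [Real.rpow_mul hN0.le]
      exact Real.rpow_le_rpow (by positivity) hEN hc0.le
    have h6 : Real.log N ^ ch / VP (Real.log N ^ cw) ≤
        Real.log N ^ ch / (Real.exp (-54) * (Real.log N ^ cw) ^ (-72 : ℝ)) :=
      div_le_div_of_nonneg_left (by positivity) (by positivity) hV
    refine h6.trans ?_
    have h7 : (Real.log N ^ cw) ^ (-72 : ℝ) = (Real.log N ^ (72 * cw))⁻¹ := by
      rw [← Real.rpow_mul hL0.le, ← Real.rpow_neg hL0.le]
      congr 1
      ring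
    rw [h7]
    have h8 : Real.log N ^ ch / (Real.exp (-54) * (Real.log N ^ (72 * cw))⁻¹) =
        Real.log N ^ (ch + 72 * cw) / Real.exp (-54) := by
      rw [Real.rpow_add hL0]
      have : 0 < Real.log N ^ (72 * cw) := by positivity
      field_simp
    rw [h8, div_le_iff₀ (Real.exp_pos _)]
    calc Real.log N ^ (ch + 72 * cw) ≤ κ * N ^ (1 / 3 * c) := g2
      _ = δ / 2 * N ^ (1 / 3 * c) * Real.exp (-54) := by rw [hκ]; ring
      _ ≤ δ / 2 * E ^ c * Real.exp (-54) := by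
          apply mul_le_mul_of_nonneg_right _ (Real.exp_pos _).le
          exact mul_le_mul_of_nonneg_left h5 (by positivity)

end Pool.Agent.Lib.MP391708.XM
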