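import Pool.Agent.Lib.MP_391708_nt.X.SpecMT
import Pool.Agent.Lib.MP_391708_nt.MR.Cls

/-!
# THEOREM X (MP_391708), part MT: SIZ, the sizes
-/

set_option autoImplicit false

namespace Pool.Agent.Lib.MP391708.XM

open Finset Filter Topology Pool.Agent.Lib.MP391708.MR
open Pool.Agent.Lib.MP391708.X
open Pool.Agent.Lib.MP391708.XL (gg VQ VS PS)
open scoped ComplexConjugate

namespace SIZM

/-! ## Arithmetic -/

lemma nm_star (z : Gi) : nm (star z) = nm z := by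
  unfold nm
  simp

lemma nm_natCast (n : ℕ) : nm (((n : ℤ) : Gi)) = n ^ 2 := by
  unfold nm
  simp [Int.natAbs_pow]

/-- the product of primitive elements of coprime norms is primitive -/
lemma prim_mul {x y : Gi} (hx : prim x) (hy : prim y) (hc : Nat.Coprime (nm x) (nm y)) :
    prim (x * y) := by
  rw [Cls.prim_mul_iff]
  refine ⟨hx, hy, ?_⟩
  have h1 : IsCoprime ((nm y : ℤ)) ((nm x : ℤ)) := Nat.isCoprime_iff_coprime.2 hc.symm
  obtain ⟨a, b, hab⟩ := h1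
  refine ⟨(a : Gi) * star y, (b : Gi) * x, ?_⟩
  have e1 : star y * y = ((nm y : ℤ) : Gi) := Cls.star_mul_self y
  have e2 : x * star x = ((nm x : ℤ) : Gi) := Cls.mul_star x
  have e3 : (a : Gi) * ((nm y : ℤ) : Gi) + (b : Gi) * ((nm x : ℤ) : Gi) = 1 := by
    exact_mod_cast congrArg (fun t : ℤ => (t : Gi)) hab
  calc (a : Gi) * star y * y + (b : Gi) * x * star x
      = (a : Gi) * (star y * y) + (b : Gi) * (x * star x) := by ring
    _ = 1 := by rw [e1, e2, e3]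

/-- an element of prime norm is primitive -/
lemma prim_of_prime {z : Gi} (h : (nm z).Prime) : prim z := by
  rw [Cls.prim_iff_prime]
  intro p hp hd
  have h1 : p ^ 2 ∣ nm z := by
    have := nm_dvd hd
    rwa [nm_natCast] at this
  have h2 : p ∣ nm z := (dvd_pow_self p two_ne_zero).trans h1
  have h3 : p = nm z := (Nat.prime_dvd_prime_iff_eq hp h).1 h2
  have h4 := Nat.le_of_dvd h.pos h1
  rw [← h3] at h4
  nlinarith [hp.one_lt]

/-- a Gaussian prime dividing an element of prime norm has the same norm -/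
lemma nm_eq_of_dvd {ρ z : Gi} (hρ : Prime ρ) (hz : (nm z).Prime) (hd : ρ ∣ z) : nm ρ = nm z := by
  have h1 : nm ρ ∣ nm z := nm_dvd hd
  rcases (Nat.dvd_prime hz).1 h1 with h2 | h2
  · exact absurd (isUnit_iff_nm.2 h2) hρ.not_unit
  · exact h2

/-- the norm of a rough element is prime to small numbers -/
lemma coprime_of_rough {y : Gi} {Q : ℝ} {n : ℕ} (hy : y ≠ 0) (hQ : 0 ≤ Q)
    (hr : ∀ π : Gi, Prime π → π ∣ y → Q ^ 2 < (nm π : ℝ)) (hn1 : 1 ≤ n) (hn : (n : ℝ) ≤ Q) :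
    Nat.Coprime (nm y) n := by
  refine Nat.coprime_of_dvd ?_
  intro q hq hqy hqn
  have hq0 : (((q : ℤ)) : Gi) ≠ 0 := by
    intro h
    have := congrArg nm h
    rw [nm_natCast, nm_zero] at this
    have := hq.pos
    simp_all
  have hqu : ¬ IsUnit (((q : ℤ)) : Gi) := by
    intro h
    rw [isUnit_iff_nm, nm_natCast] at h
    have := hq.one_lt
    nlinarith
  obtain ⟨ρ, hρ, hρq⟩ := WfDvdMonoid.exists_irreducible_factor hqu hq0
  have hρp : Prime ρ := irreducible_iff_prime.1 hρ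
  have h1 : ρ ∣ y * star y := by
    rw [Cls.mul_star]
    refine hρq.trans ?_
    rw [Zsqrtd.intCast_dvd_intCast]
    exact Int.natCast_dvd_natCast.2 hqy
  have h2 : Q ^ 2 < (nm ρ : ℝ) := by
    rcases hρp.dvd_or_dvd h1 with h3 | h3
    · exact hr ρ hρp h3
    · have h4 : star ρ ∣ y := by
        have := Cls.star_dvd_star h3
        rwa [star_star] at this
      have h5 : Prime (star ρ) := by
        have := (MulEquiv.prime_iff (starMulAut (R := Gi))).2 hρp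
        exact this
      have := hr (star ρ) h5 h4
      rwa [nm_star] at this
  have h3 : nm ρ ∣ q ^ 2 := by
    have := nm_dvd hρq
    rwa [nm_natCast] at this
  have h4 : nm ρ ≤ q ^ 2 := Nat.le_of_dvd (by have := hq.pos; positivity) h3
  have h5 : q ≤ n := Nat.le_of_dvd hn1 hqn
  have h6 : (q : ℝ) ≤ Q := le_trans (by exact_mod_cast h5) hn
  have h7 : (nm ρ : ℝ) ≤ (q : ℝ) ^ 2 := by exact_mod_cast h4
  have h8 : (q : ℝ) ^ 2 ≤ Q ^ 2 := by
    have : (0 : ℝ) ≤ q := Nat.cast_nonneg q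
    exact pow_le_pow_left₀ this h6 2
  linarith

/-! ## Cells -/

lemma vv_lo {h M : ℝ} {v : ℕ} (hh : 0 < h) (hM : 1 ≤ M) (hv : v ∈ VV h M (2 * M)) :
    M * Real.exp (-(1 / h)) ≤ Real.exp ((v : ℝ) / h) := by
  unfold VV at hv
  rw [mem_Icc] at hv
  have h1 : h * Real.log M < (v : ℝ) + 1 := by
    have h2 := Nat.lt_floor_add_one (h * Real.log M)
    have h3 : ((⌊h * Real.log M⌋₊ : ℕ) : ℝ) ≤ v := by exact_mod_cast hv.1
    linarith
  have h2 : Real.log M - 1 / h ≤ (v : ℝ) / h := by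
    rw [le_div_iff₀ hh, sub_mul]
    have : 1 / h * h = 1 := by field_simp
    rw [this]
    linarith
  calc M * Real.exp (-(1 / h)) = Real.exp (Real.log M) * Real.exp (-(1 / h)) := by
        rw [Real.exp_log (by linarith)]
    _ = Real.exp (Real.log M - 1 / h) := by rw [← Real.exp_add]; ring_nf
    _ ≤ _ := Real.exp_le_exp.2 h2

lemma vv_hi {h M : ℝ} {v : ℕ} (hh : 0 < h) (hM : 1 ≤ M) (hv : v ∈ VV h M (2 * M)) :
    Real.exp ((v : ℝ) / h) ≤ 2 * M := by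
  unfold VV at hv
  rw [mem_Icc] at hv
  have h0 : 0 ≤ h * Real.log (2 * M) := mul_nonneg hh.le (Real.log_nonneg (by linarith))
  have h1 : (v : ℝ) ≤ h * Real.log (2 * M) := by
    have h2 := Nat.floor_le h0
    have h3 : (v : ℝ) ≤ ((⌊h * Real.log (2 * M)⌋₊ : ℕ) : ℝ) := by exact_mod_cast hv.2
    linarith
  have h2 : (v : ℝ) / h ≤ Real.log (2 * M) := by
    rw [div_le_iff₀ hh]; linarith
  calc Real.exp ((v : ℝ) / h) ≤ Real.exp (Real.log (2 * M)) := Real.exp_le_exp.2 h2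
    _ = 2 * M := Real.exp_log (by linarith)

lemma vv_card {h M : ℝ} (hh : 100 ≤ h) (hM : 1 ≤ M) : ((VV h M (2 * M)).card : ℝ) ≤ h := by
  unfold VV
  rw [Nat.card_Icc]
  have h0 : 0 ≤ h * Real.log M := mul_nonneg (by linarith) (Real.log_nonneg hM)
  have h1 := Nat.lt_floor_add_one (h * Real.log M)
  have hl : Real.log (2 * M) = Real.log 2 + Real.log M := Real.log_mul (by norm_num) (by linarith)
  have h2 : ((⌊h * Real.log (2 * M)⌋₊ : ℕ) : ℝ) ≤ h * Real.log (2 * M) := by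
    refine Nat.floor_le (mul_nonneg (by linarith) (Real.log_nonneg (by linarith)))
  have h3 : ⌊h * Real.log M⌋₊ ≤ ⌊h * Real.log (2 * M)⌋₊ := by
    refine Nat.floor_le_floor ?_
    refine mul_le_mul_of_nonneg_left ?_ (by linarith)
    exact Real.log_le_log (by linarith) (by linarith)
  rw [Nat.cast_sub (by omega)]
  push_cast
  have h4 : Real.log 2 < 0.7 := lt_trans Real.log_two_lt_d9 (by norm_num)
  have h5 : h * Real.log (2 * M) = h * Real.log 2 + h * Real.log M := by rw [hl]; ring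
  have h6 : h * Real.log 2 ≤ h * 0.7 := mul_le_mul_of_nonneg_left h4.le (by linarith)
  linarith

/-- `e^(-3/h) ≥ 9/10` and `e^(2/h) ≤ 2` -/
lemma exp_lo {h : ℝ} (hh : 100 ≤ h) : 9 / 10 ≤ Real.exp (-(1 / h)) ^ 3 := by
  rw [← Real.exp_nat_mul]
  have h1 := Real.add_one_le_exp (((3 : ℕ) : ℝ) * (-(1 / h)))
  have h2 : 1 / h ≤ 1 / 100 := one_div_le_one_div_of_le (by norm_num) hh
  push_cast at h1 ⊢
  linarith

lemma exp_hi {h : ℝ} (hh : 100 ≤ h) : Real.exp (2 / h) ≤ 3 := by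
  have h1 : 2 / h ≤ 1 := by
    rw [div_le_one (by linarith)]; linarith
  calc Real.exp (2 / h) ≤ Real.exp 1 := Real.exp_le_exp.2 h1
    _ ≤ 3 := by have := Real.exp_one_lt_d9; linarith

/-! ## The outer point -/

section core

variable {p : Par} {U : Finset Ix} {b : ℕ} {y : Gi} {Q : ℝ}

/-- `om` -/
lemma om_core (hw : p.w ≤ p.P) (hQ : Q ≤ p.P) (hQ2 : Q ^ 2 ≤ p.w) (hQ0 : 0 ≤ Q) (hy : prim y)
    (hyP : (nm y : ℝ) ≤ p.P) (hK : 2 * p.P ≤ p.K / nm y)
    (hU : ∀ i ∈ U, 1 ≤ i.1 ∧ (i.1 : ℝ) ≤ Q)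
    (hr : ∀ π : Gi, Prime π → π ∣ y → p.w < (nm π : ℝ))
    {π z : Gi} (hπ : π ∈ GP p.P (2 * p.P)) (hz : z ∈ GP (p.K / nm y) (2 * (p.K / nm y))) :
    prim (y * z * π) ∧ rgh p.w (y * z * π) ∧ (∀ i ∈ U, Nat.Coprime (nm (y * z * π)) i.1) ∧
    (nm (y * z * π) : ℝ) = nm y * nm z * nm π ∧ 0 < nm (y * z * π) := by
  obtain ⟨_, _, pπ, _, lπ, uπ⟩ := mem_GP.1 hπ
  obtain ⟨_, _, pz, _, lz, _⟩ := mem_GP.1 hz
  have hy0 : y ≠ 0 := prim_ne_zero hy
  have ny : 0 < nm y := nm_pos hy0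
  have hP0 : 0 < p.P := lt_of_lt_of_le (by exact_mod_cast ny) hyP
  have e1 : nm (y * z * π) = nm y * nm z * nm π := by rw [nm_mul, nm_mul]
  have c1 : Nat.Coprime (nm y) (nm z) := by
    refine Nat.Coprime.symm ((Nat.Prime.coprime_iff_not_dvd pz).2 ?_)
    intro hd
    have h1 : (nm z : ℝ) ≤ nm y := by exact_mod_cast Nat.le_of_dvd ny hd
    linarith
  have c2 : Nat.Coprime (nm (y * z)) (nm π) := by
    rw [nm_mul]
    refine Nat.Coprime.mul_left ?_ ?_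
    · refine Nat.Coprime.symm ((Nat.Prime.coprime_iff_not_dvd pπ).2 ?_)
      intro hd
      have h1 : (nm π : ℝ) ≤ nm y := by exact_mod_cast Nat.le_of_dvd ny hd
      linarith
    · rw [Nat.coprime_primes pz pπ]
      intro he
      have h1 : (nm z : ℝ) = nm π := by exact_mod_cast he
      linarith
  refine ⟨prim_mul (prim_mul hy (prim_of_prime pz) c1) (prim_of_prime pπ) c2, ?_, ?_, ?_, ?_⟩
  · intro ρ hρ hd
    rcases hρ.dvd_or_dvd hd with h1 | h1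
    · rcases hρ.dvd_or_dvd h1 with h2 | h2
      · exact hr ρ hρ h2
      · rw [nm_eq_of_dvd hρ pz h2]; linarith
    · rw [nm_eq_of_dvd hρ pπ h1]; linarith
  · intro i hi
    obtain ⟨hi1, hiQ⟩ := hU i hi
    rw [e1]
    refine Nat.Coprime.mul_left (Nat.Coprime.mul_left ?_ ?_) ?_
    · exact coprime_of_rough hy0 hQ0 (fun ρ hρ hd => lt_of_le_of_lt hQ2 (hr ρ hρ hd)) hi1 hiQ
    · refine (Nat.Prime.coprime_iff_not_dvd pz).2 ?_
      intro hd
      have h1 : (nm z : ℝ) ≤ i.1 := by exact_mod_cast Nat.le_of_dvd hi1 hd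
      linarith
    · refine (Nat.Prime.coprime_iff_not_dvd pπ).2 ?_
      intro hd
      have h1 : (nm π : ℝ) ≤ i.1 := by exact_mod_cast Nat.le_of_dvd hi1 hd
      linarith
  · rw [e1]; push_cast; ring
  · rw [e1]
    have := pz.pos
    have := pπ.pos
    positivity

/-- `ce` -/
lemma ce_core (hh : 0 < p.h) (hK : 1 ≤ p.K / nm y) {z : Gi}
    (hz : z ∈ GP (p.K / nm y) (2 * (p.K / nm y))) : ⌊p.h * Real.log (nm z)⌋₊ ∈ I1 p y ∧
    z ∈ cell p.h (p.K / nm y) (2 * (p.K / nm y)) ⌊p.h * Real.log (nm z)⌋₊ ∧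
    Real.exp ((⌊p.h * Real.log (nm z)⌋₊ : ℝ) / p.h) ≤ nm z ∧
    (nm z : ℝ) ≤ Real.exp ((⌊p.h * Real.log (nm z)⌋₊ : ℝ) / p.h) * Real.exp (1 / p.h) := by
  obtain ⟨_, _, pz, _, lz, uz⟩ := mem_GP.1 hz
  have hz0 : (0 : ℝ) < nm z := by exact_mod_cast pz.pos
  have hz1 : (1 : ℝ) ≤ nm z := by linarith
  have hl0 : 0 ≤ p.h * Real.log (nm z) := mul_nonneg hh.le (Real.log_nonneg hz1)
  refine ⟨?_, ?_, ?_, ?_⟩
  · unfold I1 VV
    rw [mem_Icc]
    constructor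
    · refine Nat.floor_le_floor ?_
      exact mul_le_mul_of_nonneg_left (Real.log_le_log (by linarith) lz.le) hh.le
    · refine Nat.floor_le_floor ?_
      exact mul_le_mul_of_nonneg_left (Real.log_le_log hz0 uz) hh.le
  · unfold cell
    rw [mem_filter]
    exact ⟨hz, rfl⟩
  · have h1 : ((⌊p.h * Real.log (nm z)⌋₊ : ℝ)) / p.h ≤ Real.log (nm z) := by
      rw [div_le_iff₀ hh]
      have := Nat.floor_le hl0
      linarith
    calc _ ≤ Real.exp (Real.log (nm z)) := Real.exp_le_exp.2 h1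
      _ = nm z := Real.exp_log hz0
  · rw [← Real.exp_add, ← add_div]
    have h1 : Real.log (nm z) ≤ ((⌊p.h * Real.log (nm z)⌋₊ : ℝ) + 1) / p.h := by
      rw [le_div_iff₀ hh]
      have := Nat.lt_floor_add_one (p.h * Real.log (nm z))
      linarith
    calc (nm z : ℝ) = Real.exp (Real.log (nm z)) := (Real.exp_log hz0).symm
      _ ≤ _ := Real.exp_le_exp.2 h1

/-- the product of the sizes -/
lemma prod_core (hN : 0 < p.N) (hT : 0 < p.T) (hP : 0 < p.P) :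
    16 * p.K * p.P * p.M4 * p.M2 = p.N ^ 2 := by
  unfold Par.K Par.M4 Par.M2
  have h1 : Real.sqrt p.N * Real.sqrt p.N = p.N := Real.mul_self_sqrt hN.le
  have h2 : 16 * (p.N / p.T) * p.P * Real.sqrt p.N * (Real.sqrt p.N * p.T / (16 * p.P)) =
      p.N * (Real.sqrt p.N * Real.sqrt p.N) := by
    field_simp
  rw [h2, h1]; ring

/-- `M4 M2 = N T/(16 P)` -/
lemma mm_core (hN : 0 < p.N) : p.M4 * p.M2 = p.N * p.T / (16 * p.P) := by
  unfold Par.M4 Par.M2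
  have h1 : Real.sqrt p.N * Real.sqrt p.N = p.N := Real.mul_self_sqrt hN.le
  calc Real.sqrt p.N * (Real.sqrt p.N * p.T / (16 * p.P))
      = (Real.sqrt p.N * Real.sqrt p.N) * p.T / (16 * p.P) := by ring
    _ = _ := by rw [h1]

/-- `ra` -/
lemma ra_core (hh : 100 ≤ p.h) (hN : 0 < p.N) (hP : 0 < p.P) (hT : 0 < p.T) (hny : 0 < nm y)
    (hK : 1 ≤ p.K / nm y) (h4 : 1 ≤ p.M4) (h2 : 1 ≤ p.M2) {π : Gi}
    (hπ : π ∈ GP p.P (2 * p.P)) {u v4 v2 : ℕ} (hu : u ∈ I1 p y) (hv4 : v4 ∈ I4 p)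
    (hv2 : v2 ∈ I2 p) :
    p.N / 8 ≤ rad p y π (u + v4 + v2) ∧ rad p y π (u + v4 + v2) ≤ 2 * p.N := by
  obtain ⟨_, _, pπ, _, lπ, uπ⟩ := mem_GP.1 hπ
  have hh0 : 0 < p.h := by linarith
  have hnyR : (0 : ℝ) < nm y := by exact_mod_cast hny
  have hπR : (0 : ℝ) < nm π := by exact_mod_cast pπ.pos
  have lu := vv_lo hh0 hK hu
  have uu := vv_hi hh0 hK hu
  have l4 := vv_lo hh0 h4 hv4
  have u4 := vv_hi hh0 h4 hv4
  have l2 := vv_lo hh0 h2 hv2
  have u2 := vv_hi hh0 h2 hv2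
  have he := exp_lo hh
  set E : ℝ := Real.exp (-(1 / p.h)) with hE
  have hE0 : 0 < E := Real.exp_pos _
  have hexp : Real.exp (((u + v4 + v2 : ℕ) : ℝ) / p.h) =
      Real.exp ((u : ℝ) / p.h) * Real.exp ((v4 : ℝ) / p.h) * Real.exp ((v2 : ℝ) / p.h) := by
    rw [← Real.exp_add, ← Real.exp_add]
    congr 1
    push_cast
    ring
  have hprod := prod_core hN hT hP
  have hKy : p.K / nm y * nm y = p.K := by field_simp
  have hK0 : 0 < p.K / nm y := by linarith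
  have h40 : 0 < p.M4 := by linarith
  have h20 : 0 < p.M2 := by linarith
  -- lower bound
  have low : p.N ^ 2 / 16 * (9 / 10) ≤
      (nm y : ℝ) * nm π * Real.exp (((u + v4 + v2 : ℕ) : ℝ) / p.h) := by
    rw [hexp]
    have a1 : (p.K / nm y * E) * (p.M4 * E) * (p.M2 * E) ≤
        Real.exp ((u : ℝ) / p.h) * Real.exp ((v4 : ℝ) / p.h) * Real.exp ((v2 : ℝ) / p.h) := by
      gcongr
    have a2 : (nm y : ℝ) * p.P * ((p.K / nm y * E) * (p.M4 * E) * (p.M2 * E)) ≤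
        (nm y : ℝ) * nm π * (Real.exp ((u : ℝ) / p.h) * Real.exp ((v4 : ℝ) / p.h) *
          Real.exp ((v2 : ℝ) / p.h)) := by
      gcongr
    have a3 : (nm y : ℝ) * p.P * ((p.K / nm y * E) * (p.M4 * E) * (p.M2 * E)) =
        (p.N ^ 2 / 16) * E ^ 3 := by
      rw [← hprod]
      calc _ = (p.K / nm y * nm y) * p.P * p.M4 * p.M2 * E ^ 3 := by ring
        _ = _ := by rw [hKy]; ring
    have a4 : p.N ^ 2 / 16 * (9 / 10) ≤ p.N ^ 2 / 16 * E ^ 3 := by
      gcongr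
    linarith
  have upp : (nm y : ℝ) * nm π * Real.exp (((u + v4 + v2 : ℕ) : ℝ) / p.h) ≤ p.N ^ 2 := by
    rw [hexp]
    have a2 : (nm y : ℝ) * nm π * (Real.exp ((u : ℝ) / p.h) * Real.exp ((v4 : ℝ) / p.h) *
          Real.exp ((v2 : ℝ) / p.h)) ≤
        (nm y : ℝ) * (2 * p.P) * ((2 * (p.K / nm y)) * (2 * p.M4) * (2 * p.M2)) := by
      gcongr
    have a3 : (nm y : ℝ) * (2 * p.P) * ((2 * (p.K / nm y)) * (2 * p.M4) * (2 * p.M2)) = p.N ^ 2 := by
      rw [← hprod]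
      calc _ = 16 * (p.K / nm y * nm y) * p.P * p.M4 * p.M2 := by ring
        _ = _ := by rw [hKy]
    linarith
  unfold rad
  constructor
  · refine Real.le_sqrt_of_sq_le ?_
    have h5 : 0 < p.N ^ 2 := by positivity
    nlinarith
  · refine Real.sqrt_le_iff.2 ⟨by linarith, ?_⟩
    have h5 : 0 < p.N ^ 2 := by positivity
    nlinarith

/-- `jj` -/
lemma jj_core (hh : 100 ≤ p.h) (hN : 0 < p.N) (hP : 0 < p.P) (hPT : 1000 * p.P ≤ p.T)
    (h4 : 1 ≤ p.M4) (h2 : 1 ≤ p.M2)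
    (hnT : 4 * p.M4 * p.M2 * Real.exp (2 / p.h) ≤ p.N * p.T) {v4 v2 : ℕ} (hv4 : v4 ∈ I4 p)
    (hv2 : v2 ∈ I2 p) : p.N / 20 ≤ Real.exp (((v4 + v2 : ℕ) : ℝ) / p.h) ∧
    Real.exp ((((v4 + v2 : ℕ) : ℝ) + 1) / p.h) ≤ p.N * p.T := by
  have hh0 : 0 < p.h := by linarith
  have l4 := vv_lo hh0 h4 hv4
  have u4 := vv_hi hh0 h4 hv4
  have l2 := vv_lo hh0 h2 hv2
  have u2 := vv_hi hh0 h2 hv2
  have he := exp_lo hh
  have h40 : 0 < p.M4 := by linarith
  have h20 : 0 < p.M2 := by linarith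
  have hE1 : Real.exp (-(1 / p.h)) ≤ 1 := by
    rw [Real.exp_le_one_iff]
    have : 0 < 1 / p.h := by positivity
    linarith
  set E : ℝ := Real.exp (-(1 / p.h)) with hE
  have hE0 : 0 < E := Real.exp_pos _
  have hexp : Real.exp (((v4 + v2 : ℕ) : ℝ) / p.h) =
      Real.exp ((v4 : ℝ) / p.h) * Real.exp ((v2 : ℝ) / p.h) := by
    rw [← Real.exp_add]
    congr 1
    push_cast
    ring
  constructor
  · rw [hexp]
    have a1 : (p.M4 * E) * (p.M2 * E) ≤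
        Real.exp ((v4 : ℝ) / p.h) * Real.exp ((v2 : ℝ) / p.h) := by gcongr
    have a2 : (p.M4 * E) * (p.M2 * E) = p.M4 * p.M2 * E ^ 2 := by ring
    have a3 : 9 / 10 ≤ E ^ 2 := by
      have : E ^ 3 ≤ E ^ 2 := pow_le_pow_of_le_one hE0.le hE1 (by norm_num)
      linarith
    have a4 : p.N ≤ p.M4 * p.M2 := by
      rw [mm_core hN, le_div_iff₀ (by positivity)]
      nlinarith
    have a5 : p.N * (9 / 10) ≤ p.M4 * p.M2 * E ^ 2 := by gcongr
    linarith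
  · have hexp2 : Real.exp ((((v4 + v2 : ℕ) : ℝ) + 1) / p.h) =
        Real.exp ((v4 : ℝ) / p.h) * Real.exp ((v2 : ℝ) / p.h) * Real.exp (1 / p.h) := by
      rw [← Real.exp_add, ← Real.exp_add]
      congr 1
      push_cast
      ring
    rw [hexp2]
    have a1 : Real.exp ((v4 : ℝ) / p.h) * Real.exp ((v2 : ℝ) / p.h) * Real.exp (1 / p.h) ≤
        (2 * p.M4) * (2 * p.M2) * Real.exp (2 / p.h) := by
      gcongr
      norm_num
    linarith

end core

/-- all fields, under explicit bounds -/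
lemma core {p : Par} {U : Finset Ix} {b : ℕ} {y : Gi} {Q : ℝ} (N1 : 1000000 ≤ p.N)
    (l1 : 100 ≤ Real.log p.N) (h1 : 100 ≤ p.h) (h2 : p.h ^ 2 ≤ p.N / 10) (w1 : 1 ≤ p.w)
    (P1 : 100 ≤ p.P) (T1 : 1000 * p.P ≤ p.T) (b1 : 1 ≤ b) (b2 : (b : ℝ) ^ 2 ≤ 8 * p.N)
    (hw : p.w ≤ p.P) (hQ : Q ≤ p.P) (hQ2 : Q ^ 2 ≤ p.w) (hQ0 : 0 ≤ Q) (hy : prim y)
    (hyP : (nm y : ℝ) ≤ p.P) (hU : ∀ i ∈ U, 1 ≤ i.1 ∧ (i.1 : ℝ) ≤ Q)
    (hr : ∀ π : Gi, Prime π → π ∣ y → p.w < (nm π : ℝ))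
    (hTy : p.T * nm y ≤ p.N ^ (1 / 10 : ℝ)) (hP2 : 2 * p.P ≤ p.N ^ (9 / 10 : ℝ)) :
    Siz p U b y := by
  have hN0 : 0 < p.N := by linarith
  have hN1 : 1 ≤ p.N := by linarith
  have hP0 : 0 < p.P := by linarith
  have hT0 : 0 < p.T := by linarith
  have hh0 : 0 < p.h := by linarith
  have hny : 1 ≤ nm y := nm_pos (prim_ne_zero hy)
  have hnyR : (1 : ℝ) ≤ nm y := by exact_mod_cast hny
  have hTT : p.T ≤ p.N ^ (1 / 10 : ℝ) := by nlinarith
  have hpow : p.N ^ (9 / 10 : ℝ) * p.N ^ (1 / 10 : ℝ) = p.N := by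
    rw [← Real.rpow_add hN0]
    norm_num
  have h90 : 0 < p.N ^ (9 / 10 : ℝ) := Real.rpow_pos_of_pos hN0 _
  have K1 : p.N ^ (9 / 10 : ℝ) ≤ p.K / nm y := by
    unfold Par.K
    rw [div_div, le_div_iff₀ (by positivity)]
    calc p.N ^ (9 / 10 : ℝ) * (p.T * nm y) ≤ p.N ^ (9 / 10 : ℝ) * p.N ^ (1 / 10 : ℝ) := by gcongr
      _ = p.N := hpow
  have K2 : p.K / nm y ≤ p.N := by
    unfold Par.K
    rw [div_div]
    refine div_le_self hN0.le ?_
    nlinarith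
  have hs0 : 0 < Real.sqrt p.N := Real.sqrt_pos.2 hN0
  have hss : Real.sqrt p.N * Real.sqrt p.N = p.N := Real.mul_self_sqrt hN0.le
  have hs1 : 1000 ≤ Real.sqrt p.N := by
    refine Real.le_sqrt_of_sq_le ?_
    linarith
  have hsq : p.N ^ (1 / 3 : ℝ) ≤ Real.sqrt p.N := by
    rw [Real.sqrt_eq_rpow]
    exact Real.rpow_le_rpow_of_exponent_le hN1 (by norm_num)
  have h10 : p.N ^ (1 / 10 : ℝ) ≤ Real.sqrt p.N := by
    rw [Real.sqrt_eq_rpow]
    exact Real.rpow_le_rpow_of_exponent_le hN1 (by norm_num)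
  have M41 : p.N ^ (1 / 3 : ℝ) ≤ p.M4 := hsq
  have M42 : 2 * p.M4 ≤ p.N := by
    unfold Par.M4
    nlinarith
  have hM2 : Real.sqrt p.N ≤ p.M2 := by
    unfold Par.M2
    rw [le_div_iff₀ (by positivity)]
    have : 16 * p.P ≤ p.T := by linarith
    nlinarith
  have M21 : p.N ^ (1 / 3 : ℝ) ≤ p.M2 := hsq.trans hM2
  have M22 : 2 * p.M2 ≤ p.N := by
    unfold Par.M2
    rw [mul_div_assoc', div_le_iff₀ (by positivity)]
    have h3 : p.T ≤ Real.sqrt p.N := hTT.trans h10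
    have h4 : Real.sqrt p.N * p.T ≤ p.N := by
      calc Real.sqrt p.N * p.T ≤ Real.sqrt p.N * Real.sqrt p.N := by gcongr
        _ = p.N := hss
    nlinarith
  have nT : 4 * p.M4 * p.M2 * Real.exp (2 / p.h) ≤ p.N * p.T := by
    have h3 := exp_hi h1
    have h4 := mm_core hN0
    have h5 : 4 * p.M4 * p.M2 * Real.exp (2 / p.h) ≤ 4 * (p.M4 * p.M2) * 3 := by
      have h6 : 0 ≤ 4 * (p.M4 * p.M2) := by
        rw [h4]; positivity
      calc 4 * p.M4 * p.M2 * Real.exp (2 / p.h) = 4 * (p.M4 * p.M2) * Real.exp (2 / p.h) := by ring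
        _ ≤ _ := mul_le_mul_of_nonneg_left h3 h6
    refine h5.trans ?_
    rw [h4]
    have h6 : 4 * (p.N * p.T / (16 * p.P)) * 3 = p.N * p.T * (12 / (16 * p.P)) := by ring
    rw [h6]
    have h7 : 12 / (16 * p.P) ≤ 1 := by
      rw [div_le_one (by positivity)]; linarith
    have h8 : 0 ≤ p.N * p.T := by positivity
    calc p.N * p.T * (12 / (16 * p.P)) ≤ p.N * p.T * 1 := mul_le_mul_of_nonneg_left h7 h8
      _ = _ := mul_one _
  have hKp : 2 * p.P ≤ p.K / nm y := hP2.trans K1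
  have hK1 : 1 ≤ p.K / nm y := by linarith
  have hM41 : 1 ≤ p.M4 := by
    have : p.M4 = Real.sqrt p.N := rfl
    rw [this]; linarith
  have hM21 : 1 ≤ p.M2 := by linarith
  exact
    { N1 := N1
      l1 := l1
      h1 := h1
      h2 := h2
      w1 := w1
      P1 := P1
      T1 := T1
      b1 := b1
      b2 := b2
      ny := hny
      K1 := K1
      K2 := K2
      M41 := M41
      M42 := M42
      M21 := M21
      M22 := M22
      nT := nT
      prod := prod_core hN0 hT0 hP0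
      om := fun π hπ z hz => om_core hw hQ hQ2 hQ0 hy hyP hKp hU hr hπ hz
      ce := fun z hz => ce_core hh0 hK1 hz
      ra := fun π hπ u hu v4 hv4 v2 hv2 =>
        ra_core h1 hN0 hP0 hT0 hny hK1 hM41 hM21 hπ hu hv4 hv2
      jj := fun v4 hv4 v2 hv2 => jj_core h1 hN0 hP0 T1 hM41 hM21 nT hv4 hv2
      c1 := vv_card h1 hK1
      c4 := vv_card h1 hM41
      c2 := vv_card h1 hM21 }

/-! ## Powers of `log N` -/

lemma ev_pow (a c δ : ℝ) (hc : 0 < c) (hδ : 0 < δ) :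
    ∀ᶠ N : ℝ in atTop, Real.log N ^ a ≤ δ * N ^ c := by
  have h := (isLittleO_log_rpow_rpow_atTop a hc).def hδ
  filter_upwards [h, eventually_ge_atTop 1] with N hN hN1
  rw [Real.norm_eq_abs, Real.norm_eq_abs, abs_of_nonneg (Real.rpow_nonneg (Real.log_nonneg hN1) _),
    abs_of_nonneg (Real.rpow_nonneg (by linarith) _)] at hN
  exact hN

end SIZM

open SIZM in
/-- SIZ -/
theorem specSIZ : SpecSIZ := by
  intro cw aU aQ aF hcw haU haQ haF
  refine ⟨1, fun ch hch => ⟨max (2 * cw) (2 * aQ) + 2, fun cP hcP => ⟨cP + 1, fun cT hcT =>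
    ⟨1, fun cB hcB => ?_⟩⟩⟩⟩
  have hcP1 : 2 * cw + 2 ≤ cP := le_trans (by linarith [le_max_left (2 * cw) (2 * aQ)]) hcP
  have hcP2 : 2 * aQ + 2 ≤ cP := le_trans (by linarith [le_max_right (2 * cw) (2 * aQ)]) hcP
  have e1 := Real.tendsto_log_atTop.eventually_ge_atTop 1000
  have e2 := ev_pow (ch * 2) 1 (1 / 10) one_pos (by norm_num)
  have e3 := ev_pow (cT + cP / 2) (1 / 10) 1 (by norm_num) one_pos
  have e4 := ev_pow cP (9 / 10) (1 / 2) (by norm_num) (by norm_num)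
  filter_upwards [e1, e2, e3, e4, eventually_ge_atTop 1000000] with N h1 h2 h3 h4 h5
  intro B U b y hc
  set L : ℝ := Real.log N with hL
  have hL1 : 1 ≤ L := by linarith
  have hL0 : 0 < L := by linarith
  have hN0 : 0 < N := by linarith
  have mono : ∀ {s t : ℝ}, s ≤ t → L ^ s ≤ L ^ t := fun hst =>
    Real.rpow_le_rpow_of_exponent_le hL1 hst
  have hLL : ∀ {s : ℝ}, 1 ≤ s → L ≤ L ^ s := fun {s} hs => by
    calc L = L ^ (1 : ℝ) := (Real.rpow_one L).symm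
      _ ≤ L ^ s := mono hs
  have hB1 : 1 ≤ B := by
    have h6 := hLL hcB
    have h7 := hc.B1
    linarith
  have hbB := hc.b1
  have hb1 : 1 ≤ b := by
    have h6 : (0 : ℝ) < b := by linarith
    have h7 : 0 < b := by exact_mod_cast h6
    omega
  refine core (Q := L ^ aQ) h5 (by show 100 ≤ Real.log N; linarith) ?_ ?_ ?_ ?_ ?_ hb1 ?_ ?_ ?_ ?_ ?_
    hc.y1 ?_ ?_ ?_ ?_ ?_
  · show 100 ≤ L ^ ch
    have := hLL hch
    linarith
  · show (L ^ ch) ^ 2 ≤ N / 10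
    rw [Real.rpow_one] at h2
    have h6 : (L ^ ch) ^ 2 = L ^ (ch * 2) := by
      rw [← Real.rpow_natCast, ← Real.rpow_mul hL0.le]
      norm_num
    rw [h6]
    linarith
  · show 1 ≤ L ^ cw
    exact Real.one_le_rpow hL1 (by linarith)
  · show 100 ≤ L ^ cP
    have := hLL (show 1 ≤ cP by linarith)
    linarith
  · show 1000 * L ^ cP ≤ L ^ cT
    calc 1000 * L ^ cP ≤ L * L ^ cP := by
          refine mul_le_mul_of_nonneg_right h1 (Real.rpow_nonneg hL0.le _)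
      _ = L ^ (1 + cP) := by rw [Real.rpow_add hL0, Real.rpow_one]
      _ ≤ L ^ cT := mono (by linarith)
  · show (b : ℝ) ^ 2 ≤ 8 * N
    have h6 := hc.b2
    have h7 := hc.B2
    have h8 : (0 : ℝ) ≤ b := Nat.cast_nonneg b
    nlinarith
  · show L ^ cw ≤ L ^ cP
    exact mono (by linarith)
  · exact mono (by linarith)
  · show (L ^ aQ) ^ 2 ≤ L ^ cw
    rw [← Real.rpow_natCast, ← Real.rpow_mul hL0.le]
    refine mono ?_
    push_cast
    linarith
  · exact Real.rpow_nonneg hL0.le _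
  · show (nm y : ℝ) ≤ L ^ cP
    exact hc.y2.trans (mono (by linarith))
  · intro i hi
    exact ⟨(hc.ok.ch i hi).1, (hc.ok.ch i hi).2.1⟩
  · intro π hπ hd
    exact (hc.y3 π hπ hd).1
  · show L ^ cT * nm y ≤ N ^ (1 / 10 : ℝ)
    have h6 := hc.y2
    calc L ^ cT * nm y ≤ L ^ cT * L ^ (cP / 2) :=
          mul_le_mul_of_nonneg_left h6 (Real.rpow_nonneg hL0.le _)
      _ = L ^ (cT + cP / 2) := (Real.rpow_add hL0 _ _).symm
      _ ≤ 1 * N ^ (1 / 10 : ℝ) := h3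
      _ = _ := one_mul _
  · show 2 * L ^ cP ≤ N ^ (9 / 10 : ℝ)
    linarith

end Pool.Agent.Lib.MP391708.XM
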