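import Pool.Agent.Lib.MP_391708_nt.X.SpecMT

/-!
# Module TBG (MP_391708_nt, Theorem X, part MT): there are many points on a line
-/

set_option autoImplicit false

namespace Pool.Agent.Lib.MP391708.XM

open Finset Filter Topology Pool.Agent.Lib.MP391708.MR
open Pool.Agent.Lib.MP391708.X
open Pool.Agent.Lib.MP391708.XL (gg VQ VS PS)

theorem specTBG (hL : XL.SpecLSM) : SpecTBG := by
  obtain ⟨C, -, -, -, -, c, hc, hV⟩ := hL
  intro u δ hδ cw aU aQ aF h1 h2 h3 h4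
  refine ⟨0, fun ch _ => ⟨0, fun cP _ => ⟨cP + ch + aQ + (cw + 1) * ((16 * u + 34 : ℕ) : ℝ) + 5,
    fun cT hcT => ⟨0, fun cB _ => ?_⟩⟩⟩⟩
  filter_upwards [Real.tendsto_log_atTop.eventually_ge_atTop (max 2 ((cw + 1) ^ 4 / (δ * c)))]
    with N hN B U b y hcx i hi
  obtain ⟨-, hi2, -⟩ := hcx.ok.ch i hi
  change (i.1 : ℝ) * (Real.log N ^ cw + 1) ^ (16 * u + 34) ≤
    δ * (Real.log N ^ cT / (Real.log N ^ cP * Real.log N ^ ch)) * VS b (PS (Real.log N ^ cw))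
  set ℓ := Real.log N with hℓ
  have hℓ2 : 2 ≤ ℓ := (le_max_left _ _).trans hN
  have hℓc : (cw + 1) ^ 4 / (δ * c) ≤ ℓ := (le_max_right _ _).trans hN
  have hℓ0 : 0 < ℓ := by linarith
  have hℓ1 : 1 ≤ ℓ := by linarith
  have hcw : 2 ≤ cw := by linarith
  have hw1 : 1 ≤ ℓ ^ cw := Real.one_le_rpow hℓ1 (by linarith)
  have hw : ℓ ^ cw + 1 ≤ ℓ ^ (cw + 1) := by
    rw [Real.rpow_add hℓ0, Real.rpow_one]
    nlinarith
  set n : ℕ := 16 * u + 34 with hn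
  have hpow : (ℓ ^ cw + 1) ^ n ≤ ℓ ^ ((cw + 1) * (n : ℝ)) := by
    rw [Real.rpow_mul hℓ0.le, Real.rpow_natCast]
    exact pow_le_pow_left₀ (by linarith) hw n
  have hVS : c / ((cw + 1) * ℓ) ^ 4 ≤ VS b (PS (ℓ ^ cw)) := by
    refine le_trans ?_ (hV b (ℓ ^ cw) hw1).1
    have hlog0 : 0 < Real.log (ℓ ^ cw + 1) := Real.log_pos (by linarith)
    apply div_le_div_of_nonneg_left hc.le (by positivity)
    apply pow_le_pow_left₀ hlog0.le
    calc Real.log (ℓ ^ cw + 1) ≤ Real.log (ℓ ^ (cw + 1)) := Real.log_le_log (by linarith) hw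
      _ = (cw + 1) * Real.log ℓ := Real.log_rpow hℓ0 _
      _ ≤ (cw + 1) * ℓ := by
        apply mul_le_mul_of_nonneg_left _ (by linarith)
        have := Real.log_le_sub_one_of_pos hℓ0
        linarith
  set E := aQ + (cw + 1) * (n : ℝ) with hE
  have hlhs : (i.1 : ℝ) * (ℓ ^ cw + 1) ^ n ≤ ℓ ^ E := by
    rw [hE, Real.rpow_add hℓ0]
    exact mul_le_mul hi2 hpow (by positivity) (by positivity)
  have hT : ℓ ^ E * ℓ ^ 5 ≤ ℓ ^ cT / (ℓ ^ cP * ℓ ^ ch) := by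
    rw [← Real.rpow_add hℓ0, ← Real.rpow_sub hℓ0]
    have h5 : (ℓ : ℝ) ^ (5 : ℕ) = ℓ ^ (5 : ℝ) := by
      rw [← Real.rpow_natCast]
      norm_num
    rw [h5, ← Real.rpow_add hℓ0]
    apply Real.rpow_le_rpow_of_exponent_le hℓ1
    linarith
  refine hlhs.trans ?_
  have hEpos : 0 < ℓ ^ E := Real.rpow_pos_of_pos hℓ0 _
  have hkey : ℓ ^ E ≤ δ * (ℓ ^ E * ℓ ^ 5) * (c / ((cw + 1) * ℓ) ^ 4) := by
    have h6 : δ * (ℓ ^ E * ℓ ^ 5) * (c / ((cw + 1) * ℓ) ^ 4) =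
        ℓ ^ E * (δ * c * ℓ / (cw + 1) ^ 4) := by
      have : cw + 1 ≠ 0 := by linarith
      field_simp
    rw [h6]
    have h7 : 1 ≤ δ * c * ℓ / (cw + 1) ^ 4 := by
      have h8 : (0 : ℝ) < (cw + 1) ^ 4 := by positivity
      rw [le_div_iff₀ h8, one_mul]
      rw [div_le_iff₀ (by positivity)] at hℓc
      linarith
    nlinarith
  refine hkey.trans ?_
  apply mul_le_mul _ hVS (by positivity) (by positivity)
  exact mul_le_mul_of_nonneg_left hT hδ.le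

end Pool.Agent.Lib.MP391708.XM
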