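import Pool.Agent.Lib.MP_391708_nt.X.SpecMT

set_option autoImplicit false

namespace Pool.Agent.Lib.MP391708.XM

open Finset Filter Topology Pool.Agent.Lib.MP391708.MR
open Pool.Agent.Lib.MP391708.X
open Pool.Agent.Lib.MP391708.XL (gg VQ VS PS)

namespace XXLM

theorem logs {κ cw cP : ℝ} (hκ : 0 < κ) (hcw : 0 ≤ cw) (hcP : 0 < cP) :
    ∀ᶠ l : ℝ in atTop, 32 * Real.log (l ^ cw + 1) ^ 4 * Real.log (l ^ cP) ≤ κ * l := by
  have h1 : 0 < 32 * (cw + 1) ^ 4 * cP := by positivity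
  have h2 := (Real.isLittleO_pow_log_id_atTop (n := 5)).bound (div_pos hκ h1)
  filter_upwards [h2, eventually_ge_atTop (2 : ℝ)] with l hl hl2
  have hl0 : 0 < l := by linarith
  have hlog : 0 ≤ Real.log l := Real.log_nonneg (by linarith)
  have h3 : Real.log l ^ 5 ≤ κ / (32 * (cw + 1) ^ 4 * cP) * l := by
    rw [Real.norm_of_nonneg (by positivity), id, Real.norm_of_nonneg hl0.le] at hl
    exact hl
  have h5 : 1 ≤ l ^ cw := Real.one_le_rpow (by linarith) hcw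
  have h4 : Real.log (l ^ cw + 1) ≤ (cw + 1) * Real.log l := by
    rw [← Real.log_rpow hl0]
    apply Real.log_le_log (by positivity)
    rw [Real.rpow_add hl0, Real.rpow_one]
    nlinarith
  have h40 : 0 ≤ Real.log (l ^ cw + 1) := Real.log_nonneg (by linarith)
  have h6 : Real.log (l ^ cw + 1) ^ 4 ≤ ((cw + 1) * Real.log l) ^ 4 := pow_le_pow_left₀ h40 h4 4
  have h7 : Real.log (l ^ cP) = cP * Real.log l := Real.log_rpow hl0 cP
  rw [h7]
  have h8 : 0 ≤ cP * Real.log l := by positivity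
  calc 32 * Real.log (l ^ cw + 1) ^ 4 * (cP * Real.log l)
      ≤ 32 * ((cw + 1) * Real.log l) ^ 4 * (cP * Real.log l) := by gcongr
    _ = (32 * (cw + 1) ^ 4 * cP) * Real.log l ^ 5 := by ring
    _ ≤ (32 * (cw + 1) ^ 4 * cP) * (κ / (32 * (cw + 1) ^ 4 * cP) * l) := by gcongr
    _ = κ * l := by field_simp

theorem ev_logs {c κ : ℝ} (hκ : 0 < κ)
    (hC : ∀ᶠ X : ℝ in atTop, c * X / Real.log X ≤ ((GP X (2 * X)).card : ℝ)) :
    EV (fun p _ _ _ _ => 32 * Real.log (p.w + 1) ^ 4 * Real.log p.P ≤ κ * Real.log p.N ∧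
      c * p.P / Real.log p.P ≤ ((GP p.P (2 * p.P)).card : ℝ)) := by
  intro cw aU aQ aF h1 _ h3 _
  refine ⟨0, fun ch _ => ⟨1, fun cP hcP => ⟨0, fun cT _ => ⟨0, fun cB _ => ?_⟩⟩⟩⟩
  have hcP0 : 0 < cP := by linarith
  have hcw : 0 ≤ cw := by linarith
  have e1 := Real.tendsto_log_atTop.eventually (logs hκ hcw hcP0)
  have e2 := ((tendsto_rpow_atTop hcP0).comp Real.tendsto_log_atTop).eventually hC
  filter_upwards [e1, e2] with N hN1 hN2 B U b y _
  exact ⟨hN1, hN2⟩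

/-- the inequality in one context -/
theorem one {N l n V VP' c c' κ cd K M4 M2 P L4 LP : ℝ} (hc : 0 < c) (hc' : 0 < c') (hκ : 0 < κ)
    (hN : 0 < N) (hl : 0 < l) (hn : 0 < n) (hV : c' / L4 ≤ V) (hVP : 0 < VP') (hVP1 : VP' ≤ 1)
    (hcd : c * P / LP ≤ cd) (hP : 0 < P) (hL4 : 0 < L4) (hLP : 0 < LP) (hK : 0 < K) (hM4 : 0 < M4)
    (hM2 : 0 < M2) (hprod : 16 * K * P * M4 * M2 = N ^ 2) (hlog : 32 * L4 * LP ≤ κ * c * c' * l) :
    2 * N / (l ^ 4 * n) ≤ κ * (V / VP' * cd * (K / n * M4 * M2 / (N * l ^ 3))) ∧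
      0 ≤ V / VP' * cd * (K / n * M4 * M2 / (N * l ^ 3)) := by
  have h1 : c' / L4 ≤ V / VP' := by
    refine hV.trans ?_
    rw [le_div_iff₀ hVP]
    have : 0 ≤ V := le_trans (by positivity) hV
    nlinarith
  have h0 : 0 ≤ V / VP' := le_trans (by positivity) h1
  have hZ : 0 < K / n * M4 * M2 / (N * l ^ 3) := by positivity
  have h2 : c' / L4 * (c * P / LP) ≤ V / VP' * cd := by
    apply mul_le_mul h1 hcd (by positivity) h0
  have h3 : 0 ≤ V / VP' * cd := le_trans (by positivity) h2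
  refine ⟨?_, by positivity⟩
  have h4 : κ * (c' / L4 * (c * P / LP) * (K / n * M4 * M2 / (N * l ^ 3))) ≤
      κ * (V / VP' * cd * (K / n * M4 * M2 / (N * l ^ 3))) := by gcongr
  refine le_trans ?_ h4
  have h5 : κ * (c' / L4 * (c * P / LP) * (K / n * M4 * M2 / (N * l ^ 3))) =
      κ * c * c' * (16 * K * P * M4 * M2) / (16 * L4 * LP * n * N * l ^ 3) := by
    field_simp
  rw [h5, hprod, div_le_div_iff₀ (by positivity) (by positivity)]
  have h6 : 0 ≤ N ^ 2 * n * l ^ 3 := by positivity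
  calc 2 * N * (16 * L4 * LP * n * N * l ^ 3) = (32 * L4 * LP) * (N ^ 2 * n * l ^ 3) := by ring
    _ ≤ (κ * c * c' * l) * (N ^ 2 * n * l ^ 3) := by gcongr
    _ = κ * c * c' * N ^ 2 * (l ^ 4 * n) := by ring

end XXLM

theorem specXXL (hC : SpecCNT) (hS : SpecSIZ) (hR : SpecRRA)
    (hL : Pool.Agent.Lib.MP391708.XL.SpecLSM) : SpecXXL := by
  obtain ⟨c, hc, hCe⟩ := hC
  obtain ⟨_, _, _, _, _, c', hc', hE⟩ := hL
  intro κ hκ
  have h1 := XXLM.ev_logs (κ := κ * c * c') (by positivity) hCe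
  refine ((h1.and hS).and (hR 1 one_pos)).mono ?_
  rintro p B U b y ⟨⟨⟨hlog, hcd⟩, hs⟩, hVP, hVP1, _⟩
  have hw := hs.w1
  obtain ⟨hV1, hV2, hV3⟩ := hE b p.w hw
  have hlw : 0 < Real.log (p.w + 1) := Real.log_pos (by linarith)
  have hP1 := hs.P1
  have hlP : 0 < Real.log p.P := Real.log_pos (by linarith)
  have hN1 := hs.N1
  have hl1 := hs.l1
  have hny : (0 : ℝ) < nm y := by
    have := hs.ny
    exact_mod_cast this
  have hN0 : 0 < p.N := by linarith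
  have hK0 : 0 < p.K := by
    have h2 : 0 < p.K / nm y := lt_of_lt_of_le (by positivity) hs.K1
    by_contra h3
    push Not at h3
    exact absurd (div_nonpos_of_nonpos_of_nonneg h3 hny.le) (not_le.2 h2)
  have hM4 : 0 < p.M4 := lt_of_lt_of_le (by positivity) hs.M41
  have hM2 : 0 < p.M2 := lt_of_lt_of_le (by positivity) hs.M21
  exact XXLM.one hc hc' hκ hN0 (by linarith) hny hV1 hVP hVP1 hcd (by linarith)
    (by positivity) hlP hK0 hM4 hM2 hs.prod hlog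

end Pool.Agent.Lib.MP391708.XM
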