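import Pool.Agent.Lib.MP_391708_nt.X.HM
import Pool.Agent.Lib.MP_391708_nt.X.LS
import Pool.Agent.Lib.MP_391708_nt.X.CELAll
import Pool.Agent.Lib.MP_391708_nt.X.PH.Main
import Pool.Agent.Lib.MP_391708_nt.X.MT.BIL
import Pool.Agent.Lib.MP_391708_nt.X.MT.BLX
import Pool.Agent.Lib.MP_391708_nt.X.MT.CCB
import Pool.Agent.Lib.MP_391708_nt.X.MT.CE3
import Pool.Agent.Lib.MP_391708_nt.X.MT.CNT
import Pool.Agent.Lib.MP_391708_nt.X.MT.EXC
import Pool.Agent.Lib.MP_391708_nt.X.MT.FMT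
import Pool.Agent.Lib.MP_391708_nt.X.MT.FRQ
import Pool.Agent.Lib.MP_391708_nt.X.MT.HGT
import Pool.Agent.Lib.MP_391708_nt.X.MT.LIN
import Pool.Agent.Lib.MP_391708_nt.X.MT.MNX
import Pool.Agent.Lib.MP_391708_nt.X.MT.PSM
import Pool.Agent.Lib.MP_391708_nt.X.MT.RED
import Pool.Agent.Lib.MP_391708_nt.X.MT.RRA
import Pool.Agent.Lib.MP_391708_nt.X.MT.SIZ
import Pool.Agent.Lib.MP_391708_nt.X.MT.TBG
import Pool.Agent.Lib.MP_391708_nt.X.MT.XXL

/-!
# THEOREM X (MP_391708), part MT: assembly (helper6)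

All statements of part MT, without hypotheses; `mt : X.SpecMT`.
-/

set_option autoImplicit false

namespace Pool.Agent.Lib.MP391708.XM

open Pool.Agent.Lib.MP391708

theorem mt_siz : SpecSIZ := specSIZ
theorem mt_frq : SpecFRQ := specFRQ
theorem mt_bil : SpecBIL := specBIL
theorem mt_cnt : SpecCNT := specCNT
theorem mt_hgt : SpecHGT := specHGT
theorem mt_rra : SpecRRA := specRRA X.hm_rg0 mt_siz
theorem mt_ce3 : SpecCE3 := specCE3 X.ce_celb
theorem mt_ccb : SpecCCB := specCCB mt_ce3 mt_rra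
theorem mt_tbg : SpecTBG := specTBG XL.ls_lsm
theorem mt_mnx : SpecMNX := specMNX mt_cnt mt_siz XL.ls_lsm
theorem mt_xxl : SpecXXL := specXXL mt_cnt mt_siz mt_rra XL.ls_lsm
theorem mt_lin : SpecLIN := specLIN XL.ls_lsm mt_siz mt_frq mt_tbg mt_hgt

theorem mt_exc : SpecEXC := specEXC
theorem mt_red : SpecRED :=
  specRED mt_exc mt_lin mt_ccb mt_rra mt_siz mt_ce3 mt_hgt XL.ls_lsm XL.ls_chb

/-- the main term of THEOREM X, from the initial sums of the hyperbolic part alone -/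
theorem mtOf (hPHX : X.PH.SpecPHX) : X.SpecMT := by
  have hpsm : SpecPSM := specPSM hPHX mt_siz
  have hblx : SpecBLX := specBLX mt_bil mt_ce3 hpsm mt_siz mt_frq XL.ls_lsm
  exact EV.specMT (specFMT mt_red hblx mt_mnx mt_xxl mt_rra XL.ls_chb)

/-- the main term of THEOREM X -/
theorem mt : X.SpecMT := mtOf X.PH.mPHX

end Pool.Agent.Lib.MP391708.XM
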